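import Pool.Agent.Lib.Pc0b458F.Trip2

/-!
# Classification of the sets of Tate type in dimension at most five
-/

namespace Pc0b458F

namespace CMDatum

variable {G : Type} [Group G] [Fintype G] {D : Subgroup G} {c : G} {X : CMDatum G D c}

section Trip

variable {J : Finset X.S} (hJ : IsTrip J)

include hJ

theorem IsTrip.closed (hne : ¬ Exceptional X.slopes) :
    ∀ g : G, ∀ x ∈ J, ∃ x' ∈ J, X.a (g • x) = X.a x' ∨ X.a (g • x) = -X.a x' := by
  intro g x hx
  by_contra hcon
  push Not at hcon
  have h1 : ∀ x' ∈ J, NE (X.a (g • x)) (X.a x') := fun x' hx' => hcon x' hx'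
  have h2 : IsOpen3 J (g • x) := ⟨hJ, h1, by
    rw [X.a_smul]
    exact fun h => hJ.n0 x hx (rho_eq_zero h)⟩
  exact hne (h2.exc hx g rfl)

theorem IsTrip.unique {K : Finset X.S} (hK : IsTrip K) (hne : ¬ Exceptional X.slopes) :
    ∀ y ∈ K, ∃ x ∈ J, X.a y = X.a x ∨ X.a y = -X.a x := by
  intro y hy
  by_contra hcon
  push Not at hcon
  have h2 : IsOpen3 J y := ⟨hJ, fun x hx => hcon x hx, hK.n0 y hy⟩
  exact hne (h2.exc_two hK hy (hJ.closed hne) (hK.closed hne))

theorem IsTrip.bound : ∑ x ∈ J, X.m (X.a x) ≤ 4 := by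
  have h1 := X.halfF J (fun x hx y hy hxy => hJ.ne hx hy hxy) hJ.n0
  have h2 := hJ.z2
  have h3 := hJ.c10
  omega

theorem IsTrip.m_one (hne : ¬ Exceptional X.slopes) : ∀ x ∈ J, X.m (X.a x) = 1 := by
  classical
  intro x hx
  by_contra hm
  have hmx : 2 ≤ X.m (X.a x) := by
    have := X.m_pos x
    omega
  have hcl := hJ.closed hne
  have hJc : (J.erase x).card = 2 := by
    rw [Finset.card_erase_of_mem hx, hJ.card]
  obtain ⟨p, q, hpq, hJx⟩ := Finset.card_eq_two.1 hJc
  have hpm : p ≠ x ∧ p ∈ J := by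
    rw [← Finset.mem_erase, hJx]
    simp
  have hqm : q ≠ x ∧ q ∈ J := by
    rw [← Finset.mem_erase, hJx]
    simp
  have hb := hJ.bound
  rw [← Finset.add_sum_erase _ _ hx, hJx, Finset.sum_pair hpq] at hb
  have mp := X.m_pos p
  have mq := X.m_pos q
  have hmx2 : X.m (X.a x) = 2 := by omega
  have hmp : X.m (X.a p) = 1 := by omega
  have hmq : X.m (X.a q) = 1 := by omega
  have hall : ∀ z ∈ J, z = x ∨ z = p ∨ z = q := by
    intro z hz
    by_cases h : z = x
    · exact Or.inl h
    · right
      have : z ∈ J.erase x := Finset.mem_erase.2 ⟨h, hz⟩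
      rw [hJx, Finset.mem_insert, Finset.mem_singleton] at this
      exact this
  have hf : Fixed (X.a x) := by
    intro g
    obtain ⟨x', hx', h⟩ := hcl g x hx
    rw [X.a_smul] at h
    have h1 := X.m_class h
    rw [X.m_rho] at h1
    rcases hall x' hx' with rfl | rfl | rfl
    · exact h
    · omega
    · omega
  have hxd := hf.dec (X := X) (hJ.n0 x hx) (by omega)
  have key : ∀ z, (z = p ∨ z = q) → ∀ d : G,
      (rho d (X.a z) = X.a p ∨ rho d (X.a z) = -X.a p) ∨
      (rho d (X.a z) = X.a q ∨ rho d (X.a z) = -X.a q) := by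
    intro z hz d
    have hzJ : z ∈ J := by
      rcases hz with rfl | rfl
      · exact hpm.2
      · exact hqm.2
    obtain ⟨x', hx', h⟩ := hcl d z hzJ
    rw [X.a_smul] at h
    have h1 := X.m_class h
    rw [X.m_rho] at h1
    rcases hall x' hx' with rfl | rfl | rfl
    · exfalso
      rcases hz with rfl | rfl <;> omega
    · exact Or.inl h
    · exact Or.inr h
  have hs : ∀ k, X.a x k + (X.a p k + X.a q k) = 0 := by
    intro k
    have e1 := hJ.sum
    rw [← Finset.add_sum_erase _ _ hx, hJx, Finset.sum_pair hpq] at e1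
    have := congrFun e1 k
    simpa only [Pi.add_apply, Pi.zero_apply] using this
  obtain ⟨n, hn⟩ := X.int_pair (hJ.ne hpm.2 hqm.2 hpq).1 (fun d hd => by
    refine pair_stable (hJ.n0 p hpm.2) (hJ.n0 q hqm.2) (hJ.ne hpm.2 hqm.2 hpq)
      ((hJ.ne hpm.2 hqm.2 hpq).rho d) (key p (Or.inl rfl) d) (key q (Or.inr rfl) d) fun k => ?_
    have h1 := hs k
    have h2 := hs (k * d)
    have h3 := congrFun (hxd d hd) k
    rw [rho_apply] at h3
    rw [rho_apply, rho_apply]
    linarith)
  rw [hmp, hmq] at hn
  push_cast at hn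
  have hs1 := hs 1
  rcases X.half_of_two hmx2 hxd (hf.one_ne (hJ.n0 x hx)) with h | h
  · have h7 : (2 * n : ℚ) = 1 := by rw [← hn]; linarith
    have h8 : 2 * n = 1 := by exact_mod_cast h7
    omega
  · have h7 : (2 * n : ℚ) = 3 := by rw [← hn]; linarith
    have h8 : 2 * n = 3 := by exact_mod_cast h7
    omega

theorem IsTrip.dec (hne : ¬ Exceptional X.slopes) :
    ∃ d ∈ D, ∃ x ∈ J, ∀ x' ∈ J, X.a (d • x) ≠ X.a x' := by
  classical
  by_contra hcon
  push Not at hcon
  obtain ⟨n, hn⟩ := X.int_set (J.image X.a) (by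
    intro d hd v hv
    rw [Finset.mem_image] at hv ⊢
    obtain ⟨x, hx, rfl⟩ := hv
    obtain ⟨x', hx', h⟩ := hcon d hd x hx
    exact ⟨x', hx', by rw [← h, X.a_smul]⟩)
  rw [Finset.sum_image fun x hx y hy h => by
    by_contra hxy
    exact (hJ.ne hx hy hxy).1 h] at hn
  have h1 : ∑ x ∈ J, (X.m (X.a x) : ℚ) * (X.a x 1 + 1 / 2) = ∑ x ∈ J, (X.a x 1 + 1 / 2) := by
    refine Finset.sum_congr rfl fun x hx => ?_
    rw [hJ.m_one hne x hx, Nat.cast_one, one_mul]
  have h2 := congrFun hJ.sum 1
  rw [Finset.sum_apply, Pi.zero_apply] at h2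
  rw [h1, Finset.sum_add_distrib, h2, Finset.sum_const, hJ.card, nsmul_eq_mul] at hn
  push_cast at hn
  have h7 : (2 * n : ℚ) = 3 := by rw [← hn]; norm_num
  have h8 : 2 * n = 3 := by exact_mod_cast h7
  omega

theorem IsTrip.signs {K : Finset X.S} (hK : IsTrip K) (hne : ¬ Exceptional X.slopes) :
    K.image X.a = J.image X.a ∨ K.image X.a = (J.image X.a).image fun v => -v := by
  have inj : ∀ {J : Finset X.S}, IsTrip J → Set.InjOn X.a J := fun hJ x hx y hy h => by
    by_contra hxy
    exact (hJ.ne hx hy hxy).1 h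
  have free : ∀ {J : Finset X.S}, IsTrip J → ∀ v ∈ J.image X.a, -v ∉ J.image X.a := by
    intro J hJ v hv hv'
    rw [Finset.mem_image] at hv hv'
    obtain ⟨x, hx, rfl⟩ := hv
    obtain ⟨y, hy, h⟩ := hv'
    by_cases hxy : y = x
    · rw [hxy] at h
      apply hJ.n0 x hx
      funext k
      have := congrFun h k
      rw [Pi.neg_apply] at this
      rw [Pi.zero_apply]
      linarith
    · exact (hJ.ne hy hx hxy).2 h
  refine two_sets (fun v : G → ℚ => v) (fun v => -v) neg_neg (fun _ => rfl) (J.image X.a)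
    (K.image X.a) (free hK) ?_ ?_ ?_ ?_ ?_
  · rw [Finset.card_image_of_injOn (inj hJ), Finset.card_image_of_injOn (inj hK), hJ.card, hK.card]
  · rw [Finset.sum_image (inj hJ), hJ.sum]
  · rw [Finset.sum_image (inj hK), hK.sum]
  · refine min_three _ _ ?_ ?_ ?_
    · rw [Finset.card_image_of_injOn (inj hJ), hJ.card]
    · intro v hv
      rw [Finset.mem_image] at hv
      obtain ⟨x, hx, rfl⟩ := hv
      exact hJ.n0 x hx
    · rw [Finset.sum_image (inj hJ), hJ.sum]
  · intro v hv
    rw [Finset.mem_image] at hv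
    obtain ⟨y, hy, rfl⟩ := hv
    obtain ⟨x, hx, h | h⟩ := hJ.unique hK hne y hy
    · left
      rw [h]
      exact Finset.mem_image_of_mem _ hx
    · right
      rw [h, neg_neg]
      exact Finset.mem_image_of_mem _ hx

end Trip

/-- the stabiliser of a set of functions -/
def stab (P : Finset (G → ℚ)) : Subgroup G where
  carrier := {g | P.image (rho g) = P}
  one_mem' := by
    show P.image (rho 1) = P
    have : rho (1 : G) = id := funext rho_one
    rw [this, Finset.image_id]
  mul_mem' := by
    intro g h hg hh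
    show P.image (rho (g * h)) = P
    have : rho (g * h) = rho g ∘ rho h := funext (rho_mul g h)
    rw [this, ← Finset.image_image]
    rw [show P.image (rho h) = P from hh]
    exact hg
  inv_mem' := by
    intro g hg
    show P.image (rho g⁻¹) = P
    have hg' : P.image (rho g) = P := hg
    conv_lhs => rw [← hg']
    rw [Finset.image_image]
    have : rho g⁻¹ ∘ rho g = id := funext (rho_inv g)
    rw [this, Finset.image_id]

theorem mem_stab (P : Finset (G → ℚ)) (g : G) :
    g ∈ stab P ↔ P.image (rho g) = P := Iff.rfl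

theorem image_neg_rho (P : Finset (G → ℚ)) (g : G) :
    (P.image fun v => -v).image (rho g) = (P.image (rho g)).image fun v => -v := by
  rw [Finset.image_image, Finset.image_image]
  rfl

theorem image_neg_neg (P : Finset (G → ℚ)) :
    (P.image fun v => -v).image (fun v => -v) = P := by
  rw [Finset.image_image]
  have : ((fun v : G → ℚ => -v) ∘ fun v => -v) = id := funext neg_neg
  rw [this, Finset.image_id]

theorem stab_neg (P : Finset (G → ℚ)) :
    stab (P.image fun v => -v) = stab P := by
  ext g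
  rw [mem_stab, mem_stab, image_neg_rho]
  constructor
  · intro h
    have := congrArg (fun Q => Q.image fun v : G → ℚ => -v) h
    simpa only [image_neg_neg] using this
  · intro h
    rw [h]

section Trip

variable {J : Finset X.S} (hJ : IsTrip J) (hne : ¬ Exceptional X.slopes)

include hJ

theorem IsTrip.image_conj :
    (J.image X.a).image (rho c) = (J.image X.a).image fun v => -v := by
  rw [Finset.image_image, Finset.image_image]
  refine Finset.image_congr fun x _ => ?_
  show rho c (X.a x) = -X.a x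
  rw [← X.a_smul, X.a_conj]

theorem IsTrip.image_ne :
    (J.image X.a).image (fun v => -v) ≠ J.image X.a := by
  intro h
  obtain ⟨x, hx⟩ : J.Nonempty := by
    rw [← Finset.card_pos, hJ.card]
    norm_num
  have h1 : -X.a x ∈ J.image X.a := by
    rw [← h]
    exact Finset.mem_image_of_mem _ (Finset.mem_image_of_mem _ hx)
  rw [Finset.mem_image] at h1
  obtain ⟨y, hy, h2⟩ := h1
  by_cases hxy : y = x
  · rw [hxy] at h2
    apply hJ.n0 x hx
    funext k
    have := congrFun h2 k
    rw [Pi.neg_apply] at this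
    rw [Pi.zero_apply]
    linarith
  · exact (hJ.ne hy hx hxy).2 h2

include hne

theorem IsTrip.image_rho (g : G) :
    (J.image X.a).image (rho g) = J.image X.a ∨
      (J.image X.a).image (rho g) = (J.image X.a).image fun v => -v := by
  have h1 := hJ.signs (hJ.image g) hne
  have h2 : (J.image fun x => g • x).image X.a = (J.image X.a).image (rho g) := by
    rw [Finset.image_image, Finset.image_image]
    refine Finset.image_congr fun x _ => ?_
    exact X.a_smul g x
  rw [h2] at h1
  exact h1

theorem IsTrip.stab_or (g : G) :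
    g ∈ stab (J.image X.a) ∨ c * g ∈ stab (J.image X.a) := by
  rcases hJ.image_rho hne g with h | h
  · exact Or.inl h
  · right
    rw [mem_stab]
    have : rho (c * g) = rho c ∘ rho g := funext (rho_mul c g)
    rw [this, ← Finset.image_image, h, image_neg_rho, hJ.image_conj, image_neg_neg]

end Trip

end CMDatum

end Pc0b458F
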