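import Pool.Agent.Lib.Pc0b458F.Class

/-!
# Classification of the sets of Tate type in dimension at most five, continued
-/

namespace Pc0b458F

namespace CMDatum

variable {G : Type} [Group G] [Fintype G] {D : Subgroup G} {c : G} {X : CMDatum G D c}

theorem IsTrip.stab_index {J : Finset X.S} (hJ : IsTrip J) (hne : ¬ Exceptional X.slopes) :
    (stab (J.image X.a)).index = 2 ∧ c ∉ stab (J.image X.a) ∧ ¬ D ≤ stab (J.image X.a) := by
  have hc : c ∉ stab (J.image X.a) := by
    rw [mem_stab, hJ.image_conj]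
    exact hJ.image_ne
  refine ⟨?_, hc, ?_⟩
  · rw [Subgroup.index_eq_two_iff_exists_notMem_and']
    exact ⟨c, hc, fun b => (hJ.stab_or hne b).symm⟩
  · intro h
    obtain ⟨d, hd, x, hx, h1⟩ := hJ.dec hne
    have h2 := h hd
    rw [mem_stab] at h2
    have h3 : rho d (X.a x) ∈ J.image X.a := by
      rw [← h2]
      exact Finset.mem_image_of_mem _ (Finset.mem_image_of_mem _ hx)
    rw [Finset.mem_image] at h3
    obtain ⟨x', hx', h4⟩ := h3
    exact h1 x' hx' (by rw [X.a_smul, h4])

theorem split_of_half {x : X.S} (hf : Fixed (X.a x))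
    (hh : ∀ k, X.a x k = 1 / 2 ∨ X.a x k = -(1 / 2)) (g : G) : g • x = x ∨ c • g • x = x := by
  have hs : ∀ h : G, X.s (h • x) = 0 ∨ X.s (h • x) = 1 := by
    intro h
    rcases hh h with h1 | h1 <;> rw [a_apply] at h1
    · right
      linarith
    · left
      linarith
  rcases hf g with h1 | h1
  · left
    refine X.split x hs g fun h => ?_
    have := congrFun h1 h
    rw [← X.a_smul, a_apply, a_apply] at this
    linarith
  · right
    rw [← mul_smul]
    refine X.split x hs (c * g) fun h => ?_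
    have h2 : X.a ((c * g) • x) = X.a x := by
      rw [mul_smul, X.a_conj, X.a_smul, h1, neg_neg]
    have := congrFun h2 h
    rw [a_apply, a_apply] at this
    linarith

/-- a set of four nonzero slopes with sum zero, no two of them having sum zero -/
structure IsFour (J : Finset X.S) : Prop where
  c10 : Fintype.card X.S ≤ 10
  card : J.card = 4
  n0 : ∀ x ∈ J, X.a x ≠ 0
  n2 : ∀ x ∈ J, ∀ y ∈ J, x ≠ y → X.a x + X.a y ≠ 0
  sum : ∑ x ∈ J, X.a x = 0

theorem free_of {J : Finset X.S} (n2 : ∀ x ∈ J, ∀ y ∈ J, x ≠ y → X.a x + X.a y ≠ 0) :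
    X.Free J := by
  intro x hx hx'
  apply n2 x hx (c • x) hx' (X.conj_ne x).symm
  rw [X.a_conj, add_neg_cancel]

theorem IsFour.rankTwo {J : Finset X.S} (hJ : IsFour J)
    (hcl : ∀ g : G, ∀ x ∈ J, g • x ∈ J ∨ c • g • x ∈ J) : X.RankTwo J := by
  intro g
  refine two_sets X.a (fun x => c • x) X.conj_conj X.a_conj J (X.tr g J) ?_ ?_ hJ.sum ?_
    (min_four X.a J hJ.card hJ.n0 hJ.n2 hJ.sum) ?_
  · intro x hx hx'
    rw [tr, Finset.mem_image] at hx hx'
    obtain ⟨y, hy, rfl⟩ := hx
    obtain ⟨z, hz, h⟩ := hx'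
    rw [X.conj_comm] at h
    rw [X.smul_inj h] at hz
    exact free_of hJ.n2 y hy hz
  · exact Finset.card_image_of_injective _ fun x y h => X.smul_inj h
  · rw [tr, Finset.sum_image fun x _ x' _ hxx => X.smul_inj hxx]
    simp only [X.a_smul]
    rw [← rho_sum, hJ.sum, rho_zero]
  · intro z hz
    rw [tr, Finset.mem_image] at hz
    obtain ⟨x, hx, rfl⟩ := hz
    exact hcl g x hx

/-- the case of four different slopes -/
theorem IsFour.of_ne {J : Finset X.S} (hJ : IsFour J)
    (hne : ∀ x ∈ J, ∀ y ∈ J, x ≠ y → X.a x ≠ X.a y) : X.RankTwo J := by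
  have hNE : ∀ x ∈ J, ∀ y ∈ J, x ≠ y → NE (X.a x) (X.a y) := by
    intro x hx y hy hxy
    refine ⟨hne x hx y hy hxy, fun h => hJ.n2 x hx y hy hxy ?_⟩
    rw [h, neg_add_cancel]
  have hQ : IsQuad J := ⟨hJ.card, hNE, hJ.n0, hJ.sum⟩
  have hcl : ∀ g : G, ∀ x ∈ J, ∃ x' ∈ J, X.a (g • x) = X.a x' ∨ X.a (g • x) = -X.a x' := by
    intro g x hx
    by_contra hcon
    push Not at hcon
    have hop : IsOpen J (g • x) := ⟨hQ, hJ.c10, fun x' hx' => hcon x' hx', by
      rw [X.a_smul]
      exact fun h => hJ.n0 x hx (rho_eq_zero h)⟩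
    exact hop.false hx g rfl
  have hb : ∑ x ∈ J, X.m (X.a x) ≤ 5 := by
    have h1 := X.halfF J hNE hJ.n0
    have := hJ.c10
    omega
  -- at most one multiplicity two
  have htwo : ∀ x ∈ J, ∀ y ∈ J, 2 ≤ X.m (X.a x) → 2 ≤ X.m (X.a y) → x = y := by
    intro x hx y hy h1 h2
    by_contra hxy
    have hy' : y ∈ J.erase x := Finset.mem_erase.2 ⟨fun h => hxy h.symm, hy⟩
    rw [← Finset.add_sum_erase _ _ hx, ← Finset.add_sum_erase _ _ hy'] at hb
    have h3 : ((J.erase x).erase y).card = 2 := by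
      rw [Finset.card_erase_of_mem hy', Finset.card_erase_of_mem hx, hJ.card]
    have h4 : ∑ z ∈ (J.erase x).erase y, 1 ≤ ∑ z ∈ (J.erase x).erase y, X.m (X.a z) :=
      Finset.sum_le_sum fun z _ => X.m_pos z
    rw [Finset.sum_const, h3, smul_eq_mul] at h4
    omega
  have hle : ∀ x ∈ J, X.m (X.a x) ≤ 2 := by
    intro x hx
    rw [← Finset.add_sum_erase _ _ hx] at hb
    have h3 : (J.erase x).card = 3 := by
      rw [Finset.card_erase_of_mem hx, hJ.card]
    have h4 : ∑ z ∈ J.erase x, 1 ≤ ∑ z ∈ J.erase x, X.m (X.a z) :=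
      Finset.sum_le_sum fun z _ => X.m_pos z
    rw [Finset.sum_const, h3, smul_eq_mul] at h4
    omega
  refine hJ.rankTwo fun g x hx => ?_
  by_cases hm : X.m (X.a x) = 1
  · obtain ⟨x', hx', h⟩ := hcl g x hx
    have hm' : X.m (X.a x') = 1 := by
      rw [← X.m_class h, X.a_smul, X.m_rho, hm]
    rcases h with h | h
    · left
      rw [X.eq_of_m h hm']
      exact hx'
    · right
      have h1 : X.a (c • g • x) = X.a x' := by rw [X.a_conj, h, neg_neg]
      rw [X.eq_of_m h1 hm']
      exact hx'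
  · have hm2 : X.m (X.a x) = 2 := by
      have := X.m_pos x
      have := hle x hx
      omega
    have hf : Fixed (X.a x) := by
      intro h
      obtain ⟨x', hx', h1⟩ := hcl h x hx
      have hm' : X.m (X.a x') = 2 := by
        rw [← X.m_class h1, X.a_smul, X.m_rho, hm2]
      have := htwo x hx x' hx' (by omega) (by omega)
      subst this
      rw [X.a_smul] at h1
      exact h1
    have hh := hf.half (X.half_of_two hm2 (hf.dec (X := X) (hJ.n0 x hx) (by omega))
      (hf.one_ne (hJ.n0 x hx)))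
    rcases split_of_half hf hh g with h | h
    · left
      rw [h]
      exact hx
    · right
      rw [h]
      exact hx

/-- the case of three equal slopes -/
theorem IsFour.of_three {J : Finset X.S} (hJ : IsFour J) {x y z t : X.S} (hx : x ∈ J)
    (hy : y ∈ J) (hz : z ∈ J) (ht : t ∈ J) (hyx : y ≠ x) (hzx : z ≠ x) (hzy : z ≠ y)
    (hall : ∀ w ∈ J, w = x ∨ w = y ∨ w = z ∨ w = t)
    (hsum : ∀ k, X.a x k + X.a y k + X.a z k + X.a t k = 0)
    (hxy : X.a y = X.a x) (hxz : X.a z = X.a x) : X.RankTwo J := by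
  classical
  have hs : ∀ k, 3 * X.a x k + X.a t k = 0 := by
    intro k
    have := hsum k
    rw [hxy, hxz] at this
    linarith
  have hsub : ({x, y, z} : Finset X.S) ⊆ X.fib (X.a x) := by
    intro w hw
    simp only [Finset.mem_insert, Finset.mem_singleton] at hw
    rw [mem_fib]
    rcases hw with rfl | rfl | rfl
    · rfl
    · exact hxy
    · exact hxz
  have hc3 : ({x, y, z} : Finset X.S).card = 3 := by
    rw [Finset.card_insert_of_notMem, Finset.card_pair hzy.symm]
    simp only [Finset.mem_insert, Finset.mem_singleton, not_or]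
    exact ⟨hyx.symm, hzx.symm⟩
  have hm3 : 3 ≤ X.m (X.a x) := by
    rw [← hc3]
    exact Finset.card_le_card hsub
  obtain ⟨hm, hf, hw⟩ := X.three_one hJ.c10 hm3 (X.m_pos t) (hJ.n0 x hx) hs
  have hfib : X.fib (X.a x) = {x, y, z} :=
    (Finset.eq_of_subset_of_card_le hsub (by rw [hc3]; exact hm.le)).symm
  have hinJ : ∀ w, X.a w = X.a x → w ∈ J := by
    intro w hw
    have : w ∈ X.fib (X.a x) := X.mem_fib.2 hw
    rw [hfib] at this
    simp only [Finset.mem_insert, Finset.mem_singleton] at this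
    rcases this with rfl | rfl | rfl <;> assumption
  have hcase : ∀ w, X.a w = X.a x → ∀ g : G, g • w ∈ J ∨ c • g • w ∈ J := by
    intro w hw g
    rcases hf g with h | h
    · left
      apply hinJ
      rw [X.a_smul, hw, h]
    · right
      apply hinJ
      rw [X.a_conj, X.a_smul, hw, h, neg_neg]
  refine hJ.rankTwo fun g w hw' => ?_
  rcases hall w hw' with rfl | rfl | rfl | rfl
  · exact hcase _ rfl g
  · exact hcase _ hxy g
  · exact hcase _ hxz g
  · have hfw : Fixed (X.a w) := by
      have hw3 : X.a w = (-3 : ℚ) • X.a x := by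
        funext k
        rw [Pi.smul_apply, smul_eq_mul]
        linarith [hs k]
      intro h
      rcases hf h with h1 | h1
      · left
        rw [hw3, rho_smul, h1]
      · right
        rw [hw3, rho_smul, h1, smul_neg]
    rcases split_of_half hfw hw g with h | h
    · left
      rw [h]
      exact ht
    · right
      rw [h]
      exact ht

/-- a set of four nonzero slopes with sum zero, no two of them having sum zero, has rank two -/
theorem IsFour.all {J : Finset X.S} (hJ : IsFour J) : X.RankTwo J := by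
  classical
  by_cases hne : ∀ x ∈ J, ∀ y ∈ J, x ≠ y → X.a x ≠ X.a y
  · exact hJ.of_ne hne
  push Not at hne
  obtain ⟨x, hx, y, hy, hxy, he⟩ := hne
  have hyx : y ≠ x := hxy.symm
  have h1 : y ∈ J.erase x := Finset.mem_erase.2 ⟨hyx, hy⟩
  have h3 : ((J.erase x).erase y).card = 2 := by
    rw [Finset.card_erase_of_mem h1, Finset.card_erase_of_mem hx, hJ.card]
  obtain ⟨z, t, hzt, hJzt⟩ := Finset.card_eq_two.1 h3
  have hz : z ≠ y ∧ z ≠ x ∧ z ∈ J := by
    rw [← Finset.mem_erase, ← Finset.mem_erase, hJzt]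
    simp
  have ht : t ≠ y ∧ t ≠ x ∧ t ∈ J := by
    rw [← Finset.mem_erase, ← Finset.mem_erase, hJzt]
    simp
  have hall : ∀ w ∈ J, w = x ∨ w = y ∨ w = z ∨ w = t := by
    intro w hw
    by_contra hcon
    push Not at hcon
    have : w ∈ (J.erase x).erase y := by
      rw [Finset.mem_erase, Finset.mem_erase]
      exact ⟨hcon.2.1, hcon.1, hw⟩
    rw [hJzt, Finset.mem_insert, Finset.mem_singleton] at this
    rcases this with h | h
    · exact hcon.2.2.1 h
    · exact hcon.2.2.2 h
  have hsum : ∀ k, X.a x k + X.a y k + X.a z k + X.a t k = 0 := by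
    intro k
    have e1 := hJ.sum
    rw [← Finset.add_sum_erase _ _ hx, ← Finset.add_sum_erase _ _ h1, hJzt,
      Finset.sum_pair hzt] at e1
    have := congrFun e1 k
    simp only [Pi.add_apply, Pi.zero_apply] at this
    linarith
  by_cases hxz : X.a z = X.a x
  · exact hJ.of_three hx hy hz.2.2 ht.2.2 hyx hz.2.1 hz.1 hall hsum he.symm hxz
  by_cases hxt : X.a t = X.a x
  · exact hJ.of_three hx hy ht.2.2 hz.2.2 hyx ht.2.1 ht.1
      (fun w hw => by
        rcases hall w hw with h | h | h | h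
        · exact Or.inl h
        · exact Or.inr (Or.inl h)
        · exact Or.inr (Or.inr (Or.inr h))
        · exact Or.inr (Or.inr (Or.inl h)))
      (fun k => by have := hsum k; linarith) he.symm hxt
  exfalso
  have neg_of : ∀ {p q : X.S}, p ∈ J → q ∈ J → p ≠ q → X.a p ≠ -X.a q := by
    intro p q hp hq hpq h
    apply hJ.n2 p hp q hq hpq
    rw [h, neg_add_cancel]
  have hzt' : X.a z ≠ X.a t := by
    intro h
    apply neg_of hx hz.2.2 hz.2.1.symm
    funext k
    have := hsum k
    rw [← he, ← h] at this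
    rw [Pi.neg_apply]
    linarith
  refine X.no_two_one_one hJ.c10 (v := X.a x) (w := X.a z) (u := X.a t) ?_ (X.m_pos z)
    (X.m_pos t) (hJ.n0 x hx) (hJ.n0 z hz.2.2) (hJ.n0 t ht.2.2)
    ⟨fun h => hxz h.symm, neg_of hx hz.2.2 hz.2.1.symm⟩
    ⟨fun h => hxt h.symm, neg_of hx ht.2.2 ht.2.1.symm⟩
    ⟨hzt', neg_of hz.2.2 ht.2.2 hzt⟩ (fun k => by
      have := hsum k
      rw [← he] at this
      linarith)
  have h2 : ({x, y} : Finset X.S) ⊆ X.fib (X.a x) := by
    intro w hw
    rw [Finset.mem_insert, Finset.mem_singleton] at hw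
    rw [mem_fib]
    rcases hw with rfl | rfl
    · rfl
    · exact he.symm
  have h3 := Finset.card_le_card h2
  rw [Finset.card_pair hxy] at h3
  exact h3

/-- two elements with sum zero -/
theorem pairUnion_of_pair {J : Finset X.S} (hc4 : J.card = 4) (hsum : ∑ x ∈ J, X.a x = 0)
    {x y : X.S} (hx : x ∈ J) (hy : y ∈ J) (hxy : x ≠ y) (h : X.a x + X.a y = 0) :
    X.PairUnion J := by
  classical
  have h1 : y ∈ J.erase x := Finset.mem_erase.2 ⟨hxy.symm, hy⟩
  have h3 : ((J.erase x).erase y).card = 2 := by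
    rw [Finset.card_erase_of_mem h1, Finset.card_erase_of_mem hx, hc4]
  obtain ⟨z, t, hzt, hJzt⟩ := Finset.card_eq_two.1 h3
  have hz : z ≠ y ∧ z ≠ x ∧ z ∈ J := by
    rw [← Finset.mem_erase, ← Finset.mem_erase, hJzt]
    simp
  have ht : t ≠ y ∧ t ≠ x ∧ t ∈ J := by
    rw [← Finset.mem_erase, ← Finset.mem_erase, hJzt]
    simp
  have hall : ∀ w ∈ J, w = x ∨ w = y ∨ w = z ∨ w = t := by
    intro w hw
    by_contra hcon
    push Not at hcon
    have : w ∈ (J.erase x).erase y := by
      rw [Finset.mem_erase, Finset.mem_erase]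
      exact ⟨hcon.2.1, hcon.1, hw⟩
    rw [hJzt, Finset.mem_insert, Finset.mem_singleton] at this
    rcases this with h | h
    · exact hcon.2.2.1 h
    · exact hcon.2.2.2 h
  have h' : X.a z + X.a t = 0 := by
    have e1 := hsum
    rw [← Finset.add_sum_erase _ _ hx, ← Finset.add_sum_erase _ _ h1, hJzt,
      Finset.sum_pair hzt, ← add_assoc, h, zero_add] at e1
    exact e1
  have conv : ∀ {p q : X.S}, X.a p + X.a q = 0 → ∀ g : G, X.s (g • p) + X.s (g • q) = 1 := by
    intro p q h g
    have := congrFun h g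
    rw [Pi.add_apply, Pi.zero_apply, a_apply, a_apply] at this
    linarith
  refine ⟨fun w => if w = x then y else if w = y then x else if w = z then t else z, ?_⟩
  intro w hw
  have hyx := hxy.symm
  have htz := hzt.symm
  have e1 := hz.1.symm
  have e2 := hz.2.1.symm
  have e3 := ht.1.symm
  have e4 := ht.2.1.symm
  rcases hall w hw with rfl | rfl | rfl | rfl
  · simp only [if_true, hyx, if_false]
    exact ⟨hy, hyx, trivial, conv h⟩
  · simp only [hyx, if_true, if_false]
    exact ⟨hx, hxy, trivial, conv (by rw [add_comm]; exact h)⟩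
  · simp only [hz.2.1, hz.1, ht.2.1, ht.1, htz, if_true, if_false]
    exact ⟨ht.2.2, htz, trivial, conv h'⟩
  · simp only [hz.2.1, hz.1, ht.2.1, ht.1, htz, if_true, if_false]
    exact ⟨hz.2.2, hzt, trivial, conv (by rw [add_comm]; exact h')⟩

/-- classification in codimension two -/
theorem classify (hc : Fintype.card X.S ≤ 10) {J : Finset X.S} (hJ : X.Tate 2 J) :
    X.PairUnion J ∨ (X.Free J ∧ X.RankTwo J) ∨
      (X.Free J ∧ ∃ x₀ ∈ J, X.a x₀ = 0 ∧ IsTrip (J.erase x₀)) := by
  classical
  have hc4 : J.card = 4 := hJ.1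
  have hsum : ∑ x ∈ J, X.a x = 0 := by
    funext g
    rw [Finset.sum_apply, Pi.zero_apply]
    simp only [a_apply]
    rw [Finset.sum_sub_distrib, hJ.2 g, Finset.sum_const, hc4, nsmul_eq_mul]
    push_cast
    norm_num
  by_cases hp : ∃ x ∈ J, ∃ y ∈ J, x ≠ y ∧ X.a x + X.a y = 0
  · obtain ⟨x, hx, y, hy, hxy, h⟩ := hp
    exact Or.inl (pairUnion_of_pair hc4 hsum hx hy hxy h)
  push Not at hp
  right
  by_cases hz : ∃ x ∈ J, X.a x = 0
  · obtain ⟨x₀, hx₀, h0⟩ := hz
    right
    refine ⟨free_of hp, x₀, hx₀, h0, hc, ?_, ?_, ?_, ⟨x₀, h0⟩⟩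
    · rw [Finset.card_erase_of_mem hx₀, hc4]
    · intro x hx hx0
      rw [Finset.mem_erase] at hx
      apply hp x hx.2 x₀ hx₀ hx.1
      rw [hx0, h0, add_zero]
    · have := Finset.add_sum_erase _ X.a hx₀
      rw [hsum, h0, zero_add] at this
      exact this
  · push Not at hz
    left
    exact ⟨free_of hp, (IsFour.mk hc hc4 hz hp hsum).all⟩

/-- if the stabiliser acts trivially on the supersingular elements then the set has rank two -/
theorem rankTwo_of_trip (hne : ¬ Exceptional X.slopes) {J : Finset X.S} {x₀ : X.S}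
    (hx₀ : x₀ ∈ J) (hJ : IsTrip (J.erase x₀))
    (hst : ∀ g ∈ stab ((J.erase x₀).image X.a), g • x₀ = x₀) : X.RankTwo J := by
  classical
  have hm := hJ.m_one hne
  have key : ∀ g ∈ stab ((J.erase x₀).image X.a), X.tr g J = J := by
    intro g hg
    refine Finset.eq_of_subset_of_card_le ?_ ?_
    · intro w hw
      rw [tr, Finset.mem_image] at hw
      obtain ⟨x, hx, rfl⟩ := hw
      by_cases hxx : x = x₀
      · rw [hxx, hst g hg]
        exact hx₀
      · have h1 : rho g (X.a x) ∈ (J.erase x₀).image X.a := by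
          rw [mem_stab] at hg
          rw [← hg]
          exact Finset.mem_image_of_mem _ (Finset.mem_image_of_mem _
            (Finset.mem_erase.2 ⟨hxx, hx⟩))
        rw [Finset.mem_image] at h1
        obtain ⟨x', hx', h2⟩ := h1
        have h3 : g • x = x' := X.eq_of_m (by rw [X.a_smul, h2]) (hm x' hx')
        rw [h3]
        exact (Finset.mem_erase.1 hx').2
    · rw [tr, Finset.card_image_of_injective _ fun x y h => X.smul_inj h]
  intro g
  rcases hJ.stab_or hne g with h | h
  · exact Or.inl (key g h)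
  · right
    have h1 := key _ h
    have h2 : X.tr (c * g) J = X.tr c (X.tr g J) := by
      rw [tr, tr, tr, Finset.image_image]
      refine Finset.image_congr fun x _ => ?_
      exact mul_smul c g x
    rw [h2] at h1
    have h3 : X.tr c (X.tr c (X.tr g J)) = X.tr g J := by
      rw [tr, tr, Finset.image_image]
      have : ((fun x : X.S => c • x) ∘ fun x => c • x) = id := funext X.conj_conj
      rw [this, Finset.image_id]
    rw [← h3, h1]

end CMDatum

end Pc0b458F
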