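import Pool.Agent.Lib.Pc0b458F.Class2

/-!
# The classification in codimension two, without any assumption on the supersingular part
-/

namespace Pc0b458F

namespace CMDatum

variable {G : Type} [Group G] {D : Subgroup G} {c : G}

/-- Every set of Tate type of codimension two (i.e. every `J` with four elements such that the
slopes of all its conjugates have sum `2`) is a union of two pairs of Tate type, or it contains
no pair of conjugate elements and its orbit consists of `J` and its complex conjugate, or it
consists of a supersingular element and of a set of three elements with the latter property which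
is not fixed by the decomposition group. -/
def Classified (X : CMDatum G D c) : Prop :=
  ∀ J : Finset X.S, X.Tate 2 J → X.PairUnion J ∨ (X.Free J ∧ X.RankTwo J) ∨
    (X.Free J ∧ ∃ x₀ ∈ J, (∀ g : G, X.s (g • x₀) = 1 / 2) ∧ X.RankTwo (J.erase x₀) ∧
      ∃ d ∈ D, X.tr d (J.erase x₀) ≠ J.erase x₀)

variable [Fintype G] {X : CMDatum G D c}

theorem IsTrip.tr_eq {J : Finset X.S} (hJ : IsTrip J) (hne : ¬ Exceptional X.slopes) {g : G}
    (hg : g ∈ stab (J.image X.a)) : X.tr g J = J := by
  classical
  refine Finset.eq_of_subset_of_card_le ?_ ?_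
  · intro w hw
    rw [tr, Finset.mem_image] at hw
    obtain ⟨x, hx, rfl⟩ := hw
    have h1 : rho g (X.a x) ∈ J.image X.a := by
      rw [mem_stab] at hg
      rw [← hg]
      exact Finset.mem_image_of_mem _ (Finset.mem_image_of_mem _ hx)
    rw [Finset.mem_image] at h1
    obtain ⟨x', hx', h2⟩ := h1
    have h3 : g • x = x' := X.eq_of_m (by rw [X.a_smul, h2]) (hJ.m_one hne x' hx')
    rw [h3]
    exact hx'
  · rw [tr, Finset.card_image_of_injective _ fun x y h => X.smul_inj h]

theorem IsTrip.rankTwo {J : Finset X.S} (hJ : IsTrip J) (hne : ¬ Exceptional X.slopes) :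
    X.RankTwo J := by
  classical
  intro g
  rcases hJ.stab_or hne g with h | h
  · exact Or.inl (hJ.tr_eq hne h)
  · right
    have h1 := hJ.tr_eq hne h
    have h2 : X.tr (c * g) J = X.tr c (X.tr g J) := by
      rw [tr, tr, tr, Finset.image_image]
      refine Finset.image_congr fun x _ => ?_
      exact mul_smul c g x
    rw [h2] at h1
    have h3 : X.tr c (X.tr c (X.tr g J)) = X.tr g J := by
      rw [tr, tr, Finset.image_image]
      have : ((fun x : X.S => c • x) ∘ fun x => c • x) = id := funext X.conj_conj
      rw [this, Finset.image_id]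
    rw [← h3, h1]

theorem classified (hc : Fintype.card X.S ≤ 10) (hne : ¬ Exceptional X.slopes) :
    X.Classified := by
  classical
  intro J hJ
  rcases classify hc hJ with h | h | ⟨hfree, x₀, hx₀, h0, htrip⟩
  · exact Or.inl h
  · exact Or.inr (Or.inl h)
  · right; right
    refine ⟨hfree, x₀, hx₀, fun g => ?_, htrip.rankTwo hne, ?_⟩
    · have := congrFun h0 g
      rw [a_apply, Pi.zero_apply] at this
      linarith
    · obtain ⟨d, hd, x, hx, h1⟩ := htrip.dec hne
      refine ⟨d, hd, fun h2 => ?_⟩
      have h3 : d • x ∈ J.erase x₀ := by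
        rw [← h2]
        exact Finset.mem_image_of_mem _ hx
      exact h1 _ h3 rfl

end CMDatum

end Pc0b458F
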