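import Pool.Agent.Lib.Pc0b458F.Vec

/-!
# CM data and their slopes
-/

namespace Pc0b458F

/-- `G` is the Galois group of a finite Galois CM extension `K` of the rationals, `D` the
decomposition group of a place `v` of `K` above the prime number `p`, and `c` is complex
conjugation. A `CMDatum` describes an abelian variety over the algebraic closure of the field
with `p` elements together with a CM algebra `E` of degree twice the dimension, embedded in its
endomorphism algebra: `S` is the set of homomorphisms from `E` to `K`, and `s x` is the slope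
`v (x π) / v q` of the Frobenius element `π` in `E` at `x` (for a model over a field with `q`
elements). -/
structure CMDatum (G : Type) [Group G] (D : Subgroup G) (c : G) where
  /-- the set of homomorphisms from `E` to `K` -/
  S : Type
  [fintypeS : Fintype S]
  [decS : DecidableEq S]
  [actS : MulAction G S]
  /-- the slopes -/
  s : S → ℚ
  s_nonneg : ∀ x : S, 0 ≤ s x
  s_dec : ∀ d ∈ D, ∀ x : S, s (d • x) = s x
  s_conj : ∀ x : S, s (c • x) = 1 - s x
  conj_ne : ∀ x : S, c • x ≠ x
  conj_conj : ∀ x : S, c • c • x = x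
  conj_comm : ∀ (g : G) (x : S), c • g • x = g • c • x
  /-- for every set of places of `E` above `p`, the dimension of the corresponding part of the
  `p`-divisible group is an integer -/
  integral : ∀ T : Finset S, (∀ d ∈ D, ∀ x ∈ T, d • x ∈ T) → ∃ m : ℤ, ∑ x ∈ T, s x = m
  /-- if all slopes of a simple factor are `0` or `1` then its endomorphism algebra is the field
  generated by the Frobenius element -/
  split : ∀ x : S, (∀ g : G, s (g • x) = 0 ∨ s (g • x) = 1) → ∀ g : G,
    (∀ h : G, s (h • g • x) = s (h • x)) → g • x = x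

attribute [instance] CMDatum.fintypeS CMDatum.decS CMDatum.actS

namespace CMDatum

variable {G : Type} [Group G] {D : Subgroup G} {c : G} (X : CMDatum G D c)

/-- all conjugates of the slope at `x` -/
def fn (x : X.S) : G → ℚ := fun g => X.s (g • x)

/-- the family of the slopes -/
def slopes : Multiset (G → ℚ) := Finset.univ.val.map X.fn

/-- `L_J` is of Tate type: the products over `x ∈ J` of all conjugates of the Frobenius
eigenvalues have slope `n`, where `J` has `2 n` elements -/
def Tate (n : ℕ) (J : Finset X.S) : Prop :=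
  J.card = 2 * n ∧ ∀ g : G, ∑ x ∈ J, X.s (g • x) = n

/-- `J` is a disjoint union of pairs `x, y` such that `L_x ⊗ L_y` is of Tate type -/
def PairUnion (J : Finset X.S) : Prop :=
  ∃ τ : X.S → X.S, ∀ x ∈ J, τ x ∈ J ∧ τ x ≠ x ∧ τ (τ x) = x ∧
    ∀ g : G, X.s (g • x) + X.s (g • τ x) = 1

/-- `J` does not contain any pair of conjugate elements -/
def Free (J : Finset X.S) : Prop := ∀ x ∈ J, c • x ∉ J

/-- the translate of a set by `g` -/
def tr (g : G) (J : Finset X.S) : Finset X.S := J.image fun x => g • x

/-- the orbit of `J` consists of `J` and its complex conjugate -/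
def RankTwo (J : Finset X.S) : Prop := ∀ g : G, X.tr g J = J ∨ X.tr g J = X.tr c J

/-- the slopes, centred at zero -/
def a (x : X.S) : G → ℚ := fun g => X.s (g • x) - 1 / 2

theorem a_apply (x : X.S) (g : G) : X.a x g = X.s (g • x) - 1 / 2 := rfl

theorem a_smul (g : G) (x : X.S) : X.a (g • x) = rho g (X.a x) := by
  funext h
  rw [rho_apply, a_apply, a_apply, mul_smul]

theorem a_conj (x : X.S) : X.a (c • x) = -X.a x := by
  funext h
  rw [a_apply, Pi.neg_apply, a_apply, ← X.conj_comm, X.s_conj]
  ring

theorem s_le_one (x : X.S) : X.s x ≤ 1 := by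
  have h := X.s_nonneg (c • x)
  rw [X.s_conj] at h
  linarith

theorem a_abs (x : X.S) (g : G) : |X.a x g| ≤ 1 / 2 := by
  rw [a_apply, abs_le]
  have h1 := X.s_nonneg (g • x)
  have h2 := X.s_le_one (g • x)
  constructor <;> linarith

theorem a_dec (x : X.S) {d : G} (hd : d ∈ D) (g : G) : X.a x (d * g) = X.a x g := by
  rw [a_apply, a_apply, mul_smul, X.s_dec d hd]

theorem smul_inj {g : G} {x y : X.S} (h : g • x = g • y) : x = y := by
  have := congrArg (fun z => g⁻¹ • z) h
  simpa using this

open Classical in
/-- the elements with given slopes -/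
noncomputable def fib (v : G → ℚ) : Finset X.S := Finset.univ.filter fun x => X.a x = v

theorem mem_fib {v : G → ℚ} {x : X.S} : x ∈ X.fib v ↔ X.a x = v := by
  classical
  simp [fib]

/-- the multiplicity -/
noncomputable def m (v : G → ℚ) : ℕ := (X.fib v).card

theorem m_pos (x : X.S) : 1 ≤ X.m (X.a x) :=
  Finset.card_pos.2 ⟨x, X.mem_fib.2 rfl⟩

theorem exists_of_m {v : G → ℚ} (h : X.m v ≠ 0) : ∃ x, X.a x = v := by
  obtain ⟨x, hx⟩ := Finset.card_pos.1 (Nat.pos_of_ne_zero h)
  exact ⟨x, X.mem_fib.1 hx⟩

theorem m_rho (g : G) (v : G → ℚ) : X.m (rho g v) = X.m v := by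
  symm
  refine Finset.card_bij (fun x _ => g • x) ?_ ?_ ?_
  · intro x hx
    rw [mem_fib] at hx ⊢
    rw [a_smul, hx]
  · intro x _ y _ h
    exact X.smul_inj h
  · intro y hy
    refine ⟨g⁻¹ • y, ?_, by simp⟩
    rw [mem_fib] at hy ⊢
    rw [a_smul, hy, rho_inv]

theorem m_neg (v : G → ℚ) : X.m (-v) = X.m v := by
  symm
  refine Finset.card_bij (fun x _ => c • x) ?_ ?_ ?_
  · intro x hx
    rw [mem_fib] at hx ⊢
    rw [a_conj, hx]
  · intro x _ y _ h
    exact X.smul_inj h
  · intro y hy
    refine ⟨c • y, ?_, X.conj_conj y⟩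
    rw [mem_fib] at hy ⊢
    rw [a_conj, hy, neg_neg]

theorem m_class {v w : G → ℚ} (h : v = w ∨ v = -w) : X.m v = X.m w := by
  rcases h with h | h
  · rw [h]
  · rw [h, m_neg]

/-- two elements with the same slopes of multiplicity one are equal -/
theorem eq_of_m {x y : X.S} (h : X.a x = X.a y) (hm : X.m (X.a y) = 1) : x = y := by
  obtain ⟨z, hz⟩ := Finset.card_eq_one.1 hm
  have h1 : x ∈ X.fib (X.a y) := X.mem_fib.2 h
  have h2 : y ∈ X.fib (X.a y) := X.mem_fib.2 rfl
  rw [hz, Finset.mem_singleton] at h1 h2
  rw [h1, h2]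

theorem sum_m (l : List (G → ℚ)) (hl : l.Nodup) : (l.map X.m).sum ≤ Fintype.card X.S := by
  classical
  have h1 : (l.map X.m).sum = ∑ v ∈ l.toFinset, X.m v := by
    rw [List.sum_toFinset _ hl]
  rw [h1]
  have h2 : ∑ v ∈ l.toFinset, X.m v = (l.toFinset.biUnion X.fib).card := by
    rw [Finset.card_biUnion]
    · rfl
    · intro v _ w _ hvw
      rw [Function.onFun, Finset.disjoint_left]
      intro x hx hx'
      rw [mem_fib] at hx hx'
      exact hvw (hx.symm.trans hx')
  rw [h2]
  exact Finset.card_le_univ _

theorem zero_two {x : X.S} (h : X.a x = 0) : 2 ≤ X.m 0 := by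
  have h2 : ({x, c • x} : Finset X.S) ⊆ X.fib 0 := by
    intro y hy
    rw [Finset.mem_insert, Finset.mem_singleton] at hy
    rw [mem_fib]
    rcases hy with rfl | rfl
    · exact h
    · rw [a_conj, h, neg_zero]
  have h3 := Finset.card_le_card h2
  rw [Finset.card_pair (X.conj_ne x).symm] at h3
  exact h3

instance : Std.Symm (NE (G := G)) := ⟨fun _ _ h => h.symm⟩

/-- the multiplicities of vectors which are different up to sign -/
theorem half (l : List (G → ℚ)) (hl : l.Pairwise NE) (h0 : ∀ v ∈ l, v ≠ 0) :
    2 * (l.map X.m).sum + X.m 0 ≤ Fintype.card X.S := by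
  have hneg : ∀ v ∈ l, v ≠ -v := by
    intro v hv h
    apply h0 v hv
    funext g
    have := congrFun h g
    rw [Pi.neg_apply] at this
    rw [Pi.zero_apply]
    linarith
  have hN : (0 :: (l ++ l.map fun v => -v)).Nodup := by
    rw [List.nodup_cons]
    constructor
    · rw [List.mem_append, List.mem_map]
      rintro (h | ⟨v, hv, hv0⟩)
      · exact h0 0 h rfl
      · exact h0 v hv (neg_eq_zero.1 hv0)
    · rw [List.nodup_append]
      refine ⟨hl.imp fun h => h.1, ?_, ?_⟩
      · exact List.Nodup.map neg_injective (hl.imp fun h => h.1)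
      · intro v hv w hw e
        rw [List.mem_map] at hw
        obtain ⟨u, hu, rfl⟩ := hw
        by_cases h : v = u
        · rw [h] at e
          exact hneg u hu e
        · exact (hl.forall hv hu h).2 e
  have h1 := X.sum_m _ hN
  rw [List.map_cons, List.sum_cons, List.map_append, List.sum_append, List.map_map] at h1
  have h2 : (X.m ∘ fun v => -v) = X.m := by
    funext v
    exact X.m_neg v
  rw [h2] at h1
  omega

end CMDatum

end Pc0b458F
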