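import Pool.Agent.Lib.Pc0b458F.Theory

/-!
# The Hodge standard conjecture in dimension at most five
-/

universe u

namespace Pc0b458F

open Pc0b458

namespace CMDatum

variable {G : Type} [Group G] [Fintype G] {D : Subgroup G} {c : G} {X X' : CMDatum G D c}

theorem m_eq_count (v : G → ℚ) :
    X.m v = X.slopes.count fun g => 1 / 2 + v g := by
  have e : X.m v = (Finset.univ.filter fun x => X.a x = v).card := by
    unfold m
    congr 1
    ext x
    simp [mem_fib]
  rw [slopes, Multiset.count_map, e, Finset.card_def, Finset.filter_val]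
  congr 1
  refine Multiset.filter_congr fun x _ => ?_
  rw [fn_eq]
  constructor
  · rintro rfl
    rfl
  · intro h
    funext g
    have := congrFun h g
    linarith

theorem m_congr (h : X.slopes = X'.slopes) (v : G → ℚ) : X.m v = X'.m v := by
  rw [m_eq_count, m_eq_count, h]

/-- transport of a set of three slopes -/
theorem IsTrip.transport (h : X.slopes = X'.slopes) (hc : Fintype.card X'.S ≤ 10)
    {K : Finset X.S} (hK : IsTrip K) :
    ∃ K' : Finset X'.S, IsTrip K' ∧ K'.image X'.a = K.image X.a := by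
  classical
  have hm : ∀ v ∈ K.image X.a, ∃ x : X'.S, X'.a x = v := by
    intro v hv
    rw [Finset.mem_image] at hv
    obtain ⟨x, hx, rfl⟩ := hv
    apply X'.exists_of_m
    rw [← m_congr h]
    have := X.m_pos x
    omega
  have hne : Nonempty X'.S := by
    obtain ⟨x, -⟩ := X'.exists_of_m (v := 0) (by
      rw [← m_congr h]
      have := hK.z2
      omega)
    exact ⟨x⟩
  choose! f hf using hm
  have hinj : Set.InjOn f (K.image X.a) := by
    intro v hv w hw e
    rw [Finset.mem_coe] at hv hw
    rw [← hf v hv, ← hf w hw, e]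
  have hinjK : Set.InjOn X.a K := fun x hx y hy h => by
    by_contra hxy
    exact (hK.ne hx hy hxy).1 h
  have himg : ((K.image X.a).image f).image X'.a = K.image X.a := by
    rw [Finset.image_image]
    have : (K.image X.a).image (X'.a ∘ f) = (K.image X.a).image id :=
      Finset.image_congr fun v hv => hf v hv
    rw [this, Finset.image_id]
  refine ⟨(K.image X.a).image f, ⟨hc, ?_, ?_, ?_, ?_⟩, himg⟩
  · rw [Finset.card_image_of_injOn hinj, Finset.card_image_of_injOn hinjK, hK.card]
  · intro x hx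
    rw [Finset.mem_image] at hx
    obtain ⟨v, hv, rfl⟩ := hx
    rw [hf v hv]
    rw [Finset.mem_image] at hv
    obtain ⟨x, hx, rfl⟩ := hv
    exact hK.n0 x hx
  · rw [Finset.sum_image hinj]
    rw [Finset.sum_congr rfl fun v hv => hf v hv, Finset.sum_image hinjK, hK.sum]
  · apply X'.exists_of_m
    rw [← m_congr h]
    have := hK.z2
    omega

theorem pairUnion_zero {J : Finset X.S} (hJ : J.card = 0) : X.PairUnion J := by
  rw [Finset.card_eq_zero] at hJ
  rw [hJ]
  exact ⟨id, fun x hx => absurd hx (Finset.notMem_empty x)⟩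

theorem pairUnion_two {J : Finset X.S} (hJ : X.Tate 1 J) : X.PairUnion J := by
  classical
  obtain ⟨x, y, hxy, hJxy⟩ := Finset.card_eq_two.1 hJ.1
  have h := hJ.2
  rw [hJxy] at h ⊢
  simp only [Finset.sum_pair hxy] at h
  push_cast at h
  refine ⟨fun w => if w = x then y else x, ?_⟩
  intro w hw
  rw [Finset.mem_insert, Finset.mem_singleton] at hw
  rcases hw with rfl | rfl
  · simp only [if_true, hxy.symm, if_false]
    exact ⟨by simp, hxy.symm, trivial, h⟩
  · simp only [hxy.symm, if_true, if_false]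
    exact ⟨by simp, hxy, trivial, fun g => by rw [add_comm]; exact h g⟩

end CMDatum

open CMDatum

/-- Q1 for the abelian variety `A`, in all codimensions and for all polarisations -/
def Q1 (T : NumTheory.{u}) (A : T.AV) : Prop :=
  ∀ L ∈ T.Pol A, ∀ n, 2 * n ≤ T.dim A → HSC T.toCycleRings A L n

theorem FpTheory.q1 (T : FpTheory.{u}) (A : T.AV) (hA : T.dim A ≤ 5)
    (hne : ¬ Exceptional (T.sl A)) : Q1 T.toNumTheory A := by
  classical
  -- a CM datum for which all classes are good
  obtain ⟨X, L, hsl, hcard, hL, hdc, hgood⟩ : ∃ (X : CMDatum (T.Gal A) (T.dec A) (T.conj A))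
      (L : T.Z A), X.slopes = T.sl A ∧ Fintype.card X.S = 2 * T.dim A ∧ L ∈ T.Pol A ∧
      (∀ n, 2 * n ≤ T.dim A → Nonempty (Decomp T.toNumTheory A X L n)) ∧
      ∀ J, X.Tate 2 J → X.PairUnion J ∨ (X.Free J ∧ X.RankTwo J) := by
    obtain ⟨H₀, hH₀⟩ := T.nonsplit A
    obtain ⟨X₀, L₀, hsl₀, hcard₀, hss₀, hL₀, hdc₀⟩ := T.cm A H₀ hH₀
    have hne₀ : ¬ Exceptional X₀.slopes := by rw [hsl₀]; exact hne
    by_cases hK : ∃ K : Finset X₀.S, IsTrip K
    · obtain ⟨K, hK⟩ := hK
      obtain ⟨X, L, hsl, hcard, hss, hL, hdc⟩ := T.cm A (stab (K.image X₀.a))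
        (hK.stab_index hne₀)
      have hne' : ¬ Exceptional X.slopes := by rw [hsl]; exact hne
      refine ⟨X, L, hsl, hcard, hL, hdc, fun J hJ => ?_⟩
      have hc : Fintype.card X.S ≤ 10 := by omega
      rcases classify hc hJ with h | h | ⟨hfree, x₀, hx₀, h0, htrip⟩
      · exact Or.inl h
      · exact Or.inr h
      · right
        refine ⟨hfree, rankTwo_of_trip hne' hx₀ htrip fun g hg => ?_⟩
        obtain ⟨K', hK', hK'i⟩ := hK.transport (hsl₀.trans hsl.symm) hc
        have hst : stab ((J.erase x₀).image X.a) = stab (K.image X₀.a) := by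
          rw [← hK'i]
          rcases hK'.signs htrip hne' with h | h
          · rw [h]
          · rw [h, stab_neg]
        rw [hst] at hg
        refine hss x₀ (fun k => ?_) g hg
        have := congrFun h0 k
        rw [a_apply, Pi.zero_apply] at this
        linarith
    · refine ⟨X₀, L₀, hsl₀, hcard₀, hL₀, hdc₀, fun J hJ => ?_⟩
      have hc : Fintype.card X₀.S ≤ 10 := by omega
      rcases classify hc hJ with h | h | ⟨_, x₀, _, _, htrip⟩
      · exact Or.inl h
      · exact Or.inr h
      · exact absurd ⟨_, htrip⟩ hK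
  intro L' hL' n hn
  obtain ⟨dc⟩ := hdc n hn
  refine NumTheory.indep A hL hL' hn (hsc_of_decomp hL hn dc fun J hJ => ?_)
  have hn2 : n = 0 ∨ n = 1 ∨ n = 2 := by omega
  rcases hn2 with rfl | rfl | rfl
  · exact Or.inl (pairUnion_zero hJ.1)
  · exact Or.inl (pairUnion_two hJ)
  · exact hgood J hJ

end Pc0b458F
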