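import Pool.Agent.Lib.Pc0b458F.Sets

/-!
# Sets of four different slopes with sum zero
-/

namespace Pc0b458F

namespace CMDatum

variable {G : Type} [Group G] {D : Subgroup G} {c : G} (X : CMDatum G D c)

theorem v4_dec {w w' : G → ℚ} (hm : X.m w ≠ 0) (hm' : X.m w' ≠ 0) (w0 : w ≠ 0) (w0' : w' ≠ 0)
    (h1 : ∀ h, (rho h w = w ∨ rho h w = -w) ∨ (rho h w = w' ∨ rho h w = -w'))
    (h2 : ∀ h, (rho h w' = w ∨ rho h w' = -w) ∨ (rho h w' = w' ∨ rho h w' = -w'))
    (h3 : ∀ h, rho h (w + w') = w + w' ∨ rho h (w + w') = -(w + w')) (ha : w 1 ≠ w' 1)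
    (hb : w 1 ≠ -w' 1) : ∀ d ∈ D, rho d w = w := by
  intro d hd
  have e1 := X.v_dec hm hd
  have e2 := X.v_dec hm' hd
  rcases h1 d with (h | h) | (h | h)
  · exact h
  · exfalso
    rw [h, Pi.neg_apply] at e1
    have e3 : w 1 = 0 := by linarith
    rcases h2 d with (h' | h') | (h' | h')
    · rw [h'] at e2
      exact ha e2
    · rw [h', Pi.neg_apply] at e2
      exact hb (by linarith)
    · rcases h3 d with h4 | h4
      · apply w0
        rw [rho_add, h, h'] at h4
        funext k
        have := congrFun h4 k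
        simp only [Pi.add_apply, Pi.neg_apply] at this
        rw [Pi.zero_apply]
        linarith
      · apply w0'
        rw [rho_add, h, h'] at h4
        funext k
        have := congrFun h4 k
        simp only [Pi.add_apply, Pi.neg_apply] at this
        rw [Pi.zero_apply]
        linarith
    · rw [h', Pi.neg_apply] at e2
      exact hb (by linarith)
  · exfalso
    rw [h] at e1
    exact ha e1.symm
  · exfalso
    rw [h, Pi.neg_apply] at e1
    exact hb e1.symm

theorem v4 {w w' : G → ℚ} (hm : X.m w = 1) (hm' : X.m w' = 1) (w0 : w ≠ 0) (w0' : w' ≠ 0)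
    (hww : NE w w')
    (h1 : ∀ h, (rho h w = w ∨ rho h w = -w) ∨ (rho h w = w' ∨ rho h w = -w'))
    (h2 : ∀ h, (rho h w' = w ∨ rho h w' = -w) ∨ (rho h w' = w' ∨ rho h w' = -w'))
    (h3 : ∀ h, rho h (w + w') = w + w' ∨ rho h (w + w') = -(w + w')) : False := by
  have v1 : ∀ k, (w k = w 1 ∨ w k = -w 1) ∨ (w k = w' 1 ∨ w k = -w' 1) := by
    intro k
    have e := rho_at_one k w
    rcases h1 k with (h | h) | (h | h) <;> rw [h] at e
    · exact Or.inl (Or.inl e.symm)
    · exact Or.inl (Or.inr e.symm)
    · exact Or.inr (Or.inl e.symm)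
    · exact Or.inr (Or.inr e.symm)
  have v2 : ∀ k, (w' k = w 1 ∨ w' k = -w 1) ∨ (w' k = w' 1 ∨ w' k = -w' 1) := by
    intro k
    have e := rho_at_one k w'
    rcases h2 k with (h | h) | (h | h) <;> rw [h] at e
    · exact Or.inl (Or.inl e.symm)
    · exact Or.inl (Or.inr e.symm)
    · exact Or.inr (Or.inl e.symm)
    · exact Or.inr (Or.inr e.symm)
  have v3 : ∀ k, w k + w' k = w 1 + w' 1 ∨ w k + w' k = -(w 1 + w' 1) := by
    intro k
    have e := rho_at_one k (w + w')
    rcases h3 k with h | h <;> rw [h] at e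
    · exact Or.inl e.symm
    · exact Or.inr e.symm
  have ha : w 1 ≠ w' 1 := by
    intro h
    apply hww.1
    funext k
    rcases v1 k with (e1 | e1) | (e1 | e1) <;> rcases v2 k with (e2 | e2) | (e2 | e2) <;>
      rcases v3 k with e3 | e3 <;> linarith
  have hb : w 1 ≠ -w' 1 := by
    intro h
    apply hww.2
    funext k
    rw [Pi.neg_apply]
    rcases v3 k with e3 | e3 <;> linarith
  have d1 := X.v4_dec (by omega) (by omega) w0 w0' h1 h2 h3 ha hb
  have d2 := X.v4_dec (w := w') (w' := w) (by omega) (by omega) w0' w0 (fun h => (h2 h).symm)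
    (fun h => (h1 h).symm) (fun h => by rw [add_comm w' w]; exact h3 h) ha.symm
    (fun h => hb (by linarith))
  rcases X.half_of_one hm d1 with e1 | e1 <;> rcases X.half_of_one hm' d2 with e2 | e2
  · exact ha (by rw [e1, e2])
  · exact hb (by rw [e1, e2]; norm_num)
  · exact hb (by rw [e1, e2])
  · exact ha (by rw [e1, e2])

section Quad

variable {X}

/-- a set of four different nonzero slopes with sum zero -/
structure IsQuad (J : Finset X.S) : Prop where
  card : J.card = 4
  ne : ∀ x ∈ J, ∀ y ∈ J, x ≠ y → NE (X.a x) (X.a y)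
  n0 : ∀ x ∈ J, X.a x ≠ 0
  sum : ∑ x ∈ J, X.a x = 0

/-- `y` is a further slope, which is conjugate to an element of `J` -/
structure IsOpen (J : Finset X.S) (y : X.S) : Prop extends IsQuad J where
  c10 : Fintype.card X.S ≤ 10
  ne' : ∀ x ∈ J, NE (X.a y) (X.a x)
  y0 : X.a y ≠ 0

theorem a_conj' (x : X.S) : X.a (c • x) = -X.a x := X.a_conj x

theorem IsQuad.free {J : Finset X.S} (hJ : IsQuad J) : ∀ x ∈ J, c • x ∉ J := by
  intro x hx hx'
  have h := hJ.ne x hx (c • x) hx' (X.conj_ne x).symm
  exact h.2 (by rw [a_conj', neg_neg])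

namespace IsOpen

variable {J : Finset X.S} {y : X.S} (hy : IsOpen J y)

include hy

theorem notMem : y ∉ J := fun h => (hy.ne' y h).1 rfl

theorem notMem' : c • y ∉ J := fun h => (hy.ne' _ h).2 (by rw [a_conj', neg_neg])

theorem five : (∀ x ∈ insert y J, X.m (X.a x) = 1) ∧ X.m 0 = 0 := by
  have h1 := X.halfF (insert y J) (by
    intro x hx x' hx' hne
    rw [Finset.mem_insert] at hx hx'
    rcases hx with rfl | hx <;> rcases hx' with rfl | hx'
    · exact absurd rfl hne
    · exact hy.ne' x' hx'
    · exact (hy.ne' x hx).symm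
    · exact hy.ne x hx x' hx' hne) (by
    intro x hx
    rw [Finset.mem_insert] at hx
    rcases hx with rfl | hx
    · exact hy.y0
    · exact hy.n0 x hx)
  have hc := hy.c10
  have h2 : (insert y J).card = 5 := by
    rw [Finset.card_insert_of_notMem hy.notMem, hy.card]
  have h3 : ∑ x ∈ insert y J, 1 ≤ ∑ x ∈ insert y J, X.m (X.a x) :=
    Finset.sum_le_sum fun x _ => X.m_pos x
  rw [Finset.sum_const, h2, smul_eq_mul, mul_one] at h3
  refine ⟨?_, by omega⟩
  have h4 : ∑ x ∈ insert y J, X.m (X.a x) = ∑ x ∈ insert y J, 1 := by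
    rw [Finset.sum_const, h2, smul_eq_mul, mul_one]
    omega
  intro x hx
  exact ((Finset.sum_eq_sum_iff_of_le fun x _ => X.m_pos x).1 h4.symm x hx).symm

theorem m_y : X.m (X.a y) = 1 := hy.five.1 y (Finset.mem_insert_self _ _)

theorem m_x {x : X.S} (hx : x ∈ J) : X.m (X.a x) = 1 :=
  hy.five.1 x (Finset.mem_insert_of_mem hx)

theorem cov (z : X.S) : (z = y ∨ z = c • y) ∨ (z ∈ J ∨ c • z ∈ J) := by
  classical
  have hz0 : X.a z ≠ 0 := by
    intro h
    have := X.zero_two h
    rw [hy.five.2] at this
    omega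
  by_contra hcon
  push Not at hcon
  have key : ∀ x ∈ insert y J, NE (X.a z) (X.a x) := by
    intro x hx
    by_contra h
    have hm := hy.five.1 x hx
    rcases not_NE h with h | h
    · have := X.eq_of_m h hm
      rw [Finset.mem_insert] at hx
      rcases hx with rfl | hx
      · exact hcon.1.1 this
      · exact hcon.2.1 (this ▸ hx)
    · have h' : X.a (c • z) = X.a x := by rw [a_conj', h, neg_neg]
      have := X.eq_of_m h' hm
      rw [Finset.mem_insert] at hx
      rcases hx with rfl | hx
      · apply hcon.1.2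
        rw [← this, X.conj_conj]
      · exact hcon.2.2 (this ▸ hx)
  have h1 := X.halfF (insert z (insert y J)) (by
    intro x hx x' hx' hne
    rw [Finset.mem_insert] at hx hx'
    rcases hx with rfl | hx <;> rcases hx' with rfl | hx'
    · exact absurd rfl hne
    · exact key x' hx'
    · exact (key x hx).symm
    · rw [Finset.mem_insert] at hx hx'
      rcases hx with rfl | hx <;> rcases hx' with rfl | hx'
      · exact absurd rfl hne
      · exact hy.ne' x' hx'
      · exact (hy.ne' x hx).symm
      · exact hy.ne x hx x' hx' hne) (by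
    intro x hx
    rw [Finset.mem_insert, Finset.mem_insert] at hx
    rcases hx with rfl | rfl | hx
    · exact hz0
    · exact hy.y0
    · exact hy.n0 x hx)
  have hc := hy.c10
  have hzy : z ∉ insert y J := by
    rw [Finset.mem_insert]
    rintro (h | h)
    · exact hcon.1.1 h
    · exact hcon.2.1 h
  have h2 : (insert z (insert y J)).card = 6 := by
    rw [Finset.card_insert_of_notMem hzy, Finset.card_insert_of_notMem hy.notMem, hy.card]
  have h3 : ∑ x ∈ insert z (insert y J), 1 ≤ ∑ x ∈ insert z (insert y J), X.m (X.a x) :=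
    Finset.sum_le_sum fun x _ => X.m_pos x
  rw [Finset.sum_const, h2, smul_eq_mul, mul_one] at h3
  omega

theorem step (h : G) (z : X.S) (hz : z ∈ J) (hzy : h • z = y ∨ h • z = c • y) :
    ∃ x ∈ J, (h⁻¹ • x = y ∨ h⁻¹ • x = c • y) ∧ ∃ u ∈ J, u ≠ x ∧
      ∃ δ : ℚ, (δ = 1 ∨ δ = -1) ∧ ∀ k, X.a y k = δ * (X.a x k + 2 * X.a u k) := by
  classical
  have hKfree : ∀ x ∈ J.image (fun x => h • x), c • x ∉ J.image (fun x => h • x) := by
    intro x hx hx'
    rw [Finset.mem_image] at hx hx'
    obtain ⟨x1, h1, rfl⟩ := hx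
    obtain ⟨x2, h2, h3⟩ := hx'
    rw [X.conj_comm] at h3
    have := X.smul_inj h3
    rw [this] at h2
    exact hy.toIsQuad.free x1 h1 h2
  have hKcard : (J.image (fun x => h • x)).card = J.card :=
    Finset.card_image_of_injective _ fun x x' hxx => X.smul_inj hxx
  have hKs : ∑ x ∈ J.image (fun x => h • x), X.a x = 0 := by
    rw [Finset.sum_image fun x _ x' _ hxx => X.smul_inj hxx]
    simp only [X.a_smul]
    rw [← rho_sum, hy.sum, rho_zero]
  have hyn := hy.notMem
  have hyn' := hy.notMem'
  have h1 : h • z ∉ J ∧ c • h • z ∉ J := by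
    rcases hzy with e | e <;> rw [e]
    · exact ⟨hyn, hyn'⟩
    · rw [X.conj_conj]
      exact ⟨hyn', hyn⟩
  have hzK : h • z ∈ J.image (fun x => h • x) := Finset.mem_image_of_mem _ hz
  obtain ⟨x, hxJ, hxK, hxK', T, hT, hTs⟩ := miss X.a (fun x => c • x) X.conj_conj X.a_conj J
    (J.image fun x => h • x) hy.toIsQuad.free hKfree hKcard hy.sum hKs (h • z) hzK h1.1 h1.2 (by
      intro z' hz' hne
      rcases hy.cov z' with h2 | h2
      · exfalso
        have h3 : z' = c • h • z := by
          rcases hzy with e | e <;> rcases h2 with e' | e'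
          · exact absurd (e'.trans e.symm) hne
          · rw [e', e]
          · rw [e, X.conj_conj, e']
          · exact absurd (e'.trans e.symm) hne
        rw [h3] at hz'
        exact hKfree _ hzK hz'
      · exact h2)
  refine ⟨x, hxJ, ?_, ?_⟩
  · rcases hy.cov (h⁻¹ • x) with h2 | h2 | h2
    · exact h2
    · exfalso
      apply hxK
      rw [Finset.mem_image]
      exact ⟨_, h2, by rw [smul_inv_smul]⟩
    · exfalso
      apply hxK'
      rw [Finset.mem_image]
      exact ⟨_, h2, by rw [← X.conj_comm, smul_inv_smul]⟩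
  · have hxs : X.a x + ∑ z ∈ J.erase x, X.a z = 0 := by
      rw [Finset.add_sum_erase _ _ hxJ, hy.sum]
    have hc3 : (J.erase x).card = 3 := by
      rw [Finset.card_erase_of_mem hxJ, hy.card]
    have hTc := Finset.card_le_card hT
    have hTd := Finset.card_sdiff_of_subset hT
    -- sign of `y`
    obtain ⟨ε, hε, hε'⟩ : ∃ ε : ℚ, (ε = 1 ∨ ε = -1) ∧ ∀ k, X.a y k = ε * X.a (h • z) k := by
      rcases hzy with e | e <;> rw [e]
      · exact ⟨1, Or.inl rfl, fun k => by ring⟩
      · refine ⟨-1, Or.inr rfl, fun k => ?_⟩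
        rw [a_conj', Pi.neg_apply]
        ring
    have hNE : NE (X.a y) (X.a x) := hy.ne' x hxJ
    have hcases : T.card = 0 ∨ T.card = 1 ∨ (J.erase x \ T).card = 1 ∨
        (J.erase x \ T).card = 0 := by omega
    have hsplit := Finset.sum_sdiff hT (f := X.a)
    rcases hcases with h2 | h2 | h2 | h2
    · exfalso
      rw [Finset.card_eq_zero] at h2
      rw [h2, Finset.sum_empty, smul_zero, add_zero] at hTs
      have e1 : ∀ k, X.a (h • z) k = -X.a x k := by
        intro k
        have := congrFun hTs k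
        simp only [Pi.add_apply, Pi.zero_apply] at this
        linarith
      rcases hε with rfl | rfl
      · apply hNE.2
        funext k
        rw [hε', e1, Pi.neg_apply]
        ring
      · apply hNE.1
        funext k
        rw [hε', e1]
        ring
    · obtain ⟨u, hu⟩ := Finset.card_eq_one.1 h2
      rw [hu, Finset.sum_singleton] at hTs
      have huJ : u ∈ J.erase x := hT (by rw [hu]; exact Finset.mem_singleton_self u)
      rw [Finset.mem_erase] at huJ
      refine ⟨u, huJ.2, huJ.1, -ε, ?_, fun k => ?_⟩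
      · rcases hε with rfl | rfl
        · exact Or.inr rfl
        · left
          norm_num
      · have := congrFun hTs k
        simp only [Pi.add_apply, Pi.zero_apply, Pi.smul_apply, smul_eq_mul] at this
        rw [hε']
        linear_combination ε * this
    · obtain ⟨u, hu⟩ := Finset.card_eq_one.1 h2
      rw [hu, Finset.sum_singleton] at hsplit
      have huJ : u ∈ J.erase x := by
        have : u ∈ J.erase x \ T := by rw [hu]; exact Finset.mem_singleton_self u
        exact (Finset.mem_sdiff.1 this).1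
      rw [Finset.mem_erase] at huJ
      refine ⟨u, huJ.2, huJ.1, ε, hε, fun k => ?_⟩
      have e1 := congrFun hTs k
      have e2 := congrFun hxs k
      have e3 := congrFun hsplit k
      simp only [Pi.add_apply, Pi.zero_apply, Pi.smul_apply, smul_eq_mul] at e1 e2 e3
      rw [hε']
      linear_combination ε * (e1 - 2 * e2 - 2 * e3)
    · exfalso
      rw [Finset.card_eq_zero] at h2
      rw [h2, Finset.sum_empty, zero_add] at hsplit
      have e1 : ∀ k, X.a (h • z) k = X.a x k := by
        intro k
        have e1 := congrFun hTs k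
        have e2 := congrFun hxs k
        have e3 := congrFun hsplit k
        simp only [Pi.add_apply, Pi.zero_apply, Pi.smul_apply, smul_eq_mul] at e1 e2 e3
        linear_combination e1 - 2 * e2 - 2 * e3
      rcases hε with rfl | rfl
      · apply hNE.1
        funext k
        rw [hε', e1]
        ring
      · apply hNE.2
        funext k
        rw [hε', e1, Pi.neg_apply]
        ring

end IsOpen

end Quad

end CMDatum

end Pc0b458F
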