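import Pool.Agent.Lib.Pc0b458F.Quad

/-!
# Sets of four different slopes with sum zero are closed
-/

namespace Pc0b458F

namespace CMDatum

variable {G : Type} [Group G] {D : Subgroup G} {c : G} {X : CMDatum G D c}

theorem IsQuad.other {J : Finset X.S} (hJ : IsQuad J) {p q e : X.S} (hp : p ∈ J) (hq : q ∈ J)
    (he : e ∈ J) (hqp : q ≠ p) (hep : e ≠ p) (heq : e ≠ q) :
    ∃ f ∈ J, f ≠ p ∧ f ≠ q ∧ f ≠ e ∧ (∀ x ∈ J, x = p ∨ x = q ∨ x = e ∨ x = f) ∧
      ∀ k, X.a p k + X.a q k + X.a e k + X.a f k = 0 := by
  classical
  have h1 : q ∈ J.erase p := Finset.mem_erase.2 ⟨hqp, hq⟩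
  have h2 : e ∈ (J.erase p).erase q := Finset.mem_erase.2 ⟨heq, Finset.mem_erase.2 ⟨hep, he⟩⟩
  have h3 : (((J.erase p).erase q).erase e).card = 1 := by
    rw [Finset.card_erase_of_mem h2, Finset.card_erase_of_mem h1, Finset.card_erase_of_mem hp,
      hJ.card]
  obtain ⟨f, hf⟩ := Finset.card_eq_one.1 h3
  have hfm : f ∈ ((J.erase p).erase q).erase e := by
    rw [hf]
    exact Finset.mem_singleton_self f
  simp only [Finset.mem_erase] at hfm
  refine ⟨f, hfm.2.2.2, hfm.2.2.1, hfm.2.1, hfm.1, ?_, ?_⟩
  · intro x hx
    by_contra hcon
    push Not at hcon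
    have : x ∈ ((J.erase p).erase q).erase e := by
      simp only [Finset.mem_erase]
      exact ⟨hcon.2.2.1, hcon.2.1, hcon.1, hx⟩
    rw [hf, Finset.mem_singleton] at this
    exact hcon.2.2.2 this
  · intro k
    have e1 := hJ.sum
    rw [← Finset.add_sum_erase _ _ hp, ← Finset.add_sum_erase _ _ h1,
      ← Finset.add_sum_erase _ _ h2, hf, Finset.sum_singleton] at e1
    have := congrFun e1 k
    simp only [Pi.add_apply, Pi.zero_apply] at this
    linarith

theorem IsOpen.false [Fintype G] {J : Finset X.S} {y : X.S} (hy : IsOpen J y) {z₀ : X.S}
    (hz₀ : z₀ ∈ J) (g₀ : G) (hg₀ : g₀ • z₀ = y) : False := by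
  obtain ⟨p, hp, hpy, q, hq, hqp, δ, hδ, hyk⟩ := hy.step g₀ z₀ hz₀ (Or.inl hg₀)
  set w := X.a p with hw
  set u := X.a q with hu
  set t := w + u with ht
  set W := t + u with hW
  have htk : ∀ k, t k = w k + u k := fun k => rfl
  have hWk : ∀ k, W k = t k + u k := fun k => rfl
  have hyW : X.a y = W ∨ X.a y = -W := by
    rcases hδ with rfl | rfl
    · left
      funext k
      rw [hyk, hWk, htk]
      ring
    · right
      funext k
      rw [hyk, Pi.neg_apply, hWk, htk]
      ring
  have hNy : N W = N w := by
    rw [← N_eq_of hyW, ← N_rho g₀⁻¹ w, hw, ← X.a_smul]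
    rcases hpy with h | h
    · rw [h]
    · rw [h, X.a_conj, N_neg]
  have hN1 : N W = N t + 2 * B t u + N u := by
    rw [N_of 1 1 t u (fun k => by rw [hWk]; ring)]
    ring
  have hN2 : N w = N t - 2 * B t u + N u := by
    rw [N_of 1 (-1) t u (fun k => by rw [htk]; ring)]
    ring
  have hB : B t u = 0 := by linarith
  have hpq : NE u w := hy.ne q hq p hp hqp
  have ht0 : t ≠ 0 := by
    intro h
    apply hpq.2
    funext k
    have := congrFun h k
    rw [htk, Pi.zero_apply] at this
    rw [Pi.neg_apply]
    linarith
  have hT := N_pos ht0
  have hU := N_pos (hy.n0 q hq)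
  rw [← hu] at hU
  have hNW : N W = N t + N u := by rw [hN1, hB]; ring
  have hNw : N w = N t + N u := by rw [hN2, hB]; ring
  have hcomb : ∀ α β : ℚ, ∀ v : G → ℚ, (∀ k, v k = α * t k + β * u k) →
      N v = α ^ 2 * N t + β ^ 2 * N u := by
    intro α β v hv
    rw [N_of α β t u hv, hB]
    ring
  have hmW : X.m W = 1 := by
    rw [← X.m_class hyW]
    exact hy.m_y
  -- conjugates of `y`
  have claim1 : ∀ h : G, (h • y = y ∨ h • y = c • y) ∨ (h • y = p ∨ h • y = c • p) := by
    intro h
    rcases hy.cov (h • y) with h1 | h1
    · exact Or.inl h1
    · right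
      obtain ⟨e, he, hye⟩ : ∃ e ∈ J, h • y = e ∨ h • y = c • e := by
        rcases h1 with h1 | h1
        · exact ⟨_, h1, Or.inl rfl⟩
        · exact ⟨_, h1, Or.inr (X.conj_conj _).symm⟩
      by_cases hep : e = p
      · rw [← hep]
        exact hye
      · exfalso
        have hNe : N (X.a e) = N t + N u := by
          rw [← hNW, ← N_eq_of hyW, ← N_rho h (X.a y), ← X.a_smul]
          rcases hye with h2 | h2
          · rw [h2]
          · rw [h2, X.a_conj, N_neg]
        by_cases heq : e = q
        · rw [heq, ← hu] at hNe
          linarith
        · obtain ⟨f, hf, hfp, hfq, hfe, hall, hsum⟩ := hy.toIsQuad.other hp hq he hqp hep heq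
          -- an element of `J` going to `y`
          obtain ⟨z, hz, hzy⟩ : ∃ z ∈ J, h • z = y ∨ h • z = c • y := by
            rcases hy.cov (h⁻¹ • y) with (h2 | h2) | h2
            · exfalso
              rw [inv_smul_eq_iff] at h2
              rcases hye with h3 | h3
              · rw [← h2] at h3
                exact hy.notMem (h3 ▸ he)
              · rw [← h2] at h3
                have : c • y = e := by rw [h3, X.conj_conj]
                exact hy.notMem' (this ▸ he)
            · exfalso
              rw [inv_smul_eq_iff, ← X.conj_comm] at h2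
              rcases hye with h3 | h3
              · rw [h3] at h2
                have : c • y = e := by rw [h2, X.conj_conj]
                exact hy.notMem' (this ▸ he)
              · rw [h3, X.conj_conj] at h2
                exact hy.notMem (h2 ▸ he)
            · rcases h2 with h2 | h2
              · exact ⟨_, h2, Or.inl (smul_inv_smul _ _)⟩
              · exact ⟨_, h2, Or.inr (by rw [← X.conj_comm, smul_inv_smul])⟩
          obtain ⟨x', hx', hxy', u', hu', hux', δ', hδ', hyk'⟩ := hy.step h z hz hzy
          have hx'e : x' = e := by
            rcases hxy' with h2 | h2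
            · rw [inv_smul_eq_iff] at h2
              rcases hye with h3 | h3
              · rw [h2, h3]
              · exfalso
                rw [h2, h3] at hx'
                exact hy.toIsQuad.free e he hx'
            · rw [inv_smul_eq_iff, ← X.conj_comm] at h2
              rcases hye with h3 | h3
              · exfalso
                rw [h2, h3] at hx'
                exact hy.toIsQuad.free e he hx'
              · rw [h2, h3, X.conj_conj]
          subst hx'e
          obtain ⟨ε, hε, hεk⟩ : ∃ ε : ℚ, (ε = 1 ∨ ε = -1) ∧
              ∀ k, X.a x' k + 2 * X.a u' k = ε * (t k + u k) := by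
            refine ⟨δ * δ', ?_, fun k => ?_⟩
            · rcases hδ with rfl | rfl <;> rcases hδ' with rfl | rfl <;> norm_num
            · have h2 := hyk k
              have h3 := hyk' k
              rw [h2] at h3
              have h4 : δ' * δ' = 1 := by rcases hδ' with rfl | rfl <;> norm_num
              rw [htk]
              linear_combination (-(X.a x' k + 2 * X.a u' k)) * h4 - δ' * h3
          have hNEp : NE (X.a x') w := hy.ne x' he p hp hep
          rcases hall u' hu' with h2 | h2 | h2 | h2
          · -- `u' = p`
            rw [h2, ← hw] at hεk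
            rw [hcomb (ε - 2) (ε + 2) _ (fun k => by
              have := hεk k
              have := htk k
              linarith)] at hNe
            rcases hε with rfl | rfl <;> linarith
          · rw [h2, ← hu] at hεk
            rcases hε with rfl | rfl
            · apply hNEp.1
              funext k
              have := hεk k
              have := htk k
              linarith
            · rw [hcomb (-1) (-3) _ (fun k => by
                have := hεk k
                have := htk k
                linarith)] at hNe
              linarith
          · exact hux' h2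
          · rw [h2] at hεk
            rcases hε with rfl | rfl
            · rw [hcomb (-3) (-1) _ (fun k => by
                have h4 := hεk k
                have h5 := htk k
                have h6 := hsum k
                linarith)] at hNe
              linarith
            · apply hNEp.2
              funext k
              have h4 := hεk k
              have h5 := htk k
              have h6 := hsum k
              rw [Pi.neg_apply]
              linarith
  have claim2 : ∀ h : G, (h • p = y ∨ h • p = c • y) ∨ (h • p = p ∨ h • p = c • p) := by
    intro h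
    rcases hpy with h1 | h1 <;> rw [inv_smul_eq_iff] at h1
    · have e : h • p = (h * g₀) • y := by rw [mul_smul, ← h1]
      rw [e]
      exact claim1 _
    · rw [← X.conj_comm] at h1
      have e : h • p = c • (h * g₀) • y := by rw [mul_smul, X.conj_comm h, ← h1]
      rw [e]
      rcases claim1 (h * g₀) with (h2 | h2) | (h2 | h2) <;> rw [h2]
      · exact Or.inl (Or.inr rfl)
      · exact Or.inl (Or.inl (X.conj_conj _))
      · exact Or.inr (Or.inr rfl)
      · exact Or.inr (Or.inl (X.conj_conj _))
  -- the same for vectors
  have toV : ∀ x z : X.S, (z = x ∨ z = c • x) → X.a z = X.a x ∨ X.a z = -X.a x := by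
    rintro x z (rfl | rfl)
    · exact Or.inl rfl
    · exact Or.inr (X.a_conj x)
  have hyW' : W = X.a y ∨ W = -X.a y := by
    rcases hyW with h | h
    · exact Or.inl h.symm
    · right
      rw [h, neg_neg]
  have trans : ∀ v₁ v₂ v₃ : G → ℚ, (v₁ = v₂ ∨ v₁ = -v₂) → (v₂ = v₃ ∨ v₂ = -v₃) →
      (v₁ = v₃ ∨ v₁ = -v₃) := by
    rintro v₁ v₂ v₃ (rfl | rfl) (rfl | rfl)
    · exact Or.inl rfl
    · exact Or.inr rfl
    · exact Or.inr rfl
    · exact Or.inl (neg_neg _)
  have C1 : ∀ h, (rho h W = W ∨ rho h W = -W) ∨ (rho h W = w ∨ rho h W = -w) := by
    intro h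
    have e : rho h W = X.a (h • y) ∨ rho h W = -X.a (h • y) := by
      rw [X.a_smul]
      rcases hyW' with h1 | h1
      · left
        rw [h1]
      · right
        rw [h1, rho_neg]
    rcases claim1 h with h1 | h1
    · exact Or.inl (trans _ _ _ e (trans _ _ _ (toV _ _ h1) hyW))
    · exact Or.inr (trans _ _ _ e (toV _ _ h1))
  have C2 : ∀ h, (rho h w = W ∨ rho h w = -W) ∨ (rho h w = w ∨ rho h w = -w) := by
    intro h
    have e : rho h w = X.a (h • p) := by rw [X.a_smul]
    rw [e]
    rcases claim2 h with h1 | h1
    · exact Or.inl (trans _ _ _ (toV _ _ h1) hyW)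
    · exact Or.inr (toV _ _ h1)
  have hWw : NE W w := by
    have := hy.ne' p hp
    rcases hyW' with h1 | h1
    · rw [h1]; exact this
    · rw [h1]; exact this.neg_left
  have w0 : w ≠ 0 := hy.n0 p hp
  have W0 : W ≠ 0 := by
    intro h
    rw [h] at hNW
    have : N (0 : G → ℚ) = 0 := by simp [N, B]
    linarith
  by_cases hall : ∀ h, rho h u = u ∨ rho h u = -u
  · have flip : ∀ v z : G → ℚ, (v = z ∨ v = -z) → (v = -z ∨ v = - -z) := by
      intro v z h
      rw [neg_neg]
      exact h.symm
    have flip' : ∀ v z : G → ℚ, (v = z ∨ v = -z) → (-v = z ∨ -v = -z) := by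
      rintro v z (rfl | rfl)
      · exact Or.inr rfl
      · exact Or.inl (neg_neg _)
    have hs2 : W + -w = (2 : ℚ) • u := by
      funext k
      simp only [Pi.add_apply, Pi.neg_apply, Pi.smul_apply, smul_eq_mul]
      rw [hWk, htk]
      ring
    refine X.v4 (w := W) (w' := -w) hmW (by rw [X.m_neg]; exact hy.m_x hp) W0
      (neg_ne_zero.2 w0) hWw.neg_right ?_ ?_ ?_
    · intro h
      rcases C1 h with h1 | h1
      · exact Or.inl h1
      · exact Or.inr (flip _ _ h1)
    · intro h
      rw [rho_neg]
      rcases C2 h with h1 | h1
      · exact Or.inl (flip' _ _ h1)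
      · exact Or.inr (flip _ _ (flip' _ _ h1))
    · intro h
      rw [hs2, rho_smul]
      rcases hall h with h1 | h1
      · left
        rw [h1]
      · right
        rw [h1, smul_neg]
  · push Not at hall
    obtain ⟨h, hh1, hh2⟩ := hall
    have hcontra : ¬ (∀ k, rho h u k = u k) ∧ ¬ (∀ k, rho h u k = - u k) :=
      ⟨fun e => hh1 (funext e), fun e => hh2 (funext e)⟩
    have hrel : ∀ k, rho h W k - rho h w k = 2 * rho h u k := by
      intro k
      rw [rho_apply, rho_apply, rho_apply, hWk, htk]
      ring
    have hNEh := hWw.rho h
    have hrt : rho h u = t ∨ rho h u = -t := by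
      rcases C1 h with (h1 | h1) | (h1 | h1) <;> rcases C2 h with (h2 | h2) | (h2 | h2) <;>
        rw [h1, h2] at hrel hNEh
      · exact absurd rfl hNEh.1
      · exact absurd (by rw [neg_neg]) hNEh.2
      · exfalso
        apply hcontra.1
        intro k
        have := hrel k
        rw [hWk, htk] at this
        linarith
      · left
        funext k
        have := hrel k
        rw [hWk, Pi.neg_apply] at this
        have := htk k
        linarith
      · exact absurd rfl hNEh.2
      · exact absurd rfl hNEh.1
      · right
        funext k
        have := hrel k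
        rw [Pi.neg_apply, hWk] at this
        have := htk k
        rw [Pi.neg_apply]
        linarith
      · exfalso
        apply hcontra.2
        intro k
        have := hrel k
        rw [Pi.neg_apply, Pi.neg_apply, hWk, htk] at this
        linarith
      · exfalso
        apply hcontra.2
        intro k
        have := hrel k
        rw [hWk, htk] at this
        linarith
      · left
        funext k
        have := hrel k
        rw [Pi.neg_apply, hWk] at this
        have := htk k
        linarith
      · exact absurd rfl hNEh.1
      · exact absurd (by rw [neg_neg]) hNEh.2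
      · right
        funext k
        have := hrel k
        rw [Pi.neg_apply, hWk] at this
        have := htk k
        rw [Pi.neg_apply]
        linarith
      · exfalso
        apply hcontra.1
        intro k
        have := hrel k
        rw [Pi.neg_apply, Pi.neg_apply, hWk, htk] at this
        linarith
      · exact absurd rfl hNEh.2
      · exact absurd rfl hNEh.1
    have hNtu : N t = N u := by
      rw [← N_eq_of hrt, N_rho]
    have hut : NE u t := by
      constructor
      · intro e
        rw [e] at hB
        have : B t t = N t := rfl
        linarith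
      · intro e
        have h1 : B t u = - N t := by
          rw [e]
          simp [N, B]
        linarith
    have haz : X.a (h • q) = t ∨ X.a (h • q) = -t := by
      rw [X.a_smul]
      exact hrt
    -- an element of `J` with slope `t` or `-t`
    obtain ⟨e, he, het⟩ : ∃ e ∈ J, X.a e = t ∨ X.a e = -t := by
      rcases hy.cov (h • q) with h1 | h1
      · exfalso
        have h2 : N (X.a y) = N t := by
          rw [← N_eq_of (toV _ _ h1), N_eq_of haz]
        rw [N_eq_of hyW] at h2
        linarith
      · rcases h1 with h1 | h1
        · exact ⟨_, h1, haz⟩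
        · refine ⟨_, h1, ?_⟩
          rw [X.a_conj]
          rcases haz with h2 | h2
          · right
            rw [h2]
          · left
            rw [h2, neg_neg]
    have hep : e ≠ p := by
      rintro rfl
      have := N_eq_of het
      rw [← hw] at this
      linarith
    have heq : e ≠ q := by
      rintro rfl
      exact absurd het (by rintro (h1 | h1); exacts [hut.1 h1, hut.2 h1])
    obtain ⟨f, hf, hfp, hfq, hfe, hallJ, hsum⟩ := hy.toIsQuad.other hp hq he hqp hep heq
    have hft : ∀ k, X.a f k = -2 * t k := by
      rcases het with h1 | h1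
      · intro k
        have h2 := hsum k
        rw [h1] at h2
        have := htk k
        linarith
      · exfalso
        apply hy.n0 f hf
        funext k
        have h2 := hsum k
        rw [h1, Pi.neg_apply] at h2
        have := htk k
        rw [Pi.zero_apply]
        linarith
    have hrt' : rho h⁻¹ t = u ∨ rho h⁻¹ t = -u := by
      rcases hrt with h1 | h1
      · left
        rw [← h1, rho_inv]
      · right
        have : t = - rho h u := by rw [h1, neg_neg]
        rw [this, rho_neg, rho_inv]
    have hfu : ∀ k, X.a (h⁻¹ • f) k = -2 * rho h⁻¹ t k := by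
      intro k
      rw [X.a_smul, rho_apply, hft, rho_apply]
    have hNf : N (X.a (h⁻¹ • f)) = 4 * N u := by
      rw [N_of (-2) 0 (rho h⁻¹ t) (rho h⁻¹ t) (fun k => by rw [hfu]; ring)]
      rw [N_rho, hNtu]
      ring
    obtain ⟨x, hx, hxf⟩ : ∃ x, (x = y ∨ x ∈ J) ∧ (h⁻¹ • f = x ∨ h⁻¹ • f = c • x) := by
      rcases hy.cov (h⁻¹ • f) with h1 | h1 | h1
      · exact ⟨y, Or.inl rfl, h1⟩
      · exact ⟨_, Or.inr h1, Or.inl rfl⟩
      · exact ⟨_, Or.inr h1, Or.inr (X.conj_conj _).symm⟩
    have hNx : N (X.a x) = 4 * N u := by
      rw [← hNf, N_eq_of (toV _ _ hxf)]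
    rcases hx with rfl | hx
    · rw [N_eq_of hyW] at hNx
      linarith
    · rcases hallJ x hx with h1 | h1 | h1 | h1
      · rw [h1, ← hw] at hNx
        linarith
      · rw [h1, ← hu] at hNx
        linarith
      · rw [h1, N_eq_of het] at hNx
        linarith
      · rw [h1] at hxf
        have h3 := toV _ _ hxf
        rcases h3 with h3 | h3 <;> rcases hrt' with h4 | h4
        · apply hut.1
          funext k
          have e1 := hfu k
          have e2 := congrFun h3 k
          have e3 := hft k
          rw [h4] at e1
          linarith
        · apply hut.2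
          funext k
          have e1 := hfu k
          have e2 := congrFun h3 k
          have e3 := hft k
          rw [h4, Pi.neg_apply] at e1
          rw [Pi.neg_apply]
          linarith
        · apply hut.2
          funext k
          have e1 := hfu k
          have e2 := congrFun h3 k
          have e3 := hft k
          rw [h4] at e1
          rw [Pi.neg_apply] at e2
          rw [Pi.neg_apply]
          linarith
        · apply hut.1
          funext k
          have e1 := hfu k
          have e2 := congrFun h3 k
          have e3 := hft k
          rw [h4, Pi.neg_apply] at e1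
          rw [Pi.neg_apply] at e2
          linarith

end CMDatum

end Pc0b458F
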