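import Pool.Agent.Lib.Pc0b458F.Small2

/-!
# Sets of slopes with sum zero
-/

namespace Pc0b458F

/-- two sets with sum zero which agree up to signs -/
theorem two_sets {Ω V : Type*} [DecidableEq Ω] [AddCommGroup V] [Module ℚ V] (a : Ω → V)
    (ng : Ω → Ω) (hng : ∀ x, ng (ng x) = x) (ha : ∀ x, a (ng x) = -a x) (J K : Finset Ω)
    (hK : ∀ x ∈ K, ng x ∉ K) (hcard : K.card = J.card) (hJs : ∑ x ∈ J, a x = 0)
    (hKs : ∑ x ∈ K, a x = 0) (hmin : ∀ T ⊆ J, ∑ x ∈ T, a x = 0 → T = ∅ ∨ T = J)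
    (hcov : ∀ z ∈ K, z ∈ J ∨ ng z ∈ J) : K = J ∨ K = J.image ng := by
  have hnginj : Function.Injective ng := fun x y h => by
    rw [← hng x, h, hng]
  set ψ : Ω → Ω := fun z => if z ∈ J then z else ng z with hψ
  have hψJ : ∀ z ∈ K, ψ z ∈ J := by
    intro z hz
    simp only [hψ]
    split_ifs with h
    · exact h
    · exact (hcov z hz).resolve_left h
  have hinj : Set.InjOn ψ K := by
    intro z hz z' hz' h
    simp only [hψ] at h
    split_ifs at h with h1 h2 h2
    · exact h
    · exfalso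
      exact hK z' hz' (h ▸ hz)
    · exfalso
      exact hK z hz (h ▸ hz')
    · exact hnginj h
  have himg : K.image ψ = J := by
    refine Finset.eq_of_subset_of_card_le ?_ ?_
    · intro y hy
      rw [Finset.mem_image] at hy
      obtain ⟨z, hz, rfl⟩ := hy
      exact hψJ z hz
    · rw [Finset.card_image_of_injOn hinj, hcard]
  have hs : ∑ z ∈ K, a (ψ z) = 0 := by
    rw [← hJs, ← himg, Finset.sum_image hinj]
  have hT : ∑ z ∈ K ∩ J, a z = 0 := by
    have h1 : ∑ z ∈ K, (a z + a (ψ z)) = 0 := by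
      rw [Finset.sum_add_distrib, hs, hKs, add_zero]
    have h2 : ∀ z ∈ K, a z + a (ψ z) = if z ∈ J then (2 : ℚ) • a z else 0 := by
      intro z _
      simp only [hψ]
      split_ifs with h
      · rw [two_smul]
      · rw [ha, add_neg_cancel]
    rw [Finset.sum_congr rfl h2, ← Finset.sum_filter, ← Finset.smul_sum,
      Finset.filter_mem_eq_inter] at h1
    rcases smul_eq_zero.1 h1 with h | h
    · norm_num at h
    · exact h
  rcases hmin _ Finset.inter_subset_right hT with h | h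
  · right
    refine Finset.eq_of_subset_of_card_le ?_ ?_
    · intro z hz
      rw [Finset.mem_image]
      rcases hcov z hz with h1 | h1
      · exfalso
        have : z ∈ K ∩ J := Finset.mem_inter.2 ⟨hz, h1⟩
        rw [h] at this
        exact Finset.notMem_empty _ this
      · exact ⟨_, h1, hng z⟩
    · rw [Finset.card_image_of_injective _ hnginj, hcard]
  · left
    symm
    refine Finset.eq_of_subset_of_card_le ?_ (le_of_eq hcard)
    rw [← h]
    exact Finset.inter_subset_left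

/-- a set with sum zero which agrees up to signs with another one except for one element -/
theorem miss {Ω V : Type*} [DecidableEq Ω] [AddCommGroup V] [Module ℚ V] (a : Ω → V)
    (ng : Ω → Ω) (hng : ∀ x, ng (ng x) = x) (ha : ∀ x, a (ng x) = -a x) (J K : Finset Ω)
    (hJ : ∀ x ∈ J, ng x ∉ J)
    (hK : ∀ x ∈ K, ng x ∉ K) (hcard : K.card = J.card) (hJs : ∑ x ∈ J, a x = 0)
    (hKs : ∑ x ∈ K, a x = 0) (y : Ω) (hy : y ∈ K) (hyJ : y ∉ J) (hyJ' : ng y ∉ J)
    (hcov : ∀ z ∈ K, z ≠ y → z ∈ J ∨ ng z ∈ J) :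
    ∃ x ∈ J, x ∉ K ∧ ng x ∉ K ∧ ∃ T ⊆ J.erase x, a y + a x + (2 : ℚ) • ∑ z ∈ T, a z = 0 := by
  have hnginj : Function.Injective ng := fun x y h => by
    rw [← hng x, h, hng]
  set ψ : Ω → Ω := fun z => if z ∈ J then z else ng z with hψ
  have hψJ : ∀ z ∈ K.erase y, ψ z ∈ J := by
    intro z hz
    rw [Finset.mem_erase] at hz
    simp only [hψ]
    split_ifs with h
    · exact h
    · exact (hcov z hz.2 hz.1).resolve_left h
  have hinj : Set.InjOn ψ (K.erase y) := by
    intro z hz z' hz' h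
    rw [Finset.mem_coe, Finset.mem_erase] at hz hz'
    simp only [hψ] at h
    split_ifs at h with h1 h2 h2
    · exact h
    · exfalso
      exact hK z' hz'.2 (h ▸ hz.2)
    · exfalso
      exact hK z hz.2 (h ▸ hz'.2)
    · exact hnginj h
  have hsub : (K.erase y).image ψ ⊆ J := by
    intro w hw
    rw [Finset.mem_image] at hw
    obtain ⟨z, hz, rfl⟩ := hw
    exact hψJ z hz
  have hc1 : (J \ (K.erase y).image ψ).card = 1 := by
    rw [Finset.card_sdiff_of_subset hsub, Finset.card_image_of_injOn hinj,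
      Finset.card_erase_of_mem hy, hcard]
    have : 0 < K.card := Finset.card_pos.2 ⟨y, hy⟩
    omega
  obtain ⟨x, hx⟩ := Finset.card_eq_one.1 hc1
  have hxm : x ∈ J ∧ x ∉ (K.erase y).image ψ := by
    rw [← Finset.mem_sdiff, hx, Finset.mem_singleton]
  have hxK : x ∉ K := by
    intro h
    apply hxm.2
    rw [Finset.mem_image]
    refine ⟨x, Finset.mem_erase.2 ⟨?_, h⟩, ?_⟩
    · rintro rfl
      exact hyJ hxm.1
    · simp only [hψ]
      rw [if_pos hxm.1]
  have hxK' : ng x ∉ K := by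
    intro h
    apply hxm.2
    rw [Finset.mem_image]
    refine ⟨ng x, Finset.mem_erase.2 ⟨?_, h⟩, ?_⟩
    · intro e
      apply hyJ'
      rw [← e, hng]
      exact hxm.1
    · simp only [hψ]
      rw [if_neg (hJ x hxm.1), hng]
  refine ⟨x, hxm.1, hxK, hxK', K ∩ J, ?_, ?_⟩
  · intro z hz
    rw [Finset.mem_inter] at hz
    rw [Finset.mem_erase]
    exact ⟨fun e => hxK (e ▸ hz.1), hz.2⟩
  · have h1 : ∑ z ∈ J, a z = a x + ∑ z ∈ K.erase y, a (ψ z) := by
      rw [← Finset.sum_image hinj (f := a), ← Finset.sum_sdiff hsub, hx, Finset.sum_singleton]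
    have h2 : ∑ z ∈ K, a z = a y + ∑ z ∈ K.erase y, a z := by
      rw [Finset.add_sum_erase _ _ hy]
    have h3 : ∑ z ∈ K.erase y, (a z + a (ψ z)) = (2 : ℚ) • ∑ z ∈ K ∩ J, a z := by
      have h2 : ∀ z ∈ K.erase y, a z + a (ψ z) = if z ∈ J then (2 : ℚ) • a z else 0 := by
        intro z _
        simp only [hψ]
        split_ifs with h
        · rw [two_smul]
        · rw [ha, add_neg_cancel]
      rw [Finset.sum_congr rfl h2, ← Finset.sum_filter, ← Finset.smul_sum,
        Finset.filter_mem_eq_inter]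
      congr 2
      ext z
      simp only [Finset.mem_inter, Finset.mem_erase]
      constructor
      · rintro ⟨⟨_, h1⟩, h2⟩
        exact ⟨h1, h2⟩
      · rintro ⟨h1, h2⟩
        exact ⟨⟨fun e => hyJ (e ▸ h2), h1⟩, h2⟩
    rw [← h3, Finset.sum_add_distrib]
    have h4 : a y + ∑ z ∈ K.erase y, a z + (a x + ∑ z ∈ K.erase y, a (ψ z)) = 0 := by
      rw [← h1, ← h2, hJs, hKs, add_zero]
    rw [← h4]
    abel

/-- a set of three nonzero vectors with sum zero has no smaller subset with sum zero -/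
theorem min_three {Ω V : Type*} [DecidableEq Ω] [AddCommGroup V] (a : Ω → V) (J : Finset Ω)
    (hc : J.card = 3) (h0 : ∀ x ∈ J, a x ≠ 0) (hs : ∑ x ∈ J, a x = 0) :
    ∀ T ⊆ J, ∑ x ∈ T, a x = 0 → T = ∅ ∨ T = J := by
  intro T hT hTs
  have h1 : ∑ x ∈ J \ T, a x = 0 := by
    have := Finset.sum_sdiff hT (f := a)
    rw [hTs, hs, add_zero] at this
    exact this
  have h2 := Finset.card_sdiff_of_subset hT
  have h3 := Finset.card_le_card hT
  have key : ∀ U ⊆ J, ∑ x ∈ U, a x = 0 → U.card ≠ 1 := by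
    intro U hU hUs hUc
    obtain ⟨x, hx⟩ := Finset.card_eq_one.1 hUc
    rw [hx, Finset.sum_singleton] at hUs
    exact h0 x (hU (by rw [hx]; exact Finset.mem_singleton_self x)) hUs
  have h4 := key T hT hTs
  have h5 := key (J \ T) Finset.sdiff_subset h1
  have h6 : T.card = 0 ∨ T.card = 3 := by omega
  rcases h6 with h | h
  · exact Or.inl (Finset.card_eq_zero.1 h)
  · exact Or.inr (Finset.eq_of_subset_of_card_le hT (by omega))

/-- the same for four vectors, if no two of them have sum zero -/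
theorem min_four {Ω V : Type*} [DecidableEq Ω] [AddCommGroup V] (a : Ω → V) (J : Finset Ω)
    (hc : J.card = 4) (h0 : ∀ x ∈ J, a x ≠ 0) (h2 : ∀ x ∈ J, ∀ y ∈ J, x ≠ y → a x + a y ≠ 0)
    (hs : ∑ x ∈ J, a x = 0) : ∀ T ⊆ J, ∑ x ∈ T, a x = 0 → T = ∅ ∨ T = J := by
  intro T hT hTs
  have h1 : ∑ x ∈ J \ T, a x = 0 := by
    have := Finset.sum_sdiff hT (f := a)
    rw [hTs, hs, add_zero] at this
    exact this
  have h3 := Finset.card_sdiff_of_subset hT
  have h4 := Finset.card_le_card hT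
  have key : ∀ U ⊆ J, ∑ x ∈ U, a x = 0 → U.card ≠ 1 ∧ U.card ≠ 2 := by
    intro U hU hUs
    constructor
    · intro hUc
      obtain ⟨x, hx⟩ := Finset.card_eq_one.1 hUc
      rw [hx, Finset.sum_singleton] at hUs
      exact h0 x (hU (by rw [hx]; exact Finset.mem_singleton_self x)) hUs
    · intro hUc
      obtain ⟨x, y, hxy, hx⟩ := Finset.card_eq_two.1 hUc
      rw [hx, Finset.sum_pair hxy] at hUs
      exact h2 x (hU (by rw [hx]; simp)) y (hU (by rw [hx]; simp)) hxy hUs
  have h5 := key T hT hTs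
  have h6 := key (J \ T) Finset.sdiff_subset h1
  have h7 : T.card = 0 ∨ T.card = 4 := by omega
  rcases h7 with h | h
  · exact Or.inl (Finset.card_eq_zero.1 h)
  · exact Or.inr (Finset.eq_of_subset_of_card_le hT (by omega))

namespace CMDatum

variable {G : Type} [Group G] {D : Subgroup G} {c : G} (X : CMDatum G D c)

/-- multiplicities of a set of elements with different slopes -/
theorem halfF (J : Finset X.S) (hJ : ∀ x ∈ J, ∀ y ∈ J, x ≠ y → NE (X.a x) (X.a y))
    (h0 : ∀ x ∈ J, X.a x ≠ 0) :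
    2 * ∑ x ∈ J, X.m (X.a x) + X.m 0 ≤ Fintype.card X.S := by
  have h1 := X.half (J.toList.map X.a) (by
    rw [List.pairwise_map]
    refine List.Nodup.pairwise_of_forall_ne J.nodup_toList fun x hx y hy hxy => ?_
    exact hJ x (Finset.mem_toList.1 hx) y (Finset.mem_toList.1 hy) hxy) (by
    intro v hv
    rw [List.mem_map] at hv
    obtain ⟨x, hx, rfl⟩ := hv
    exact h0 x (Finset.mem_toList.1 hx))
  rw [List.map_map] at h1
  have h2 : (J.toList.map (X.m ∘ X.a)).sum = ∑ x ∈ J, X.m (X.a x) := Finset.sum_map_toList J _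
  rw [h2] at h1
  exact h1

end CMDatum

end Pc0b458F
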