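import Pool.Agent.Lib.Pc0b458F.Datum

/-!
# Relations with repeated slopes
-/

namespace Pc0b458F

namespace CMDatum

variable {G : Type} [Group G] {D : Subgroup G} {c : G} (X : CMDatum G D c)

theorem rho_at_one (g : G) (v : G → ℚ) : rho g v 1 = v g := by rw [rho_apply, one_mul]

/-- integrality for a stable set of slopes -/
theorem int_set (T : Finset (G → ℚ)) (hT : ∀ d ∈ D, ∀ v ∈ T, rho d v ∈ T) :
    ∃ n : ℤ, ∑ v ∈ T, (X.m v : ℚ) * (v 1 + 1 / 2) = n := by
  classical
  obtain ⟨n, hn⟩ := X.integral (T.biUnion X.fib) (by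
    intro d hd x hx
    rw [Finset.mem_biUnion] at hx ⊢
    obtain ⟨v, hv, hx⟩ := hx
    refine ⟨rho d v, hT d hd v hv, ?_⟩
    rw [mem_fib] at hx ⊢
    rw [a_smul, hx])
  refine ⟨n, ?_⟩
  rw [← hn, Finset.sum_biUnion]
  · refine Finset.sum_congr rfl fun v _ => ?_
    rw [m, ← nsmul_eq_mul, ← Finset.sum_const]
    refine Finset.sum_congr rfl fun x hx => ?_
    rw [mem_fib] at hx
    have := congrFun hx 1
    rw [a_apply, one_smul] at this
    rw [← this]
    ring
  · intro v _ w _ hvw
    rw [Function.onFun, Finset.disjoint_left]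
    intro x hx hx'
    rw [mem_fib] at hx hx'
    exact hvw (hx.symm.trans hx')

theorem int_one {v : G → ℚ} (hv : ∀ d ∈ D, rho d v = v) :
    ∃ n : ℤ, (X.m v : ℚ) * (v 1 + 1 / 2) = n := by
  obtain ⟨n, hn⟩ := X.int_set {v} (by
    intro d hd w hw
    rw [Finset.mem_singleton] at hw ⊢
    rw [hw, hv d hd])
  rw [Finset.sum_singleton] at hn
  exact ⟨n, hn⟩

theorem int_pair {v w : G → ℚ} (hvw : v ≠ w)
    (h : ∀ d ∈ D, (rho d v = v ∧ rho d w = w) ∨ (rho d v = w ∧ rho d w = v)) :
    ∃ n : ℤ, (X.m v : ℚ) * (v 1 + 1 / 2) + (X.m w : ℚ) * (w 1 + 1 / 2) = n := by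
  classical
  obtain ⟨n, hn⟩ := X.int_set {v, w} (by
    intro d hd u hu
    rw [Finset.mem_insert, Finset.mem_singleton] at hu ⊢
    rcases h d hd with h | h
    · rcases hu with rfl | rfl
      · exact Or.inl h.1
      · exact Or.inr h.2
    · rcases hu with rfl | rfl
      · exact Or.inr h.1
      · exact Or.inl h.2)
  rw [Finset.sum_pair hvw] at hn
  exact ⟨n, hn⟩

theorem v_abs {v : G → ℚ} (hv : X.m v ≠ 0) (g : G) : -(1 / 2) ≤ v g ∧ v g ≤ 1 / 2 := by
  obtain ⟨x, hx⟩ := X.exists_of_m hv
  rw [← hx]
  exact abs_le.1 (X.a_abs x g)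

theorem v_dec {v : G → ℚ} (hv : X.m v ≠ 0) {d : G} (hd : d ∈ D) : rho d v 1 = v 1 := by
  obtain ⟨x, hx⟩ := X.exists_of_m hv
  rw [rho_apply, ← hx, one_mul]
  have := X.a_dec x hd 1
  rwa [mul_one] at this

theorem half_of_one {v : G → ℚ} (hm : X.m v = 1) (hv : ∀ d ∈ D, rho d v = v) :
    v 1 = 1 / 2 ∨ v 1 = -(1 / 2) := by
  obtain ⟨n, hn⟩ := X.int_one hv
  obtain ⟨h1, h2⟩ := X.v_abs (by rw [hm]; norm_num) 1
  rw [hm, Nat.cast_one, one_mul] at hn
  have h3 : (0 : ℚ) ≤ n := by rw [← hn]; linarith
  have h4 : (n : ℚ) ≤ 1 := by rw [← hn]; linarith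
  have h5 : 0 ≤ n := by exact_mod_cast h3
  have h6 : n ≤ 1 := by exact_mod_cast h4
  interval_cases n
  · right
    push_cast at hn
    linarith
  · left
    push_cast at hn
    linarith

theorem half_of_two {v : G → ℚ} (hm : X.m v = 2) (hv : ∀ d ∈ D, rho d v = v) (h0 : v 1 ≠ 0) :
    v 1 = 1 / 2 ∨ v 1 = -(1 / 2) := by
  obtain ⟨n, hn⟩ := X.int_one hv
  obtain ⟨h1, h2⟩ := X.v_abs (by rw [hm]; norm_num) 1
  rw [hm] at hn
  push_cast at hn
  have h3 : (0 : ℚ) ≤ n := by rw [← hn]; linarith
  have h4 : (n : ℚ) ≤ 2 := by rw [← hn]; linarith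
  have h5 : 0 ≤ n := by exact_mod_cast h3
  have h6 : n ≤ 2 := by exact_mod_cast h4
  interval_cases n
  · right
    push_cast at hn
    linarith
  · exfalso
    apply h0
    push_cast at hn
    linarith
  · left
    push_cast at hn
    linarith

/-- the class of `v` up to sign is fixed by the Galois group -/
def Fixed (v : G → ℚ) : Prop := ∀ g, rho g v = v ∨ rho g v = -v

variable {X}

theorem Fixed.val {v : G → ℚ} (h : Fixed v) (g : G) : v g = v 1 ∨ v g = -v 1 := by
  rcases h g with h | h
  · left
    rw [← rho_at_one g v, h]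
  · right
    rw [← rho_at_one g v, h, Pi.neg_apply]

theorem Fixed.one_ne {v : G → ℚ} (h : Fixed v) (h0 : v ≠ 0) : v 1 ≠ 0 := by
  intro h1
  apply h0
  funext g
  rcases h.val g with h | h
  · rw [h, h1, Pi.zero_apply]
  · rw [h, h1, neg_zero, Pi.zero_apply]

theorem Fixed.dec {v : G → ℚ} (h : Fixed v) (h0 : v ≠ 0) (hm : X.m v ≠ 0) :
    ∀ d ∈ D, rho d v = v := by
  intro d hd
  rcases h d with h1 | h1
  · exact h1
  · exfalso
    apply h.one_ne h0
    have := X.v_dec hm hd
    rw [h1, Pi.neg_apply] at this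
    linarith

theorem Fixed.half {v : G → ℚ} (h : Fixed v) (h1 : v 1 = 1 / 2 ∨ v 1 = -(1 / 2)) (g : G) :
    v g = 1 / 2 ∨ v g = -(1 / 2) := by
  rcases h.val g with h | h <;> rcases h1 with h1 | h1 <;> rw [h, h1]
  · exact Or.inl rfl
  · exact Or.inr rfl
  · exact Or.inr rfl
  · left
    norm_num

variable (X)

theorem fixed_of {v : G → ℚ} (h : ∀ g, ¬ NE (rho g v) v) : Fixed v := fun g => not_NE (h g)

theorem vzero {v : G → ℚ} {α : ℚ} (hα : α ≠ 0) (h : ∀ k, α * v k = 0) : v = 0 := by
  funext k
  rcases mul_eq_zero.1 (h k) with h | h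
  · exact absurd h hα
  · exact h

/-- case three equal slopes -/
theorem three_one (hc : Fintype.card X.S ≤ 10) {v w : G → ℚ} (hv : 3 ≤ X.m v) (hw : 1 ≤ X.m w)
    (v0 : v ≠ 0) (hs : ∀ k, 3 * v k + w k = 0) :
    X.m v = 3 ∧ Fixed v ∧ ∀ g, w g = 1 / 2 ∨ w g = -(1 / 2) := by
  have w0 : w ≠ 0 := by
    intro h
    apply v0
    refine vzero (α := 3) (by norm_num) fun k => ?_
    have := hs k
    rw [h, Pi.zero_apply] at this
    linarith
  have vw : NE v w := by
    constructor
    · intro h
      apply v0
      refine vzero (α := 4) (by norm_num) fun k => ?_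
      have := hs k
      rw [← h] at this
      linarith
    · intro h
      apply v0
      refine vzero (α := 2) (by norm_num) fun k => ?_
      have := hs k
      have h2 := congrFun h k
      rw [Pi.neg_apply] at h2
      linarith
  have hf : Fixed v := by
    apply fixed_of
    intro g hg
    have := X.half [rho g v, v] (by simpa using hg) (by
      intro u hu
      simp only [List.mem_cons, List.not_mem_nil, or_false] at hu
      rcases hu with rfl | rfl
      · exact fun h => v0 (rho_eq_zero h)
      · exact v0)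
    simp only [List.map_cons, List.map_nil, List.sum_cons, List.sum_nil, X.m_rho] at this
    omega
  have hb := X.half [v, w] (by simpa using vw) (by
      intro u hu
      simp only [List.mem_cons, List.not_mem_nil, or_false] at hu
      rcases hu with rfl | rfl
      · exact v0
      · exact w0)
  simp only [List.map_cons, List.map_nil, List.sum_cons, List.sum_nil] at hb
  have hm : X.m v = 3 ∨ X.m v = 4 := by omega
  obtain ⟨h1, h2⟩ := X.v_abs (by omega : X.m w ≠ 0) 1
  have hs1 := hs 1
  obtain ⟨n, hn⟩ := X.int_one (hf.dec (X := X) v0 (by omega))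
  have hne := hf.one_ne v0
  rcases hm with hm | hm
  · refine ⟨hm, hf, ?_⟩
    rw [hm] at hn
    push_cast at hn
    have h3 : (1 : ℚ) ≤ n := by rw [← hn]; linarith
    have h4 : (n : ℚ) ≤ 2 := by rw [← hn]; linarith
    have h5 : 1 ≤ n := by exact_mod_cast h3
    have h6 : n ≤ 2 := by exact_mod_cast h4
    have hw1 : w 1 = 1 / 2 ∨ w 1 = -(1 / 2) := by
      interval_cases n
      · left
        push_cast at hn
        linarith
      · right
        push_cast at hn
        linarith
    have hfw : Fixed w := by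
      have hw3 : w = (-3 : ℚ) • v := by
        funext k
        rw [Pi.smul_apply, smul_eq_mul]
        linarith [hs k]
      intro g
      rcases hf g with h | h
      · left
        rw [hw3, rho_smul, h]
      · right
        rw [hw3, rho_smul, h, smul_neg]
    exact fun g => hfw.half hw1 g
  · exfalso
    rw [hm] at hn
    push_cast at hn
    have h3 : (1 : ℚ) < n := by rw [← hn]; linarith
    have h4 : (n : ℚ) < 3 := by rw [← hn]; linarith
    have h5 : 1 < n := by exact_mod_cast h3
    have h6 : n < 3 := by exact_mod_cast h4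
    have h7 : n = 2 := by omega
    rw [h7] at hn
    push_cast at hn
    apply hne
    linarith

/-- linear independence of two vectors of equal norm -/
theorem indep2 [Fintype G] {v w : G → ℚ} (hN : N v = N w) (v0 : v ≠ 0) (vw : NE v w) {α β : ℚ}
    (h : ∀ k, α * v k + β * w k = 0) : α = 0 ∧ β = 0 := by
  have h1 : N (α • v) = N (β • w) := by
    have e : α • v = -(β • w) := by
      funext k
      simp only [Pi.smul_apply, Pi.neg_apply, smul_eq_mul]
      linarith [h k]
    rw [e, N_neg]
  have h2 : N (α • v) = α ^ 2 * N v := by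
    have := N_comb α 0 v v
    simp only [zero_smul, add_zero] at this
    rw [this]
    ring
  have h3 : N (β • w) = β ^ 2 * N w := by
    have := N_comb β 0 w w
    simp only [zero_smul, add_zero] at this
    rw [this]
    ring
  have hv := N_pos v0
  have h4 : (α - β) * (α + β) = 0 := by
    have : (α ^ 2 - β ^ 2) * N v = 0 := by
      rw [h2, h3, ← hN] at h1
      linarith
    rcases mul_eq_zero.1 this with h | h
    · linear_combination h
    · exact absurd h hv.ne'
  by_cases hβ : β = 0
  · refine ⟨?_, hβ⟩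
    rw [hβ] at h4
    rcases mul_eq_zero.1 h4 with h | h <;> linarith
  · exfalso
    rcases mul_eq_zero.1 h4 with h5 | h5
    · have e : α = β := by linarith
      apply vw.2
      funext k
      have := h k
      rw [e, ← mul_add] at this
      rcases mul_eq_zero.1 this with h | h
      · exact absurd h hβ
      · rw [Pi.neg_apply]
        linarith
    · have e : α = -β := by linarith
      apply vw.1
      funext k
      have := h k
      rw [e] at this
      have h6 : β * (w k - v k) = 0 := by linarith
      rcases mul_eq_zero.1 h6 with h | h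
      · exact absurd h hβ
      · linarith

theorem pair_stable {w u w' u' : G → ℚ} (w0 : w ≠ 0) (u0 : u ≠ 0) (wu : NE w u)
    (wu' : NE w' u') (hw' : (w' = w ∨ w' = -w) ∨ (w' = u ∨ w' = -u))
    (hu' : (u' = w ∨ u' = -w) ∨ (u' = u ∨ u' = -u)) (hs : ∀ k, w' k + u' k = w k + u k) :
    (w' = w ∧ u' = u) ∨ (w' = u ∧ u' = w) := by
  have key : ∀ z : G → ℚ, z ≠ 0 → ¬ ∀ k, z k = 0 := fun z hz h => hz (funext h)
  rcases hw' with (hw' | hw') | (hw' | hw') <;> rcases hu' with (hu' | hu') | (hu' | hu') <;>
    subst hw' <;> subst hu'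
  · exact absurd rfl wu'.1
  · exact absurd (by rw [neg_neg]) wu'.2
  · exact Or.inl ⟨rfl, rfl⟩
  · exact absurd (fun k => by have := hs k; simp only [Pi.neg_apply] at this; linarith) (key _ u0)
  · exact absurd rfl wu'.2
  · exact absurd rfl wu'.1
  · exact absurd (fun k => by have := hs k; simp only [Pi.neg_apply] at this; linarith) (key _ w0)
  · exact absurd (funext fun k => by
      have := hs k; simp only [Pi.neg_apply] at this ⊢; linarith) wu.2
  · exact Or.inr ⟨rfl, rfl⟩
  · exact absurd (fun k => by have := hs k; simp only [Pi.neg_apply] at this; linarith) (key _ w0)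
  · exact absurd rfl wu'.1
  · exact absurd (by rw [neg_neg]) wu'.2
  · exact absurd (fun k => by have := hs k; simp only [Pi.neg_apply] at this; linarith) (key _ u0)
  · exact absurd (funext fun k => by
      have := hs k; simp only [Pi.neg_apply] at this ⊢; linarith) wu.2
  · exact absurd rfl wu'.2
  · exact absurd rfl wu'.1

/-- case two equal slopes and a slope zero -/
theorem no_two_one [Fintype G] (hc : Fintype.card X.S ≤ 10) {v w : G → ℚ} (hv : 2 ≤ X.m v)
    (hw : 1 ≤ X.m w) (h0 : 2 ≤ X.m 0) (v0 : v ≠ 0) (hs : ∀ k, 2 * v k + w k = 0) : False := by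
  have hN : N w = 4 * N v := by
    rw [N_of (-2) 0 v v (fun k => by linarith [hs k])]
    ring
  have hv' := N_pos v0
  have w0 : w ≠ 0 := by
    intro h
    rw [h] at hN
    have : N (0 : G → ℚ) = 0 := by simp [N, B]
    linarith
  have vw : NE v w := by
    by_contra h
    have := N_eq_of (not_NE h)
    linarith
  have hf : Fixed v := by
    apply fixed_of
    intro g hg
    have h2 : NE (rho g v) w := by
      by_contra h
      have := N_eq_of (not_NE h)
      rw [N_rho] at this
      linarith
    have := X.half [rho g v, v, w] (by simpa using ⟨⟨hg, h2⟩, vw⟩) (by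
      intro u hu
      simp only [List.mem_cons, List.not_mem_nil, or_false] at hu
      rcases hu with rfl | rfl | rfl
      · exact fun h => v0 (rho_eq_zero h)
      · exact v0
      · exact w0)
    simp only [List.map_cons, List.map_nil, List.sum_cons, List.sum_nil, X.m_rho] at this
    omega
  have hb := X.half [v, w] (by simpa using vw) (by
      intro u hu
      simp only [List.mem_cons, List.not_mem_nil, or_false] at hu
      rcases hu with rfl | rfl
      · exact v0
      · exact w0)
  simp only [List.map_cons, List.map_nil, List.sum_cons, List.sum_nil] at hb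
  have hfd := hf.dec (X := X) v0 (by omega)
  have hwd : ∀ d ∈ D, rho d w = w := by
    intro d hd
    have e : w = (-2 : ℚ) • v := by
      funext k
      rw [Pi.smul_apply, smul_eq_mul]
      linarith [hs k]
    rw [e, rho_smul, hfd d hd]
  obtain ⟨n, hn⟩ := X.int_one hfd
  have hs1 := hs 1
  have hne := hf.one_ne v0
  have hm : X.m v = 2 ∨ (X.m v = 3 ∧ X.m w = 1) := by omega
  rcases hm with hm | ⟨hm, hm'⟩
  · obtain ⟨h1, h2⟩ := X.v_abs (by omega : X.m w ≠ 0) 1
    rw [hm] at hn
    push_cast at hn
    have h3 : (0 : ℚ) < n := by rw [← hn]; linarith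
    have h4 : (n : ℚ) < 2 := by rw [← hn]; linarith
    have h5 : 0 < n := by exact_mod_cast h3
    have h6 : n < 2 := by exact_mod_cast h4
    have h7 : n = 1 := by omega
    rw [h7] at hn
    push_cast at hn
    apply hne
    linarith
  · rw [hm] at hn
    push_cast at hn
    rcases X.half_of_one hm' hwd with h | h
    · have h7 : (4 * n : ℚ) = 3 := by rw [← hn]; linarith
      have h8 : 4 * n = 3 := by exact_mod_cast h7
      omega
    · have h7 : (4 * n : ℚ) = 9 := by rw [← hn]; linarith
      have h8 : 4 * n = 9 := by exact_mod_cast h7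
      omega

end CMDatum

end Pc0b458F
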