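import Pool.Agent.Lib.Pc0b458F.Small

/-!
# Relations with two equal slopes and two other slopes
-/

namespace Pc0b458F

namespace CMDatum

variable {G : Type} [Group G] {D : Subgroup G} {c : G} (X : CMDatum G D c)

theorem eq_of_half {v w u : G → ℚ} (hw : X.m w ≠ 0) (hu : X.m u ≠ 0)
    (hv : ∀ g, v g = 1 / 2 ∨ v g = -(1 / 2)) (hs : ∀ k, 2 * v k + w k + u k = 0) : w = u := by
  funext k
  have h1 := X.v_abs hw k
  have h2 := X.v_abs hu k
  have h3 := hs k
  rcases hv k with h | h <;> rw [h] at h3 <;> linarith [h1.1, h1.2, h2.1, h2.2]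

/-- no third class -/
theorem third (hc : Fintype.card X.S ≤ 10) {v w u z : G → ℚ} (v0 : v ≠ 0) (w0 : w ≠ 0)
    (u0 : u ≠ 0) (vw : NE v w) (vu : NE v u) (wu : NE w u) (hm : X.m v + X.m w + X.m u = 5)
    (hz : 1 ≤ X.m z) : (z = v ∨ z = -v) ∨ (z = w ∨ z = -w) ∨ (z = u ∨ z = -u) := by
  by_contra h
  have h1 : NE z v := by
    by_contra h'
    exact h (Or.inl (not_NE h'))
  have h2 : NE z w := by
    by_contra h'
    exact h (Or.inr (Or.inl (not_NE h')))
  have h3 : NE z u := by
    by_contra h'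
    exact h (Or.inr (Or.inr (not_NE h')))
  have hb := X.half [v, w, u] (by simpa using ⟨⟨vw, vu⟩, wu⟩) (by
      intro x hx
      simp only [List.mem_cons, List.not_mem_nil, or_false] at hx
      rcases hx with rfl | rfl | rfl
      · exact v0
      · exact w0
      · exact u0)
  simp only [List.map_cons, List.map_nil, List.sum_cons, List.sum_nil] at hb
  have z0 : z ≠ 0 := by
    rintro rfl
    omega
  have hb := X.half [z, v, w, u] (by simpa using ⟨⟨h1, h2, h3⟩, ⟨vw, vu⟩, wu⟩) (by
      intro x hx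
      simp only [List.mem_cons, List.not_mem_nil, or_false] at hx
      rcases hx with rfl | rfl | rfl | rfl
      · exact z0
      · exact v0
      · exact w0
      · exact u0)
  simp only [List.map_cons, List.map_nil, List.sum_cons, List.sum_nil] at hb
  omega

theorem bound3 (hc : Fintype.card X.S ≤ 10) {v w u : G → ℚ} (v0 : v ≠ 0) (w0 : w ≠ 0)
    (u0 : u ≠ 0) (vw : NE v w) (vu : NE v u) (wu : NE w u) : X.m v + X.m w + X.m u ≤ 5 := by
  have hb := X.half [v, w, u] (by simpa using ⟨⟨vw, vu⟩, wu⟩) (by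
      intro x hx
      simp only [List.mem_cons, List.not_mem_nil, or_false] at hx
      rcases hx with rfl | rfl | rfl
      · exact v0
      · exact w0
      · exact u0)
  simp only [List.map_cons, List.map_nil, List.sum_cons, List.sum_nil] at hb
  omega

theorem no_fixed (hc : Fintype.card X.S ≤ 10) {v w u : G → ℚ} (hv : 2 ≤ X.m v)
    (hw : 1 ≤ X.m w) (hu : 1 ≤ X.m u) (v0 : v ≠ 0) (w0 : w ≠ 0) (u0 : u ≠ 0)
    (vw : NE v w) (vu : NE v u) (wu : NE w u) (hs : ∀ k, 2 * v k + w k + u k = 0)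
    (hf : Fixed v) : False := by
  have hb := X.bound3 hc v0 w0 u0 vw vu wu
  have hfd := hf.dec (X := X) v0 (by omega)
  have hne := hf.one_ne v0
  have hcontra : ¬ (v 1 = 1 / 2 ∨ v 1 = -(1 / 2)) := fun h =>
    wu.1 (X.eq_of_half (by omega) (by omega) (fun g => hf.half h g) hs)
  have hm : X.m v = 2 ∨ (X.m v = 3 ∧ X.m w = 1 ∧ X.m u = 1) := by omega
  rcases hm with hm | ⟨hm, hmw, hmu⟩
  · exact hcontra (X.half_of_two hm hfd hne)
  · have key : ∀ z, X.m z = 1 → (z = w ∨ z = -w) ∨ (z = u ∨ z = -u) := by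
      intro z hz
      rcases X.third hc v0 w0 u0 vw vu wu (by omega) (z := z) (by omega) with h | h
      · have := X.m_class h
        omega
      · exact h
    obtain ⟨n, hn⟩ := X.int_pair wu.1 (fun d hd => by
      refine pair_stable w0 u0 wu (wu.rho d) (key _ (by rw [X.m_rho, hmw]))
        (key _ (by rw [X.m_rho, hmu])) fun k => ?_
      have h1 := hs k
      have h2 := hs (k * d)
      have h3 := congrFun (hfd d hd) k
      rw [rho_apply] at h3
      rw [rho_apply, rho_apply]
      linarith)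
    obtain ⟨n', hn'⟩ := X.int_one hfd
    rw [hmw, hmu] at hn
    rw [hm] at hn'
    push_cast at hn hn'
    have hs1 := hs 1
    have h1 := X.v_abs (by omega : X.m v ≠ 0) 1
    have e : v 1 = n + n' - 5 / 2 := by linarith
    have h3 : (2 : ℚ) ≤ n + n' := by linarith [h1.1]
    have h4 : (n : ℚ) + n' ≤ 3 := by linarith [h1.2]
    have h5 : 2 ≤ n + n' := by exact_mod_cast h3
    have h6 : n + n' ≤ 3 := by exact_mod_cast h4
    have h7 : n + n' = 2 ∨ n + n' = 3 := by omega
    apply hcontra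
    rcases h7 with h7 | h7
    · right
      have : (n : ℚ) + n' = 2 := by exact_mod_cast h7
      linarith
    · left
      have : (n : ℚ) + n' = 3 := by exact_mod_cast h7
      linarith

/-- a vector which is, up to sign, one of two -/
theorem coords {v w z : G → ℚ} (h : (z = v ∨ z = -v) ∨ (z = w ∨ z = -w)) :
    ∃ p q : ℚ, (∀ k, z k = p * v k + q * w k) ∧
      ((p = 1 ∧ q = 0 ∧ z = v) ∨ (p = -1 ∧ q = 0 ∧ z = -v) ∨ (p = 0 ∧ q = 1 ∧ z = w) ∨
        (p = 0 ∧ q = -1 ∧ z = -w)) := by
  rcases h with (h | h) | (h | h)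
  · exact ⟨1, 0, fun k => by rw [h]; ring, Or.inl ⟨rfl, rfl, h⟩⟩
  · exact ⟨-1, 0, fun k => by rw [h, Pi.neg_apply]; ring, Or.inr (Or.inl ⟨rfl, rfl, h⟩)⟩
  · exact ⟨0, 1, fun k => by rw [h]; ring, Or.inr (Or.inr (Or.inl ⟨rfl, rfl, h⟩))⟩
  · exact ⟨0, -1, fun k => by rw [h, Pi.neg_apply]; ring, Or.inr (Or.inr (Or.inr ⟨rfl, rfl, h⟩))⟩

theorem no_conj [Fintype G] (hc : Fintype.card X.S ≤ 10) {v w u : G → ℚ} (hv : 2 ≤ X.m v)
    (hu : 1 ≤ X.m u) (v0 : v ≠ 0) (w0 : w ≠ 0) (u0 : u ≠ 0)
    (vw : NE v w) (vu : NE v u) (wu : NE w u) (hs : ∀ k, 2 * v k + w k + u k = 0)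
    (g : G) (hg : rho g v = w ∨ rho g v = -w) : False := by
  have hb := X.bound3 hc v0 w0 u0 vw vu wu
  have hmw : X.m w = X.m v := by rw [← X.m_rho g v, X.m_class hg]
  have hN : N v = N w := by rw [← N_rho g v, N_eq_of hg]
  have hmv : X.m v = 2 := by omega
  have hmu : X.m u = 1 := by omega
  have hsum : X.m v + X.m w + X.m u = 5 := by omega
  have key : ∀ h z, (z = v ∨ z = w) →
      (rho h z = v ∨ rho h z = -v) ∨ (rho h z = w ∨ rho h z = -w) := by
    intro h z hz
    have hmz : X.m (rho h z) = 2 := by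
      rw [X.m_rho]
      rcases hz with rfl | rfl <;> omega
    rcases X.third hc v0 w0 u0 vw vu wu hsum (z := rho h z) (by omega) with h | h | h
    · exact Or.inl h
    · exact Or.inr h
    · have := X.m_class h
      omega
  have hfu : Fixed u := by
    intro h
    rcases X.third hc v0 w0 u0 vw vu wu hsum (z := rho h u) (by rw [X.m_rho]; omega) with h' | h' | h'
    · have := X.m_class h'
      rw [X.m_rho] at this
      omega
    · have := X.m_class h'
      rw [X.m_rho] at this
      omega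
    · exact h'
  have hud := hfu.dec (X := X) u0 (by omega)
  have hu2 := hfu.half (X.half_of_one hmu hud)
  -- the decomposition group fixes `v` and `w`
  have hd : ∀ d ∈ D, rho d v = v ∧ rho d w = w := by
    intro d hd
    obtain ⟨p, q, h1, h2⟩ := coords (key d v (Or.inl rfl))
    obtain ⟨p', q', h1', h2'⟩ := coords (key d w (Or.inr rfl))
    have h3 := indep2 hN v0 vw (α := 2 * p + p' - 2) (β := 2 * q + q' - 1) (fun k => by
      have e1 := hs k
      have e2 := hs (k * d)
      have e3 := congrFun (hud d hd) k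
      have e4 := h1 k
      have e5 := h1' k
      rw [rho_apply] at e3 e4 e5
      linear_combination e2 - e1 - 2 * e4 - e5 - e3)
    rcases h2 with ⟨rfl, rfl, h2⟩ | ⟨rfl, rfl, h2⟩ | ⟨rfl, rfl, h2⟩ | ⟨rfl, rfl, h2⟩ <;>
      rcases h2' with ⟨rfl, rfl, h2'⟩ | ⟨rfl, rfl, h2'⟩ | ⟨rfl, rfl, h2'⟩ | ⟨rfl, rfl, h2'⟩ <;>
      first
        | exact ⟨h2, h2'⟩
        | (exfalso; norm_num at h3)
  obtain ⟨n, hn⟩ := X.int_one (v := v) fun d hd' => (hd d hd').1
  rw [hmv] at hn
  push_cast at hn
  have hs1 := hs 1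
  -- values of `w` at one
  have two : ∀ g, ∃ r : ℤ, 2 * v g = r := by
    intro g
    have e1 : (∃ r : ℤ, 2 * v 1 = r) := ⟨n - 1, by push_cast; linarith⟩
    have e2 : (∃ r : ℤ, 2 * w 1 = r) := by
      rcases hu2 1 with h | h
      · exact ⟨-2 * (n - 1) - 1, by push_cast; linarith⟩
      · exact ⟨-2 * (n - 1) + 1, by push_cast; linarith⟩
    obtain ⟨r1, e1⟩ := e1
    obtain ⟨r2, e2⟩ := e2
    have e3 := rho_at_one g v
    rcases key g v (Or.inl rfl) with (h | h) | (h | h) <;> rw [h] at e3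
    · exact ⟨r1, by rw [← e3, e1]⟩
    · refine ⟨-r1, ?_⟩
      rw [← e3, Pi.neg_apply]
      push_cast
      linarith
    · exact ⟨r2, by rw [← e3, e2]⟩
    · refine ⟨-r2, ?_⟩
      rw [← e3, Pi.neg_apply]
      push_cast
      linarith
  have hw2 : ∀ g, w g = 1 / 2 ∨ w g = -(1 / 2) := by
    intro g
    obtain ⟨r, hr⟩ := two g
    have h1 := X.v_abs (by omega : X.m w ≠ 0) g
    have h2 := hs g
    rcases hu2 g with h | h
    · have e : w g = -r - 1 / 2 := by linarith
      have h3 : (-1 : ℚ) ≤ r := by linarith [h1.2]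
      have h4 : (r : ℚ) ≤ 0 := by linarith [h1.1]
      have h5 : -1 ≤ r := by exact_mod_cast h3
      have h6 : r ≤ 0 := by exact_mod_cast h4
      have h7 : r = -1 ∨ r = 0 := by omega
      rcases h7 with rfl | rfl
      · left
        rw [e]
        push_cast
        norm_num
      · right
        rw [e]
        push_cast
        norm_num
    · have e : w g = -r + 1 / 2 := by linarith
      have h3 : (0 : ℚ) ≤ r := by linarith [h1.2]
      have h4 : (r : ℚ) ≤ 1 := by linarith [h1.1]
      have h5 : 0 ≤ r := by exact_mod_cast h3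
      have h6 : r ≤ 1 := by exact_mod_cast h4
      have h7 : r = 1 ∨ r = 0 := by omega
      rcases h7 with rfl | rfl
      · right
        rw [e]
        push_cast
        norm_num
      · left
        rw [e]
        push_cast
        norm_num
  have hv2 : ∀ k, v k = 1 / 2 ∨ v k = -(1 / 2) := by
    intro k
    have e : v k = rho g v (k * g⁻¹) := by
      rw [rho_apply, inv_mul_cancel_right]
    rcases hg with h | h
    · rw [e, h]
      exact hw2 _
    · rw [e, h, Pi.neg_apply]
      rcases hw2 (k * g⁻¹) with h | h <;> rw [h]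
      · exact Or.inr rfl
      · left
        norm_num
  exact wu.1 (X.eq_of_half (by omega) (by omega) hv2 hs)

theorem no_two_one_one [Fintype G] (hc : Fintype.card X.S ≤ 10) {v w u : G → ℚ}
    (hv : 2 ≤ X.m v) (hw : 1 ≤ X.m w) (hu : 1 ≤ X.m u) (v0 : v ≠ 0) (w0 : w ≠ 0) (u0 : u ≠ 0)
    (vw : NE v w) (vu : NE v u) (wu : NE w u) (hs : ∀ k, 2 * v k + w k + u k = 0) : False := by
  by_cases hf : Fixed v
  · exact X.no_fixed hc hv hw hu v0 w0 u0 vw vu wu hs hf
  · have : ∃ g, NE (rho g v) v := by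
      by_contra h
      push Not at h
      exact hf (fixed_of h)
    obtain ⟨g, hg⟩ := this
    by_cases h1 : NE (rho g v) w
    · by_cases h2 : NE (rho g v) u
      · have := X.half [rho g v, v, w, u] (by simpa using ⟨⟨hg, h1, h2⟩, ⟨vw, vu⟩, wu⟩) (by
          intro u hu
          simp only [List.mem_cons, List.not_mem_nil, or_false] at hu
          rcases hu with rfl | rfl | rfl | rfl
          · exact fun h => v0 (rho_eq_zero h)
          · exact v0
          · exact w0
          · exact u0)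
        simp only [List.map_cons, List.map_nil, List.sum_cons, List.sum_nil, X.m_rho] at this
        omega
      · exact X.no_conj hc hv hw v0 u0 w0 vu vw wu.symm (fun k => by linarith [hs k]) g (not_NE h2)
    · exact X.no_conj hc hv hu v0 w0 u0 vw vu wu hs g (not_NE h1)

end CMDatum

end Pc0b458F
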