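import Pool.Agent.Lib.Pc0b458F.Main

/-!
# Specialisation, and the exceptional family
-/

universe u

namespace Pc0b458F

open Pc0b458

/-- Specialisation of the abelian varieties over a field `k` of characteristic `p` to an algebraic
closure of the field with `p` elements, at the places of an algebraic closure of `k` where there
is good reduction. -/
structure Specialisation (T : NumTheory.{u}) (T₀ : FpTheory.{u}) where
  /-- the reductions of `A` -/
  sp : T.AV → Set T₀.AV
  dim_eq : ∀ A, ∀ A₀ ∈ sp A, T₀.dim A₀ = T.dim A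
  /-- Polarisations specialise to polarisations. A primitive class is the class of an algebraic
  cycle which is primitive for homological equivalence, and the specialisation of this cycle is
  primitive and has the same self intersection. -/
  prim : ∀ A, ∀ A₀ ∈ sp A, ∀ L ∈ T.Pol A, ∃ L₀ ∈ T₀.Pol A₀, ∀ n, 2 * n ≤ T.dim A →
    ∀ x ∈ T.cod A n, L ^ (T.dim A - 2 * n + 1) * x = 0 →
      ∃ x₀ ∈ T₀.cod A₀ n, L₀ ^ (T.dim A - 2 * n + 1) * x₀ = 0 ∧
        T₀.deg A₀ (x₀ * x₀ * L₀ ^ (T.dim A - 2 * n)) = T.deg A (x * x * L ^ (T.dim A - 2 * n))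

theorem Specialisation.q1 {T : NumTheory.{u}} {T₀ : FpTheory.{u}} (S : Specialisation T T₀)
    {A : T.AV} {A₀ : T₀.AV} (h : A₀ ∈ S.sp A) (hq : Q1 T₀.toNumTheory A₀) : Q1 T A := by
  intro L hL n hn
  obtain ⟨L₀, hL₀, hx⟩ := S.prim A A₀ h L hL
  have hd := S.dim_eq A A₀ h
  refine NumTheory.pos_of_psd A hL hn fun x hxc hxp => ?_
  obtain ⟨x₀, hx₀, hp₀, he⟩ := hx n hn x hxc hxp
  rw [← he]
  by_cases h0 : x₀ = 0
  · rw [h0, zero_mul, zero_mul, map_zero, mul_zero]
  · have := hq L₀ hL₀ n (by rw [hd]; exact hn) x₀ hx₀ h0 (by rw [hd]; exact hp₀)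
    rw [hd] at this
    exact this.le

/-- the number of slopes zero at a place -/
def zeroSlopes {G : Type} (M : Multiset (G → ℚ)) (g : G) : ℕ := M.countP fun f => f g = 0

theorem Exceptional.card {G : Type} {M : Multiset (G → ℚ)} (h : Exceptional M) :
    Multiset.card M = 10 := by
  obtain ⟨β, γ, -, -, -, rfl⟩ := h
  rw [Multiset.card_map]
  rfl

theorem Exceptional.zeroSlopes {G : Type} {M : Multiset (G → ℚ)} (h : Exceptional M) (g : G) :
    zeroSlopes M g = 3 := by
  obtain ⟨β, γ, -, -, hv, rfl⟩ := h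
  unfold Pc0b458F.zeroSlopes
  rw [Multiset.countP_map]
  have key : ∀ (b c : ℚ), β g = b → γ g = c →
      Multiset.card (Multiset.filter (fun a : G → ℚ => 1 / 2 + a g = 0)
        {β, γ, β + γ, β - γ, -β, -γ, -(β + γ), -(β - γ), 0, 0}) =
      Multiset.card (Multiset.filter (fun a : ℚ => 1 / 2 + a = 0)
        {b, c, b + c, b - c, -b, -c, -(b + c), -(b - c), 0, 0}) := by
    intro b c hb hc
    have e : ({b, c, b + c, b - c, -b, -c, -(b + c), -(b - c), 0, 0} : Multiset ℚ) =
        Multiset.map (fun a : G → ℚ => a g)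
          {β, γ, β + γ, β - γ, -β, -γ, -(β + γ), -(β - γ), 0, 0} := by
      subst hb
      subst hc
      rfl
    rw [e, Multiset.filter_map, Multiset.card_map]
    rfl
  rcases hv g with ⟨h1, h2 | h2⟩ | ⟨h1, h2 | h2⟩
  · rw [key _ _ h1 h2]
    decide +kernel
  · rw [key _ _ h1 h2]
    decide +kernel
  · rw [key _ _ h2 h1]
    decide +kernel
  · rw [key _ _ h2 h1]
    decide +kernel

theorem FpTheory.card_sl (T : FpTheory.{u}) (A : T.AV) :
    Multiset.card (T.sl A) = 2 * T.dim A := by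
  obtain ⟨H, hH⟩ := T.nonsplit A
  obtain ⟨X, L, hsl, hcard, -⟩ := T.cm A H hH
  rw [← hsl, ← hcard, CMDatum.slopes, Multiset.card_map]
  rfl

end Pc0b458F
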