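import Pool.Agent.Lib.Pc0b458F.Class2
import Pool.Agent.Lib.Pc0b458.Indep

/-!
# Numerical cycles on abelian varieties over an algebraic closure of a finite field

`FpTheory` adds to `Pc0b458.NumTheory` well known properties of the numerical cycle classes on
the abelian varieties over an algebraic closure of the field with `p` elements.
-/

universe u

namespace Pc0b458F

open Pc0b458

/-- `H` is the Galois group of `K` over an imaginary quadratic subfield in which `p` does not
split -/
def IsNonsplit {G : Type} [Group G] (D : Subgroup G) (c : G) (H : Subgroup G) : Prop :=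
  H.index = 2 ∧ c ∉ H ∧ ¬ D ≤ H

/-- The decomposition of the space of cycle classes of codimension `n` on `A` under the action
of the CM algebra `E` of the datum `X`; here `L` is a polarisation whose Rosati involution is
complex conjugation on `E`. The space `V J` consists of the classes in the direct sum of the
lines `L_J'` of the cohomology, for `J'` in the orbit of `J`. -/
structure Decomp (T : NumTheory.{u}) (A : T.AV) {G : Type} [Group G] {D : Subgroup G} {c : G}
    (X : CMDatum G D c) (L : T.Z A) (n : ℕ) where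
  V : Finset X.S → Submodule ℚ (T.Z A)
  V_tr : ∀ (g : G) (J : Finset X.S), V (X.tr g J) = V J
  cod_eq : T.cod A n = ⨆ J ∈ Finset.powersetCard (2 * n) (Finset.univ : Finset X.S), V J
  /-- the Frobenius eigenvalue on `L_J` is `q ^ n` times a root of unity if `V J` is not zero -/
  tate : ∀ J : Finset X.S, J.card = 2 * n → V J ≠ ⊥ → X.Tate n J
  /-- Tate's theorem for divisors -/
  lef : ∀ J : Finset X.S, J.card = 2 * n → X.PairUnion J → V J ≤ Lef T.toCycleRings A n
  /-- `L` is a sum of classes in the lines `L_{x, c x}` -/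
  prim : ∀ J : Finset X.S, J.card = 2 * n → X.Free J → ∀ x ∈ V J,
    L ^ (T.dim A - 2 * n + 1) * x = 0
  orth : ∀ J J' : Finset X.S, J.card = 2 * n → J'.card = 2 * n → X.Free J →
    (∀ g : G, X.tr g J ≠ J') → ∀ x ∈ V J, ∀ y ∈ V J',
      T.deg A (x * y * L ^ (T.dim A - 2 * n)) = 0
  /-- Ancona's theorem on motives of rank two which lift to characteristic zero -/
  ancona : ∀ J : Finset X.S, J.card = 2 * n → X.Free J → X.RankTwo J → ∀ x ∈ V J, x ≠ 0 →
    0 < (-1) ^ n * T.deg A (x * x * L ^ (T.dim A - 2 * n))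

/-- Numerical cycle classes on the abelian varieties over an algebraic closure of the field with
`p` elements. For every abelian variety `A` a finite Galois CM extension `K` of the rationals is
chosen which is large enough. -/
structure FpTheory extends NumTheory.{u} where
  /-- the Galois group of `K` -/
  Gal : AV → Type
  [grp : ∀ A, Group (Gal A)]
  [finGal : ∀ A, Fintype (Gal A)]
  /-- the decomposition group of a place above `p` -/
  dec : ∀ A, Subgroup (Gal A)
  /-- complex conjugation -/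
  conj : ∀ A, Gal A
  /-- for each Frobenius eigenvalue the family of the slopes of its conjugates -/
  sl : ∀ A, Multiset (Gal A → ℚ)
  /-- `K` contains an imaginary quadratic field in which `p` does not split -/
  nonsplit : ∀ A, ∃ H : Subgroup (Gal A), IsNonsplit (dec A) (conj A) H
  /-- Complex multiplication (Tate, Honda, Shimura, Taniyama): for every imaginary quadratic
  subfield in which `p` does not split, there is a CM algebra `E` which acts on `A` up to
  isogeny, compatibly with a lift of `A` to characteristic zero, and which acts on the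
  supersingular part of `A` through this imaginary quadratic field. -/
  cm : ∀ A (H : Subgroup (Gal A)), IsNonsplit (dec A) (conj A) H →
    ∃ (X : CMDatum (Gal A) (dec A) (conj A)) (L : Z A),
      X.slopes = sl A ∧ Fintype.card X.S = 2 * dim A ∧
      (∀ x : X.S, (∀ g : Gal A, X.s (g • x) = 1 / 2) → ∀ h ∈ H, h • x = x) ∧
      L ∈ Pol A ∧ ∀ n, 2 * n ≤ dim A → Nonempty (Decomp toNumTheory A X L n)

attribute [instance] FpTheory.grp FpTheory.finGal

section Decomp

variable {T : NumTheory.{u}} {A : T.AV} {G : Type} [Group G] {D : Subgroup G} {c : G}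
  {X : CMDatum G D c} {L : T.Z A} {n : ℕ}

theorem tr_mul (g h : G) (J : Finset X.S) : X.tr (g * h) J = X.tr g (X.tr h J) := by
  rw [CMDatum.tr, CMDatum.tr, CMDatum.tr, Finset.image_image]
  refine Finset.image_congr fun x _ => ?_
  exact mul_smul g h x

theorem tr_one (J : Finset X.S) : X.tr 1 J = J := by
  rw [CMDatum.tr]
  have : (fun x : X.S => (1 : G) • x) = id := funext fun x => one_smul G x
  rw [this, Finset.image_id]

theorem card_tr (g : G) (J : Finset X.S) : (X.tr g J).card = J.card :=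
  Finset.card_image_of_injective _ fun _ _ h => X.smul_inj h

/-- the orbit relation -/
def orb (X : CMDatum G D c) : Setoid (Finset X.S) where
  r J J' := ∃ g : G, X.tr g J = J'
  iseqv := by
    refine ⟨fun J => ⟨1, tr_one J⟩, ?_, ?_⟩
    · rintro J J' ⟨g, rfl⟩
      exact ⟨g⁻¹, by rw [← tr_mul, inv_mul_cancel, tr_one]⟩
    · rintro J J' J'' ⟨g, rfl⟩ ⟨h, rfl⟩
      exact ⟨h * g, tr_mul h g J⟩

/-- a representative of the orbit -/
noncomputable def rep (X : CMDatum G D c) (J : Finset X.S) : Finset X.S :=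
  Quotient.out (Quotient.mk (orb X) J)

theorem rep_spec (J : Finset X.S) : ∃ g : G, X.tr g J = rep X J := by
  have h : (orb X).r (rep X J) J := Quotient.exact (Quotient.out_eq (Quotient.mk (orb X) J))
  exact (orb X).symm h

theorem rep_eq {J J' : Finset X.S} (h : ∃ g : G, X.tr g J = J') : rep X J = rep X J' := by
  unfold rep
  rw [Quotient.sound (s := orb X) h]

theorem hsc_of_decomp (hL : L ∈ T.Pol A) (hn : 2 * n ≤ T.dim A) (dc : Decomp T A X L n)
    (hgood : ∀ J, X.Tate n J → X.PairUnion J ∨ (X.Free J ∧ X.RankTwo J)) :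
    HSC T.toCycleRings A L n := by
  classical
  intro x hx hx0 hxp
  set S₀ := Finset.powersetCard (2 * n) (Finset.univ : Finset X.S) with hS₀
  have hS₀m : ∀ J, J ∈ S₀ ↔ J.card = 2 * n := by
    intro J
    rw [hS₀, Finset.mem_powersetCard]
    exact ⟨fun h => h.2, fun h => ⟨Finset.subset_univ _, h⟩⟩
  set R := S₀.filter fun J => rep X J = J with hR
  have hsup : x ∈ ⨆ J ∈ R, dc.V J := by
    rw [dc.cod_eq] at hx
    refine (iSup₂_le fun J hJ => ?_ : (⨆ J ∈ S₀, dc.V J) ≤ ⨆ J ∈ R, dc.V J) hx
    obtain ⟨g, hg⟩ := rep_spec J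
    have h1 : rep X J ∈ R := by
      rw [hR, Finset.mem_filter, hS₀m]
      refine ⟨?_, (rep_eq ⟨g, hg⟩).symm⟩
      rw [← hg, card_tr]
      exact (hS₀m J).1 hJ
    rw [← dc.V_tr g J, hg]
    exact le_iSup₂_of_le (rep X J) h1 le_rfl
  rw [Submodule.mem_iSup_finset_iff_exists_sum] at hsup
  obtain ⟨μ, hμ⟩ := hsup
  have hRc : ∀ J ∈ R, J.card = 2 * n := fun J hJ => (hS₀m J).1 (Finset.mem_filter.1 hJ).1
  -- pairs and exotic classes
  set P := R.filter fun J => X.PairUnion J with hP
  set E := R.filter fun J => ¬ X.PairUnion J with hE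
  have hPm : ∀ J ∈ P, J ∈ R ∧ X.PairUnion J := fun J hJ => Finset.mem_filter.1 hJ
  have hEm : ∀ J ∈ E, J ∈ R ∧ ¬ X.PairUnion J := fun J hJ => Finset.mem_filter.1 hJ
  have hEgood : ∀ J ∈ E, (μ J : T.Z A) ≠ 0 → X.Free J ∧ X.RankTwo J := by
    intro J hJ h0
    have h1 : dc.V J ≠ ⊥ := fun h => h0 ((Submodule.eq_bot_iff _).1 h _ (μ J).2)
    exact (hgood J (dc.tate J (hRc J (hEm J hJ).1) h1)).resolve_left (hEm J hJ).2
  set y := ∑ J ∈ P, (μ J : T.Z A) with hy
  set z := ∑ J ∈ E, (μ J : T.Z A) with hz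
  have hxyz : x = y + z := by
    rw [← hμ, hy, hz, hP, hE, Finset.sum_filter_add_sum_filter_not]
  have hyLef : y ∈ Lef T.toCycleRings A n :=
    Submodule.sum_mem _ fun J hJ => dc.lef J (hRc J (hPm J hJ).1) (hPm J hJ).2 (μ J).2
  have hzp : L ^ (T.dim A - 2 * n + 1) * z = 0 := by
    rw [hz, Finset.mul_sum]
    refine Finset.sum_eq_zero fun J hJ => ?_
    by_cases h0 : (μ J : T.Z A) = 0
    · rw [h0, mul_zero]
    · exact dc.prim J (hRc J (hEm J hJ).1) (hEgood J hJ h0).1 _ (μ J).2
  have hyp : L ^ (T.dim A - 2 * n + 1) * y = 0 := by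
    have : y = x - z := by rw [hxyz, add_sub_cancel_right]
    rw [this, mul_sub, hxp, hzp, sub_zero]
  set K := L ^ (T.dim A - 2 * n) with hK
  -- orthogonality
  have horth : ∀ J ∈ E, ∀ J' ∈ R, J' ≠ J →
      T.deg A ((μ J : T.Z A) * (μ J' : T.Z A) * K) = 0 := by
    intro J hJ J' hJ' hne
    by_cases h0 : (μ J : T.Z A) = 0
    · rw [h0, zero_mul, zero_mul, map_zero]
    · refine dc.orth J J' (hRc J (hEm J hJ).1) (hRc J' hJ') (hEgood J hJ h0).1 ?_ _ (μ J).2 _
        (μ J').2
      intro g hg
      apply hne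
      have h1 := rep_eq ⟨g, hg⟩
      have h2 := (Finset.mem_filter.1 hJ').2
      have h3 := (Finset.mem_filter.1 (hEm J hJ).1).2
      rw [← h2, ← h1, h3]
  have hyz : T.deg A (z * y * K) = 0 := by
    rw [hz, hy, Finset.sum_mul, Finset.sum_mul, map_sum]
    refine Finset.sum_eq_zero fun J hJ => ?_
    rw [Finset.mul_sum, Finset.sum_mul, map_sum]
    refine Finset.sum_eq_zero fun J' hJ' => ?_
    refine horth J hJ J' (hPm J' hJ').1 ?_
    rintro rfl
    exact (hEm _ hJ).2 (hPm _ hJ').2
  have hzz : T.deg A (z * z * K) = ∑ J ∈ E, T.deg A ((μ J : T.Z A) * (μ J : T.Z A) * K) := by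
    conv_lhs => rw [hz, Finset.sum_mul, Finset.sum_mul, map_sum]
    refine Finset.sum_congr rfl fun J hJ => ?_
    rw [Finset.mul_sum, Finset.sum_mul, map_sum]
    refine Finset.sum_eq_single_of_mem J hJ fun J' hJ' hne => ?_
    exact horth J hJ J' (hEm J' hJ').1 hne
  have hexp : (-1 : ℚ) ^ n * T.deg A (x * x * K) =
      (-1) ^ n * T.deg A (y * y * K) +
        ∑ J ∈ E, (-1) ^ n * T.deg A ((μ J : T.Z A) * (μ J : T.Z A) * K) := by
    have e : x * x * K = y * y * K + (z * y * K + z * y * K) + z * z * K := by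
      rw [hxyz]
      ring
    rw [e, map_add, map_add, map_add, hyz, add_zero, add_zero, hzz, mul_add]
    congr 1
    exact Finset.mul_sum _ _ _
  have hEpos : ∀ J ∈ E, (μ J : T.Z A) ≠ 0 →
      0 < (-1 : ℚ) ^ n * T.deg A ((μ J : T.Z A) * (μ J : T.Z A) * K) := fun J hJ h0 =>
    dc.ancona J (hRc J (hEm J hJ).1) (hEgood J hJ h0).1 (hEgood J hJ h0).2 _ (μ J).2 h0
  have hEnn : ∀ J ∈ E, 0 ≤ (-1 : ℚ) ^ n * T.deg A ((μ J : T.Z A) * (μ J : T.Z A) * K) := by
    intro J hJ
    by_cases h0 : (μ J : T.Z A) = 0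
    · rw [h0, zero_mul, zero_mul, map_zero, mul_zero]
    · exact (hEpos J hJ h0).le
  have hynn : 0 ≤ (-1 : ℚ) ^ n * T.deg A (y * y * K) := by
    by_cases h0 : y = 0
    · rw [h0, zero_mul, zero_mul, map_zero, mul_zero]
    · exact (T.lef_pos A L n hL hn y hyLef h0 hyp).le
  rw [hexp]
  by_cases hy0 : y = 0
  · have hz0 : z ≠ 0 := by
      intro h
      apply hx0
      rw [hxyz, hy0, h, add_zero]
    obtain ⟨J, hJ, hJ0⟩ := Finset.exists_ne_zero_of_sum_ne_zero hz0
    have := Finset.sum_pos' hEnn ⟨J, hJ, hEpos J hJ hJ0⟩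
    linarith
  · have h1 := T.lef_pos A L n hL hn y hyLef hy0 hyp
    have h2 := Finset.sum_nonneg hEnn
    linarith

end Decomp

end Pc0b458F
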