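import Pool.Agent.Lib.Pc0b458F.Quad2

/-!
# Three slopes with sum zero, together with a slope zero
-/

namespace Pc0b458F

/-- The exceptional family: the slopes are `1/2 ± β`, `1/2 ± γ`, `1/2 ± (β + γ)`,
`1/2 ± (β - γ)`, `1/2`, `1/2`, where at every place exactly one of `β`, `γ` is zero and the other
one is `1/2` or `-1/2`. -/
def Exceptional {G : Type} (M : Multiset (G → ℚ)) : Prop :=
  ∃ β γ : G → ℚ, β ≠ 0 ∧ γ ≠ 0 ∧
    (∀ g, (β g = 0 ∧ (γ g = 1 / 2 ∨ γ g = -(1 / 2))) ∨
      (γ g = 0 ∧ (β g = 1 / 2 ∨ β g = -(1 / 2)))) ∧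
    M = Multiset.map (fun f g => 1 / 2 + f g)
      {β, γ, β + γ, β - γ, -β, -γ, -(β + γ), -(β - γ), 0, 0}

namespace CMDatum

variable {G : Type} [Group G] {D : Subgroup G} {c : G} {X : CMDatum G D c}

theorem bad {β γ : G → ℚ} (hβ : X.m β = 1) (hγ : X.m γ = 1) (hs : X.m (β + γ) = 1)
    (β0 : β ≠ 0) (βγ : NE β γ)
    (h1 : ∀ h, (rho h β = β ∨ rho h β = -β) ∨ (rho h β = γ ∨ rho h β = -γ))
    (h2 : ∀ h, (rho h γ = β ∨ rho h γ = -β) ∨ (rho h γ = γ ∨ rho h γ = -γ))
    (e : β 1 = γ 1) : False := by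
  have b0 : β 1 ≠ 0 := by
    intro h
    apply β0
    funext k
    have h3 := rho_at_one k β
    rcases h1 k with (h' | h') | (h' | h') <;> rw [h'] at h3 <;>
      (try rw [Pi.neg_apply] at h3) <;> rw [Pi.zero_apply] <;> linarith
  have hd : ∀ d ∈ D, (rho d β = β ∧ rho d γ = γ) ∨ (rho d β = γ ∧ rho d γ = β) := by
    intro d hd
    have e1 := X.v_dec (by omega : X.m β ≠ 0) hd
    have e2 := X.v_dec (by omega : X.m γ ≠ 0) hd
    have hne := βγ.rho d
    rcases h1 d with (h | h) | (h | h) <;> rcases h2 d with (h' | h') | (h' | h') <;>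
      rw [h, h'] at hne
    · exact absurd rfl hne.1
    · exact absurd (by rw [neg_neg]) hne.2
    · exact Or.inl ⟨h, h'⟩
    · exfalso
      rw [h', Pi.neg_apply] at e2
      exact b0 (by linarith)
    · exfalso
      rw [h, Pi.neg_apply] at e1
      exact b0 (by linarith)
    · exfalso
      rw [h, Pi.neg_apply] at e1
      exact b0 (by linarith)
    · exfalso
      rw [h, Pi.neg_apply] at e1
      exact b0 (by linarith)
    · exfalso
      rw [h, Pi.neg_apply] at e1
      exact b0 (by linarith)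
    · exact Or.inr ⟨h, h'⟩
    · exfalso
      rw [h', Pi.neg_apply] at e2
      exact b0 (by linarith)
    · exact absurd rfl hne.1
    · exact absurd (by rw [neg_neg]) hne.2
    · exfalso
      rw [h, Pi.neg_apply] at e1
      exact b0 (by linarith)
    · exfalso
      rw [h, Pi.neg_apply] at e1
      exact b0 (by linarith)
    · exfalso
      rw [h, Pi.neg_apply] at e1
      exact b0 (by linarith)
    · exfalso
      rw [h, Pi.neg_apply] at e1
      exact b0 (by linarith)
  obtain ⟨n, hn⟩ := X.int_pair βγ.1 hd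
  have hsd : ∀ d ∈ D, rho d (β + γ) = β + γ := by
    intro d hd'
    rw [rho_add]
    rcases hd d hd' with ⟨h, h'⟩ | ⟨h, h'⟩
    · rw [h, h']
    · rw [h, h', add_comm]
  rw [hβ, hγ] at hn
  push_cast at hn
  rcases X.half_of_one hs hsd with h | h <;> rw [Pi.add_apply] at h
  · have h7 : (2 * n : ℚ) = 3 := by rw [← hn]; linarith
    have h8 : 2 * n = 3 := by exact_mod_cast h7
    omega
  · have h7 : (2 * n : ℚ) = 1 := by rw [← hn]; linarith
    have h8 : 2 * n = 1 := by exact_mod_cast h7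
    omega

theorem val {β γ : G → ℚ} (hβ : X.m β = 1) (hγ : X.m γ = 1) (hs : X.m (β + γ) = 1)
    (hd : X.m (β - γ) = 1) (β0 : β ≠ 0) (βγ : NE β γ)
    (h1 : ∀ h, (rho h β = β ∨ rho h β = -β) ∨ (rho h β = γ ∨ rho h β = -γ))
    (h2 : ∀ h, (rho h γ = β ∨ rho h γ = -β) ∨ (rho h γ = γ ∨ rho h γ = -γ)) :
    ∀ g, (β g = 0 ∧ (γ g = 1 / 2 ∨ γ g = -(1 / 2))) ∨
      (γ g = 0 ∧ (β g = 1 / 2 ∨ β g = -(1 / 2))) := by
  have hne1 : β 1 ≠ γ 1 := fun e => bad hβ hγ hs β0 βγ h1 h2 e
  have hne2 : β 1 ≠ -γ 1 := by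
    intro e
    refine bad (γ := -γ) hβ (by rw [X.m_neg, hγ]) (by rw [← sub_eq_add_neg, hd]) β0
      βγ.neg_right ?_ ?_ (by rw [Pi.neg_apply]; exact e)
    · intro h
      rw [neg_neg]
      rcases h1 h with h3 | h3
      · exact Or.inl h3
      · exact Or.inr h3.symm
    · intro h
      rw [rho_neg, neg_neg]
      rcases h2 h with (h3 | h3) | (h3 | h3) <;> rw [h3]
      · exact Or.inl (Or.inr rfl)
      · exact Or.inl (Or.inl (neg_neg _))
      · exact Or.inr (Or.inl rfl)
      · exact Or.inr (Or.inr (neg_neg _))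
  obtain ⟨s1, s2⟩ := X.v_abs (by omega : X.m (β + γ) ≠ 0) 1
  obtain ⟨d1, d2⟩ := X.v_abs (by omega : X.m (β - γ) ≠ 0) 1
  rw [Pi.add_apply] at s1 s2
  rw [Pi.sub_apply] at d1 d2
  have one : (β 1 = 0 ∧ (γ 1 = 1 / 2 ∨ γ 1 = -(1 / 2))) ∨
      (γ 1 = 0 ∧ (β 1 = 1 / 2 ∨ β 1 = -(1 / 2))) := by
    by_cases hb : β 1 = 0
    · left
      refine ⟨hb, X.half_of_one hγ fun d hd => ?_⟩
      have e1 := X.v_dec (by omega : X.m γ ≠ 0) hd
      rcases h2 d with (h | h) | (h | h)
      · rw [h] at e1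
        exact absurd e1 hne1
      · rw [h, Pi.neg_apply] at e1
        exact absurd (by linarith) hne2
      · exact h
      · rw [h, Pi.neg_apply] at e1
        exact absurd (by rw [hb]; linarith) hne1
    · right
      have h3 := X.half_of_one hβ fun d hd => by
        have e1 := X.v_dec (by omega : X.m β ≠ 0) hd
        rcases h1 d with (h | h) | (h | h)
        · exact h
        · rw [h, Pi.neg_apply] at e1
          exact absurd (by linarith) hb
        · rw [h] at e1
          exact absurd e1.symm hne1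
        · rw [h, Pi.neg_apply] at e1
          exact absurd (by linarith) hne2
      refine ⟨?_, h3⟩
      rcases h3 with h3 | h3 <;> rw [h3] at s1 s2 d1 d2 <;> linarith
  intro g
  have hne := βγ.rho g
  have e1 := rho_at_one g β
  have e2 := rho_at_one g γ
  rcases h1 g with (h | h) | (h | h) <;> rcases h2 g with (h' | h') | (h' | h') <;>
    rw [h, h'] at hne <;> rw [h] at e1 <;> rw [h'] at e2 <;>
    (try rw [Pi.neg_apply] at e1) <;> (try rw [Pi.neg_apply] at e2) <;> rw [← e1, ← e2]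
  · exact absurd rfl hne.1
  · exact absurd (by rw [neg_neg]) hne.2
  · exact one
  · rcases one with ⟨o1, o2 | o2⟩ | ⟨o1, o2⟩
    · exact Or.inl ⟨o1, Or.inr (by rw [o2])⟩
    · exact Or.inl ⟨o1, Or.inl (by rw [o2, neg_neg])⟩
    · exact Or.inr ⟨by rw [o1, neg_zero], o2⟩
  · exact absurd rfl hne.2
  · exact absurd rfl hne.1
  · rcases one with ⟨o1, o2⟩ | ⟨o1, o2 | o2⟩
    · exact Or.inl ⟨by rw [o1, neg_zero], o2⟩
    · exact Or.inr ⟨o1, Or.inr (by rw [o2])⟩
    · exact Or.inr ⟨o1, Or.inl (by rw [o2, neg_neg])⟩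
  · rcases one with ⟨o1, o2 | o2⟩ | ⟨o1, o2 | o2⟩
    · exact Or.inl ⟨by rw [o1, neg_zero], Or.inr (by rw [o2])⟩
    · exact Or.inl ⟨by rw [o1, neg_zero], Or.inl (by rw [o2, neg_neg])⟩
    · exact Or.inr ⟨by rw [o1, neg_zero], Or.inr (by rw [o2])⟩
    · exact Or.inr ⟨by rw [o1, neg_zero], Or.inl (by rw [o2, neg_neg])⟩
  · rcases one with ⟨o1, o2⟩ | ⟨o1, o2⟩
    · exact Or.inr ⟨o1, o2⟩
    · exact Or.inl ⟨o1, o2⟩
  · rcases one with ⟨o1, o2⟩ | ⟨o1, o2 | o2⟩
    · exact Or.inr ⟨by rw [o1, neg_zero], o2⟩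
    · exact Or.inl ⟨o1, Or.inr (by rw [o2])⟩
    · exact Or.inl ⟨o1, Or.inl (by rw [o2, neg_neg])⟩
  · exact absurd rfl hne.1
  · exact absurd (by rw [neg_neg]) hne.2
  · rcases one with ⟨o1, o2 | o2⟩ | ⟨o1, o2⟩
    · exact Or.inr ⟨o1, Or.inr (by rw [o2])⟩
    · exact Or.inr ⟨o1, Or.inl (by rw [o2, neg_neg])⟩
    · exact Or.inl ⟨by rw [o1, neg_zero], o2⟩
  · rcases one with ⟨o1, o2 | o2⟩ | ⟨o1, o2 | o2⟩
    · exact Or.inr ⟨by rw [o1, neg_zero], Or.inr (by rw [o2])⟩
    · exact Or.inr ⟨by rw [o1, neg_zero], Or.inl (by rw [o2, neg_neg])⟩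
    · exact Or.inl ⟨by rw [o1, neg_zero], Or.inr (by rw [o2])⟩
    · exact Or.inl ⟨by rw [o1, neg_zero], Or.inl (by rw [o2, neg_neg])⟩
  · exact absurd rfl hne.2
  · exact absurd rfl hne.1

theorem fn_eq (x : X.S) : X.fn x = fun g => 1 / 2 + X.a x g := by
  funext g
  rw [a_apply]
  show X.s (g • x) = _
  ring

theorem exc_of (hc : Fintype.card X.S ≤ 10) {x₀ : X.S} (hx₀ : X.a x₀ = 0) {p q r s : X.S}
    (hr : X.a r = X.a p + X.a q) (hs : X.a s = X.a p - X.a q) (p0 : X.a p ≠ 0)
    (q0 : X.a q ≠ 0) (r0 : X.a r ≠ 0) (s0 : X.a s ≠ 0)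
    (hpw : [X.a p, X.a q, X.a r, X.a s].Pairwise NE)
    (h1 : ∀ h, (rho h (X.a p) = X.a p ∨ rho h (X.a p) = -X.a p) ∨
      (rho h (X.a p) = X.a q ∨ rho h (X.a p) = -X.a q))
    (h2 : ∀ h, (rho h (X.a q) = X.a p ∨ rho h (X.a q) = -X.a p) ∨
      (rho h (X.a q) = X.a q ∨ rho h (X.a q) = -X.a q)) : Exceptional X.slopes := by
  have hz := X.zero_two hx₀
  have hb := X.half [X.a p, X.a q, X.a r, X.a s] hpw (by
    intro v hv
    simp only [List.mem_cons, List.not_mem_nil, or_false] at hv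
    rcases hv with rfl | rfl | rfl | rfl <;> assumption)
  simp only [List.map_cons, List.map_nil, List.sum_cons, List.sum_nil] at hb
  have mp := X.m_pos p
  have mq := X.m_pos q
  have mr := X.m_pos r
  have ms := X.m_pos s
  have hpq : NE (X.a p) (X.a q) := by
    simp only [List.pairwise_cons, List.mem_cons, List.not_mem_nil, or_false] at hpw
    exact hpw.1 _ (Or.inl rfl)
  refine ⟨X.a p, X.a q, p0, q0, ?_, ?_⟩
  · refine val (X := X) (by omega) (by omega) ?_ ?_ p0 hpq h1 h2
    · rw [← hr]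
      omega
    · rw [← hs]
      omega
  · classical
    have hnd : ([p, q, r, s] ++ [c • p, c • q, c • r, c • s] ++ [x₀, c • x₀]).Nodup := by
      have hneg : ∀ v ∈ [X.a p, X.a q, X.a r, X.a s], v ≠ -v := by
        intro v hv h
        have hv0 : v ≠ 0 := by
          simp only [List.mem_cons, List.not_mem_nil, or_false] at hv
          rcases hv with rfl | rfl | rfl | rfl <;> assumption
        apply hv0
        funext g
        have := congrFun h g
        rw [Pi.neg_apply] at this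
        rw [Pi.zero_apply]
        linarith
      have h8 : (([p, q, r, s] ++ [c • p, c • q, c • r, c • s]).map X.a).Nodup := by
        have e : ([p, q, r, s] ++ [c • p, c • q, c • r, c • s]).map X.a =
            [X.a p, X.a q, X.a r, X.a s] ++ [X.a p, X.a q, X.a r, X.a s].map fun v => -v := by
          simp only [List.map_append, List.map_cons, List.map_nil, X.a_conj]
        rw [e, List.nodup_append]
        refine ⟨hpw.imp fun h => h.1, List.Nodup.map neg_injective (hpw.imp fun h => h.1), ?_⟩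
        intro v hv w hw e
        rw [List.mem_map] at hw
        obtain ⟨u, hu, rfl⟩ := hw
        by_cases h : v = u
        · rw [h] at e
          exact hneg u hu e
        · exact (hpw.forall hv hu h).2 e
      have h9 := List.Nodup.of_map _ h8
      rw [List.nodup_append]
      refine ⟨h9, ?_, ?_⟩
      · simpa using (X.conj_ne x₀).symm
      · intro v hv w hw e
        have hw0 : X.a w = 0 := by
          simp only [List.mem_cons, List.not_mem_nil, or_false] at hw
          rcases hw with rfl | rfl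
          · exact hx₀
          · rw [X.a_conj, hx₀, neg_zero]
        have hv0 : X.a v ≠ 0 := by
          simp only [List.mem_append, List.mem_cons, List.not_mem_nil, or_false] at hv
          rcases hv with (rfl | rfl | rfl | rfl) | (rfl | rfl | rfl | rfl) <;>
            first
              | assumption
              | (rw [X.a_conj]; exact neg_ne_zero.2 (by assumption))
        exact hv0 (e ▸ hw0)
    set l := [p, q, r, s] ++ [c • p, c • q, c • r, c • s] ++ [x₀, c • x₀] with hl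
    have hlu : l.toFinset = Finset.univ := by
      refine Finset.eq_univ_of_card _ (le_antisymm (Finset.card_le_univ _) ?_)
      rw [List.toFinset_card_of_nodup hnd]
      exact hc
    have hval : (Finset.univ : Finset X.S).val = (l : Multiset X.S) := by
      rw [← hlu, List.toFinset_val, hnd.dedup]
    rw [slopes, hval]
    rw [Multiset.map_coe, hl]
    have e : X.fn = fun x g => 1 / 2 + X.a x g := funext fun x => fn_eq x
    rw [e]
    simp only [List.map_append, List.map_cons, List.map_nil, X.a_conj, hx₀, hr, hs]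
    rw [neg_zero]
    rfl

end CMDatum

end Pc0b458F
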