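import Pool.Agent.Lib.Pc0b458F.Trip

/-!
# Sets of three slopes with sum zero are closed, outside the exceptional family
-/

namespace Pc0b458F

namespace CMDatum

variable {G : Type} [Group G] [Fintype G] {D : Subgroup G} {c : G} {X : CMDatum G D c}

/-- a set of three nonzero slopes with sum zero, together with a slope zero -/
structure IsTrip (J : Finset X.S) : Prop where
  c10 : Fintype.card X.S ≤ 10
  card : J.card = 3
  n0 : ∀ x ∈ J, X.a x ≠ 0
  sum : ∑ x ∈ J, X.a x = 0
  z0 : ∃ x₀, X.a x₀ = 0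

namespace IsTrip

variable {J : Finset X.S} (hJ : IsTrip J)

include hJ

theorem z2 : 2 ≤ X.m 0 := by
  obtain ⟨x₀, h⟩ := hJ.z0
  exact X.zero_two h

theorem other {p q : X.S} (hp : p ∈ J) (hq : q ∈ J) (hqp : q ≠ p) :
    ∃ r ∈ J, r ≠ p ∧ r ≠ q ∧ (∀ x ∈ J, x = p ∨ x = q ∨ x = r) ∧
      ∀ k, X.a p k + X.a q k + X.a r k = 0 := by
  classical
  have h1 : q ∈ J.erase p := Finset.mem_erase.2 ⟨hqp, hq⟩
  have h3 : ((J.erase p).erase q).card = 1 := by
    rw [Finset.card_erase_of_mem h1, Finset.card_erase_of_mem hp, hJ.card]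
  obtain ⟨r, hr⟩ := Finset.card_eq_one.1 h3
  have hrm : r ∈ (J.erase p).erase q := by
    rw [hr]
    exact Finset.mem_singleton_self r
  simp only [Finset.mem_erase] at hrm
  refine ⟨r, hrm.2.2, hrm.2.1, hrm.1, ?_, ?_⟩
  · intro x hx
    by_contra hcon
    push Not at hcon
    have : x ∈ (J.erase p).erase q := by
      simp only [Finset.mem_erase]
      exact ⟨hcon.2.1, hcon.1, hx⟩
    rw [hr, Finset.mem_singleton] at this
    exact hcon.2.2 this
  · intro k
    have e1 := hJ.sum
    rw [← Finset.add_sum_erase _ _ hp, ← Finset.add_sum_erase _ _ h1, hr,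
      Finset.sum_singleton] at e1
    have := congrFun e1 k
    simp only [Pi.add_apply, Pi.zero_apply] at this
    linarith

theorem ne {p q : X.S} (hp : p ∈ J) (hq : q ∈ J) (hpq : p ≠ q) : NE (X.a p) (X.a q) := by
  classical
  obtain ⟨r, hr, hrp, hrq, -, hsum⟩ := hJ.other hp hq hpq.symm
  constructor
  · intro e
    refine X.no_two_one hJ.c10 (v := X.a p) (w := X.a r) ?_ (X.m_pos r) hJ.z2 (hJ.n0 p hp)
      (fun k => by have := hsum k; rw [← e] at this; linarith)
    have h2 : ({p, q} : Finset X.S) ⊆ X.fib (X.a p) := by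
      intro x hx
      rw [Finset.mem_insert, Finset.mem_singleton] at hx
      rw [mem_fib]
      rcases hx with rfl | rfl
      · rfl
      · exact e.symm
    have h3 := Finset.card_le_card h2
    rw [Finset.card_pair hpq] at h3
    exact h3
  · intro e
    apply hJ.n0 r hr
    funext k
    have := hsum k
    rw [e, Pi.neg_apply] at this
    rw [Pi.zero_apply]
    linarith

theorem free : ∀ x ∈ J, c • x ∉ J := by
  intro x hx hx'
  have h := hJ.ne hx hx' (X.conj_ne x).symm
  exact h.2 (by rw [X.a_conj, neg_neg])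

theorem image (g : G) : IsTrip (J.image fun x => g • x) where
  c10 := hJ.c10
  card := by
    rw [Finset.card_image_of_injective _ fun x x' h => X.smul_inj h, hJ.card]
  n0 := by
    intro x hx
    rw [Finset.mem_image] at hx
    obtain ⟨z, hz, rfl⟩ := hx
    rw [X.a_smul]
    exact fun h => hJ.n0 z hz (rho_eq_zero h)
  sum := by
    rw [Finset.sum_image fun x _ x' _ hxx => X.smul_inj hxx]
    simp only [X.a_smul]
    rw [← rho_sum, hJ.sum, rho_zero]
  z0 := hJ.z0

end IsTrip

/-- a further slope -/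
structure IsOpen3 (J : Finset X.S) (y : X.S) : Prop extends IsTrip J where
  ne' : ∀ x ∈ J, NE (X.a y) (X.a x)
  y0 : X.a y ≠ 0

namespace IsOpen3

variable {J : Finset X.S} {y : X.S} (hy : IsOpen3 J y)

include hy

theorem notMem : y ∉ J := fun h => (hy.ne' y h).1 rfl

theorem notMem' : c • y ∉ J := fun h => (hy.ne' _ h).2 (by rw [X.a_conj, neg_neg])

theorem four : ∀ x ∈ insert y J, X.m (X.a x) = 1 := by
  have h1 := X.halfF (insert y J) (by
    intro x hx x' hx' hne
    rw [Finset.mem_insert] at hx hx'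
    rcases hx with rfl | hx <;> rcases hx' with rfl | hx'
    · exact absurd rfl hne
    · exact hy.ne' x' hx'
    · exact (hy.ne' x hx).symm
    · exact hy.toIsTrip.ne hx hx' hne) (by
    intro x hx
    rw [Finset.mem_insert] at hx
    rcases hx with rfl | hx
    · exact hy.y0
    · exact hy.n0 x hx)
  have hc := hy.c10
  have hz := hy.toIsTrip.z2
  have h2 : (insert y J).card = 4 := by
    rw [Finset.card_insert_of_notMem hy.notMem, hy.card]
  have h3 : ∑ x ∈ insert y J, 1 ≤ ∑ x ∈ insert y J, X.m (X.a x) :=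
    Finset.sum_le_sum fun x _ => X.m_pos x
  rw [Finset.sum_const, h2, smul_eq_mul, mul_one] at h3
  have h4 : ∑ x ∈ insert y J, X.m (X.a x) = ∑ x ∈ insert y J, 1 := by
    rw [Finset.sum_const, h2, smul_eq_mul, mul_one]
    omega
  intro x hx
  exact ((Finset.sum_eq_sum_iff_of_le fun x _ => X.m_pos x).1 h4.symm x hx).symm

theorem m_y : X.m (X.a y) = 1 := hy.four y (Finset.mem_insert_self _ _)

theorem m_x {x : X.S} (hx : x ∈ J) : X.m (X.a x) = 1 :=
  hy.four x (Finset.mem_insert_of_mem hx)

theorem cov (z : X.S) (hz0 : X.a z ≠ 0) : (z = y ∨ z = c • y) ∨ (z ∈ J ∨ c • z ∈ J) := by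
  classical
  by_contra hcon
  push Not at hcon
  have key : ∀ x ∈ insert y J, NE (X.a z) (X.a x) := by
    intro x hx
    by_contra h
    have hm := hy.four x hx
    rcases not_NE h with h | h
    · have := X.eq_of_m h hm
      rw [Finset.mem_insert] at hx
      rcases hx with rfl | hx
      · exact hcon.1.1 this
      · exact hcon.2.1 (this ▸ hx)
    · have h' : X.a (c • z) = X.a x := by rw [X.a_conj, h, neg_neg]
      have := X.eq_of_m h' hm
      rw [Finset.mem_insert] at hx
      rcases hx with rfl | hx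
      · apply hcon.1.2
        rw [← this, X.conj_conj]
      · exact hcon.2.2 (this ▸ hx)
  have h1 := X.halfF (insert z (insert y J)) (by
    intro x hx x' hx' hne
    rw [Finset.mem_insert] at hx hx'
    rcases hx with rfl | hx <;> rcases hx' with rfl | hx'
    · exact absurd rfl hne
    · exact key x' hx'
    · exact (key x hx).symm
    · rw [Finset.mem_insert] at hx hx'
      rcases hx with rfl | hx <;> rcases hx' with rfl | hx'
      · exact absurd rfl hne
      · exact hy.ne' x' hx'
      · exact (hy.ne' x hx).symm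
      · exact hy.toIsTrip.ne hx hx' hne) (by
    intro x hx
    rw [Finset.mem_insert, Finset.mem_insert] at hx
    rcases hx with rfl | rfl | hx
    · exact hz0
    · exact hy.y0
    · exact hy.n0 x hx)
  have hc := hy.c10
  have hz := hy.toIsTrip.z2
  have hzy : z ∉ insert y J := by
    rw [Finset.mem_insert]
    rintro (h | h)
    · exact hcon.1.1 h
    · exact hcon.2.1 h
  have h2 : (insert z (insert y J)).card = 5 := by
    rw [Finset.card_insert_of_notMem hzy, Finset.card_insert_of_notMem hy.notMem, hy.card]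
  have h3 : ∑ x ∈ insert z (insert y J), 1 ≤ ∑ x ∈ insert z (insert y J), X.m (X.a x) :=
    Finset.sum_le_sum fun x _ => X.m_pos x
  rw [Finset.sum_const, h2, smul_eq_mul, mul_one] at h3
  omega

/-- a second relation -/
theorem second {K : Finset X.S} (hK : IsTrip K) {y' : X.S} (hy'K : y' ∈ K)
    (hy' : y' = y ∨ y' = c • y) :
    ∃ x ∈ J, x ∉ K ∧ c • x ∉ K ∧ ∃ p ∈ J, ∃ q ∈ J, p ≠ x ∧ q ≠ x ∧ p ≠ q ∧
      (∀ z ∈ J, z = x ∨ z = p ∨ z = q) ∧ (∀ k, X.a y' k = X.a p k - X.a q k) ∧
      ∀ k, X.a x k = -(X.a p k + X.a q k) := by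
  classical
  have hyn := hy.notMem
  have hyn' := hy.notMem'
  have h1 : y' ∉ J ∧ c • y' ∉ J := by
    rcases hy' with rfl | rfl
    · exact ⟨hyn, hyn'⟩
    · rw [X.conj_conj]
      exact ⟨hyn', hyn⟩
  have hNE' : ∀ x ∈ J, NE (X.a y') (X.a x) := by
    intro x hx
    rcases hy' with rfl | rfl
    · exact hy.ne' x hx
    · rw [X.a_conj]
      exact (hy.ne' x hx).neg_left
  obtain ⟨x, hxJ, hxK, hxK', T, hT, hTs⟩ := miss X.a (fun x => c • x) X.conj_conj X.a_conj J
    K hy.toIsTrip.free hK.free (by rw [hK.card, hy.card]) hy.sum hK.sum y' hy'K h1.1 h1.2 (by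
      intro z' hz' hne
      rcases hy.cov z' (hK.n0 z' hz') with h2 | h2
      · exfalso
        have h3 : z' = c • y' := by
          rcases hy' with e | e <;> rcases h2 with e' | e'
          · exact absurd (e'.trans e.symm) hne
          · rw [e', e]
          · rw [e, X.conj_conj, e']
          · exact absurd (e'.trans e.symm) hne
        rw [h3] at hz'
        exact hK.free _ hy'K hz'
      · exact h2)
  refine ⟨x, hxJ, hxK, hxK', ?_⟩
  have hc2 : (J.erase x).card = 2 := by
    rw [Finset.card_erase_of_mem hxJ, hy.card]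
  obtain ⟨p, q, hpq, hJx⟩ := Finset.card_eq_two.1 hc2
  have hxs : X.a x + (X.a p + X.a q) = 0 := by
    rw [← Finset.sum_pair hpq, ← hJx, Finset.add_sum_erase _ _ hxJ, hy.sum]
  have hpm : p ≠ x ∧ p ∈ J := by
    rw [← Finset.mem_erase, hJx]
    simp
  have hqm : q ≠ x ∧ q ∈ J := by
    rw [← Finset.mem_erase, hJx]
    simp
  have hall : ∀ z ∈ J, z = x ∨ z = p ∨ z = q := by
    intro z hz
    by_cases h : z = x
    · exact Or.inl h
    · right
      have : z ∈ J.erase x := Finset.mem_erase.2 ⟨h, hz⟩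
      rw [hJx, Finset.mem_insert, Finset.mem_singleton] at this
      exact this
  have hxk : ∀ k, X.a x k = -(X.a p k + X.a q k) := by
    intro k
    have := congrFun hxs k
    simp only [Pi.add_apply, Pi.zero_apply] at this
    linarith
  rw [hJx] at hT
  have hcases : T = ∅ ∨ T = {p} ∨ T = {q} ∨ T = {p, q} := by
    by_cases hp : p ∈ T <;> by_cases hq : q ∈ T
    · right; right; right
      exact Finset.Subset.antisymm hT (by
        intro z hz
        rw [Finset.mem_insert, Finset.mem_singleton] at hz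
        rcases hz with rfl | rfl <;> assumption)
    · right; left
      ext z
      constructor
      · intro hz
        have := hT hz
        rw [Finset.mem_insert, Finset.mem_singleton] at this
        rw [Finset.mem_singleton]
        rcases this with rfl | rfl
        · rfl
        · exact absurd hz hq
      · intro hz
        rw [Finset.mem_singleton] at hz
        rw [hz]
        exact hp
    · right; right; left
      ext z
      constructor
      · intro hz
        have := hT hz
        rw [Finset.mem_insert, Finset.mem_singleton] at this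
        rw [Finset.mem_singleton]
        rcases this with rfl | rfl
        · exact absurd hz hp
        · rfl
      · intro hz
        rw [Finset.mem_singleton] at hz
        rw [hz]
        exact hq
    · left
      ext z
      constructor
      · intro hz
        have := hT hz
        rw [Finset.mem_insert, Finset.mem_singleton] at this
        rcases this with rfl | rfl
        · exact absurd hz hp
        · exact absurd hz hq
      · intro hz
        exact absurd hz (Finset.notMem_empty z)
  rcases hcases with h | h | h | h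
  · exfalso
    rw [h, Finset.sum_empty] at hTs
    apply (hNE' x hxJ).2
    funext k
    have := congrFun hTs k
    simp only [Pi.add_apply, Pi.zero_apply, Pi.smul_apply, smul_eq_mul] at this
    rw [Pi.neg_apply]
    linarith
  · rw [h, Finset.sum_singleton] at hTs
    refine ⟨q, hqm.2, p, hpm.2, hqm.1, hpm.1, hpq.symm, ?_, ?_, ?_⟩
    · intro z hz
      rcases hall z hz with h | h | h
      · exact Or.inl h
      · exact Or.inr (Or.inr h)
      · exact Or.inr (Or.inl h)
    · intro k
      have := congrFun hTs k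
      simp only [Pi.add_apply, Pi.zero_apply, Pi.smul_apply, smul_eq_mul] at this
      have := hxk k
      linarith
    · intro k
      rw [hxk, add_comm (X.a p k)]
  · rw [h, Finset.sum_singleton] at hTs
    refine ⟨p, hpm.2, q, hqm.2, hpm.1, hqm.1, hpq, hall, ?_, hxk⟩
    intro k
    have := congrFun hTs k
    simp only [Pi.add_apply, Pi.zero_apply, Pi.smul_apply, smul_eq_mul] at this
    have := hxk k
    linarith
  · exfalso
    rw [h, Finset.sum_pair hpq] at hTs
    apply (hNE' x hxJ).1
    funext k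
    have := congrFun hTs k
    simp only [Pi.add_apply, Pi.zero_apply, Pi.smul_apply, smul_eq_mul] at this
    have := hxk k
    linarith

/-- the exceptional form, given stability -/
theorem exc_of_second {x p q y' : X.S} (hx : x ∈ J) (hp : p ∈ J) (hq : q ∈ J) (hpx : p ≠ x)
    (hqx : q ≠ x) (hpq : p ≠ q) (hy' : y' = y ∨ y' = c • y)
    (h1 : ∀ k, X.a y' k = X.a p k - X.a q k) (h2 : ∀ k, X.a x k = -(X.a p k + X.a q k))
    (s1 : ∀ h, (rho h (X.a p) = X.a p ∨ rho h (X.a p) = -X.a p) ∨
      (rho h (X.a p) = X.a q ∨ rho h (X.a p) = -X.a q))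
    (s2 : ∀ h, (rho h (X.a q) = X.a p ∨ rho h (X.a q) = -X.a p) ∨
      (rho h (X.a q) = X.a q ∨ rho h (X.a q) = -X.a q)) : Exceptional X.slopes := by
  obtain ⟨x₀, hx₀⟩ := hy.z0
  have hNE' : ∀ x ∈ J, NE (X.a y') (X.a x) := by
    intro x hx
    rcases hy' with rfl | rfl
    · exact hy.ne' x hx
    · rw [X.a_conj]
      exact (hy.ne' x hx).neg_left
  have hy0 : X.a y' ≠ 0 := by
    rcases hy' with rfl | rfl
    · exact hy.y0
    · rw [X.a_conj]
      exact neg_ne_zero.2 hy.y0
  have hr : X.a (c • x) = X.a p + X.a q := by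
    funext k
    rw [X.a_conj, Pi.neg_apply, Pi.add_apply, h2, neg_neg]
  have hs : X.a y' = X.a p - X.a q := by
    funext k
    rw [Pi.sub_apply, h1]
  refine exc_of hy.c10 hx₀ hr hs (hy.n0 p hp) (hy.n0 q hq) ?_ hy0 ?_ s1 s2
  · rw [X.a_conj]
    exact neg_ne_zero.2 (hy.n0 x hx)
  · rw [X.a_conj]
    simp only [List.pairwise_cons, List.mem_cons, List.not_mem_nil, or_false, forall_eq_or_imp,
      forall_eq, List.Pairwise.nil, and_true, IsEmpty.forall_iff, implies_true]
    exact ⟨⟨hy.toIsTrip.ne hp hq hpq, (hy.toIsTrip.ne hp hx hpx).neg_right,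
      (hNE' p hp).symm⟩, ⟨(hy.toIsTrip.ne hq hx hqx).neg_right, (hNE' q hq).symm⟩,
      (hNE' x hx).symm.neg_left⟩

theorem exc {z₀ : X.S} (hz₀ : z₀ ∈ J) (g₀ : G) (hg₀ : g₀ • z₀ = y) :
    Exceptional X.slopes := by
  have hK := hy.toIsTrip.image g₀
  obtain ⟨x, hx, hxK, hxK', p, hp, q, hq, hpx, hqx, hpq, hall, h1, h2⟩ :=
    hy.second hK (y' := y) (by rw [← hg₀]; exact Finset.mem_image_of_mem _ hz₀) (Or.inl rfl)
  have hxy : N (X.a x) = N (X.a y) := by
    have h3 : X.a (g₀⁻¹ • x) ≠ 0 := by
      rw [X.a_smul]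
      exact fun h => hy.n0 x hx (rho_eq_zero h)
    have h4 : g₀⁻¹ • x = y ∨ g₀⁻¹ • x = c • y := by
      rcases hy.cov _ h3 with h4 | h4 | h4
      · exact h4
      · exfalso
        apply hxK
        rw [Finset.mem_image]
        exact ⟨_, h4, by rw [smul_inv_smul]⟩
      · exfalso
        apply hxK'
        rw [Finset.mem_image]
        exact ⟨_, h4, by rw [← X.conj_comm, smul_inv_smul]⟩
    rw [← N_rho g₀⁻¹ (X.a x), ← X.a_smul]
    rcases h4 with h4 | h4
    · rw [h4]
    · rw [h4, X.a_conj, N_neg]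
  have e1 : N (X.a y) = N (X.a p) - 2 * B (X.a p) (X.a q) + N (X.a q) := by
    rw [N_of 1 (-1) (X.a p) (X.a q) (fun k => by rw [h1]; ring)]
    ring
  have e2 : N (X.a x) = N (X.a p) + 2 * B (X.a p) (X.a q) + N (X.a q) := by
    rw [N_of (-1) (-1) (X.a p) (X.a q) (fun k => by rw [h2]; ring)]
    ring
  have np := N_pos (hy.n0 p hp)
  have nq := N_pos (hy.n0 q hq)
  have hB : B (X.a p) (X.a q) = 0 := by linarith
  rw [hB] at e1 e2
  -- stability
  have stab : ∀ z, (z = p ∨ z = q) → ∀ h, (rho h (X.a z) = X.a p ∨ rho h (X.a z) = -X.a p) ∨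
      (rho h (X.a z) = X.a q ∨ rho h (X.a z) = -X.a q) := by
    intro z hz h
    have hzJ : z ∈ J := by
      rcases hz with rfl | rfl <;> assumption
    have hz0 : X.a (h • z) ≠ 0 := by
      rw [X.a_smul]
      exact fun h => hy.n0 z hzJ (rho_eq_zero h)
    have hNz : N (X.a (h • z)) < N (X.a x) := by
      rw [X.a_smul, N_rho, e2]
      rcases hz with rfl | rfl <;> linarith
    rw [← X.a_smul]
    have key : ∀ w ∈ J, (X.a (h • z) = X.a w ∨ X.a (h • z) = -X.a w) →
        (X.a (h • z) = X.a p ∨ X.a (h • z) = -X.a p) ∨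
        (X.a (h • z) = X.a q ∨ X.a (h • z) = -X.a q) := by
      intro w hw hzw
      rcases hall w hw with rfl | rfl | rfl
      · exfalso
        have := N_eq_of hzw
        linarith
      · exact Or.inl hzw
      · exact Or.inr hzw
    rcases hy.cov _ hz0 with (h4 | h4) | (h4 | h4)
    · exfalso
      rw [h4] at hNz
      linarith
    · exfalso
      rw [h4, X.a_conj, N_neg] at hNz
      linarith
    · exact key _ h4 (Or.inl rfl)
    · exact key _ h4 (Or.inr (by rw [X.a_conj, neg_neg]))
  exact hy.exc_of_second hx hp hq hpx hqx hpq (Or.inl rfl) h1 h2 (stab p (Or.inl rfl))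
    (stab q (Or.inr rfl))

theorem exc_two {K : Finset X.S} (hK : IsTrip K) (hyK : y ∈ K)
    (hJc : ∀ g : G, ∀ x ∈ J, ∃ x' ∈ J, X.a (g • x) = X.a x' ∨ X.a (g • x) = -X.a x')
    (hKc : ∀ g : G, ∀ x ∈ K, ∃ x' ∈ K, X.a (g • x) = X.a x' ∨ X.a (g • x) = -X.a x') :
    Exceptional X.slopes := by
  obtain ⟨x, hx, hxK, hxK', p, hp, q, hq, hpx, hqx, hpq, hall, h1, h2⟩ :=
    hy.second hK (y' := y) hyK (Or.inl rfl)
  -- the elements of `K`
  have hKel : ∀ k ∈ K, k = y ∨ (X.a k = X.a p ∨ X.a k = -X.a p) ∨
      (X.a k = X.a q ∨ X.a k = -X.a q) := by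
    intro k hk
    rcases hy.cov k (hK.n0 k hk) with (h4 | h4) | (h4 | h4)
    · exact Or.inl h4
    · exfalso
      rw [h4] at hk
      exact hK.free y hyK hk
    · right
      rcases hall k h4 with h5 | h5 | h5
      · exact absurd (h5 ▸ hk) hxK
      · exact Or.inl (Or.inl (by rw [h5]))
      · exact Or.inr (Or.inl (by rw [h5]))
    · right
      rcases hall _ h4 with h5 | h5 | h5
      · exfalso
        apply hxK'
        rw [← h5, X.conj_conj]
        exact hk
      · exact Or.inl (Or.inr (by rw [← h5, X.a_conj, neg_neg]))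
      · exact Or.inr (Or.inr (by rw [← h5, X.a_conj, neg_neg]))
  -- both classes occur in `K`
  have hcard : (K.erase y).card = 2 := by
    rw [Finset.card_erase_of_mem hyK, hK.card]
  obtain ⟨k₁, k₂, hk12, hKe⟩ := Finset.card_eq_two.1 hcard
  have hk₁ : k₁ ≠ y ∧ k₁ ∈ K := by
    rw [← Finset.mem_erase, hKe]
    simp
  have hk₂ : k₂ ≠ y ∧ k₂ ∈ K := by
    rw [← Finset.mem_erase, hKe]
    simp
  have hNk := hK.ne hk₁.2 hk₂.2 hk12
  have trans : ∀ v₁ v₂ v₃ : G → ℚ, (v₁ = v₂ ∨ v₁ = -v₂) → (v₃ = v₂ ∨ v₃ = -v₂) →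
      ¬ NE v₁ v₃ := by
    rintro v₁ v₂ v₃ (rfl | rfl) (rfl | rfl) h
    · exact h.1 rfl
    · exact h.2 (neg_neg _).symm
    · exact h.2 rfl
    · exact h.1 rfl
  have hex : ∀ z, (z = p ∨ z = q) → ∃ k ∈ K, X.a k = X.a z ∨ X.a k = -X.a z := by
    intro z hz
    rcases (hKel k₁ hk₁.2).resolve_left hk₁.1 with h3 | h3 <;>
      rcases (hKel k₂ hk₂.2).resolve_left hk₂.1 with h4 | h4
    · exact absurd hNk (trans _ _ _ h3 h4)
    · rcases hz with rfl | rfl
      · exact ⟨k₁, hk₁.2, h3⟩
      · exact ⟨k₂, hk₂.2, h4⟩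
    · rcases hz with rfl | rfl
      · exact ⟨k₂, hk₂.2, h4⟩
      · exact ⟨k₁, hk₁.2, h3⟩
    · exact absurd hNk (trans _ _ _ h3 h4)
  have stab : ∀ z, (z = p ∨ z = q) → ∀ h, (rho h (X.a z) = X.a p ∨ rho h (X.a z) = -X.a p) ∨
      (rho h (X.a z) = X.a q ∨ rho h (X.a z) = -X.a q) := by
    intro z hz h
    have hzJ : z ∈ J := by
      rcases hz with rfl | rfl <;> assumption
    obtain ⟨x', hx', h3⟩ := hJc h z hzJ
    rw [X.a_smul] at h3
    rcases hall x' hx' with rfl | rfl | rfl
    · exfalso
      obtain ⟨k, hk, hkz⟩ := hex z hz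
      obtain ⟨k', hk', h4⟩ := hKc h k hk
      -- `x'` and `k'` have the same class
      have h5 : ¬ NE (X.a x') (X.a k') := by
        rw [X.a_smul] at h4
        have e : rho h (X.a k) = rho h (X.a z) ∨ rho h (X.a k) = -rho h (X.a z) := by
          rcases hkz with h | h
          · left
            rw [h]
          · right
            rw [h, rho_neg]
        intro h6
        rcases h3 with h3 | h3 <;> rcases e with e | e <;> rcases h4 with h4 | h4 <;>
          rw [h3, h4] at e
        · exact h6.1 e.symm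
        · exact h6.2 (by rw [← e])
        · exact h6.2 (by rw [e, neg_neg])
        · exact h6.1 (neg_injective e).symm
        · exact h6.2 (by rw [e, neg_neg])
        · exact h6.1 (neg_injective e).symm
        · rw [neg_neg] at e
          exact h6.1 e.symm
        · rw [neg_neg] at e
          exact h6.2 e.symm
      rcases hKel k' hk' with h6 | h6 | h6
      · rw [h6] at h5
        exact h5 (hy.ne' x' hx).symm
      · rcases h6 with h6 | h6
        · rw [h6] at h5
          exact h5 (hy.toIsTrip.ne hx hp hpx.symm)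
        · rw [h6] at h5
          exact h5 (hy.toIsTrip.ne hx hp hpx.symm).neg_right
      · rcases h6 with h6 | h6
        · rw [h6] at h5
          exact h5 (hy.toIsTrip.ne hx hq hqx.symm)
        · rw [h6] at h5
          exact h5 (hy.toIsTrip.ne hx hq hqx.symm).neg_right
    · exact Or.inl h3
    · exact Or.inr h3
  exact hy.exc_of_second hx hp hq hpx hqx hpq (Or.inl rfl) h1 h2 (stab p (Or.inl rfl))
    (stab q (Or.inr rfl))

end IsOpen3

end CMDatum

end Pc0b458F
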