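import Mathlib

/-!
# Functions on a finite group, right translations, and the invariant scalar product
-/

namespace Pc0b458F

variable {G : Type} [Group G]

/-- right translation of functions on `G` -/
def rho (g : G) (f : G → ℚ) : G → ℚ := fun h => f (h * g)

theorem rho_apply (g : G) (f : G → ℚ) (h : G) : rho g f h = f (h * g) := rfl

theorem rho_mul (g h : G) (f : G → ℚ) : rho (g * h) f = rho g (rho h f) := by
  funext k
  simp only [rho_apply, mul_assoc]

theorem rho_one (f : G → ℚ) : rho 1 f = f := by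
  funext k
  simp only [rho_apply, mul_one]

theorem rho_add (g : G) (f f' : G → ℚ) : rho g (f + f') = rho g f + rho g f' := rfl

theorem rho_sub (g : G) (f f' : G → ℚ) : rho g (f - f') = rho g f - rho g f' := rfl

theorem rho_neg (g : G) (f : G → ℚ) : rho g (-f) = -rho g f := rfl

theorem rho_zero (g : G) : rho g (0 : G → ℚ) = 0 := rfl

theorem rho_smul (g : G) (t : ℚ) (f : G → ℚ) : rho g (t • f) = t • rho g f := rfl

theorem rho_sum (g : G) {I : Type*} (s : Finset I) (f : I → G → ℚ) :
    rho g (∑ i ∈ s, f i) = ∑ i ∈ s, rho g (f i) := by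
  funext k
  simp only [rho_apply, Finset.sum_apply]

theorem rho_inv (g : G) (f : G → ℚ) : rho g⁻¹ (rho g f) = f := by
  rw [← rho_mul, inv_mul_cancel, rho_one]

theorem rho_inv' (g : G) (f : G → ℚ) : rho g (rho g⁻¹ f) = f := by
  rw [← rho_mul, mul_inv_cancel, rho_one]

theorem rho_inj {g : G} {f f' : G → ℚ} (h : rho g f = rho g f') : f = f' := by
  rw [← rho_inv g f, h, rho_inv]

theorem rho_eq_zero {g : G} {f : G → ℚ} (h : rho g f = 0) : f = 0 :=
  rho_inj (g := g) (by rw [h, rho_zero])

/-- not equal up to sign -/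
def NE (v w : G → ℚ) : Prop := v ≠ w ∧ v ≠ -w

theorem NE.symm {v w : G → ℚ} (h : NE v w) : NE w v :=
  ⟨fun e => h.1 e.symm, fun e => h.2 (by rw [e, neg_neg])⟩

theorem NE.neg_left {v w : G → ℚ} (h : NE v w) : NE (-v) w :=
  ⟨fun e => h.2 (by rw [← e, neg_neg]), fun e => h.1 (neg_injective e)⟩

theorem NE.neg_right {v w : G → ℚ} (h : NE v w) : NE v (-w) := h.symm.neg_left.symm

theorem NE.rho {v w : G → ℚ} (h : NE v w) (g : G) : NE (rho g v) (rho g w) :=
  ⟨fun e => h.1 (rho_inj e), fun e => h.2 (rho_inj (g := g) (by rw [e, rho_neg]))⟩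

theorem not_NE {v w : G → ℚ} (h : ¬ NE v w) : v = w ∨ v = -w := by
  by_contra hc
  push Not at hc
  exact h hc

variable [Fintype G]

/-- the scalar product -/
def B (f f' : G → ℚ) : ℚ := ∑ g, f g * f' g

/-- the square norm -/
def N (f : G → ℚ) : ℚ := B f f

theorem B_comm (f f' : G → ℚ) : B f f' = B f' f :=
  Finset.sum_congr rfl fun _ _ => mul_comm _ _

theorem B_rho (g : G) (f f' : G → ℚ) : B (rho g f) (rho g f') = B f f' := by
  unfold B
  exact Fintype.sum_equiv (Equiv.mulRight g) _ _ fun k => rfl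

theorem N_rho (g : G) (f : G → ℚ) : N (rho g f) = N f := B_rho g f f

theorem N_neg (f : G → ℚ) : N (-f) = N f := by
  simp [N, B]

theorem N_nonneg (f : G → ℚ) : 0 ≤ N f :=
  Finset.sum_nonneg fun _ _ => mul_self_nonneg _

theorem N_eq_zero {f : G → ℚ} (h : N f = 0) : f = 0 := by
  funext g
  have h1 := (Finset.sum_eq_zero_iff_of_nonneg (fun g _ => mul_self_nonneg (f g))).1 h g
    (Finset.mem_univ g)
  exact mul_self_eq_zero.1 h1

theorem N_pos {f : G → ℚ} (h : f ≠ 0) : 0 < N f :=
  lt_of_le_of_ne (N_nonneg f) fun e => h (N_eq_zero e.symm)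

theorem N_comb (α β : ℚ) (t u : G → ℚ) :
    N (α • t + β • u) = α ^ 2 * N t + 2 * α * β * B t u + β ^ 2 * N u := by
  unfold N B
  rw [Finset.mul_sum, Finset.mul_sum, Finset.mul_sum, ← Finset.sum_add_distrib,
    ← Finset.sum_add_distrib]
  refine Finset.sum_congr rfl fun k _ => ?_
  simp only [Pi.add_apply, Pi.smul_apply, smul_eq_mul]
  ring

/-- norm of a vector which is a combination of two vectors -/
theorem N_of {v : G → ℚ} (α β : ℚ) (t u : G → ℚ) (h : ∀ k, v k = α * t k + β * u k) :
    N v = α ^ 2 * N t + 2 * α * β * B t u + β ^ 2 * N u := by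
  have e : v = α • t + β • u := by
    funext k
    simp only [Pi.add_apply, Pi.smul_apply, smul_eq_mul]
    exact h k
  rw [e, N_comb]

theorem N_eq_of {v w : G → ℚ} (h : v = w ∨ v = -w) : N v = N w := by
  rcases h with h | h
  · rw [h]
  · rw [h, N_neg]

end Pc0b458F
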